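import Pool.Agent.Rebel.Defs

/-! # Stable blocks (Hales-Jewett) -/

set_option autoImplicit false

open Finset

namespace Pool.Agent.Rebel

/-- preimage of `I` in `range n` under the partial map `g` -/
def pb (n : ℕ) (g : ℕ → Option ℕ) (I : Finset ℕ) : Finset ℕ :=
  (range n).filter (fun k => ∃ i ∈ I, g k = some i)

theorem mem_pb {n : ℕ} {g : ℕ → Option ℕ} {I : Finset ℕ} {k : ℕ} :
    k ∈ pb n g I ↔ k < n ∧ ∃ i ∈ I, g k = some i := by
  simp [pb]

/-- sorting the directions of a subspace by their first occurrence -/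
theorem exists_sort {η N : ℕ} (f : Fin N → Option (Fin η)) (hf : ∀ e, ∃ k, f k = some e) :
    ∃ σ : Equiv.Perm (Fin η), ∀ j : Fin η, ∃ k, f k = some (σ j) ∧
      ∀ k' ≤ k, ∀ j', f k' = some (σ j') → j' ≤ j := by
  classical
  -- first occurrence
  have hfirst : ∀ e : Fin η, ∃ k, f k = some e ∧ ∀ k', f k' = some e → k ≤ k' := by
    intro e
    obtain ⟨k, hk⟩ := hf e
    obtain ⟨k0, hk0, hmin⟩ := exists_min_image (univ.filter (fun k => f k = some e)) id
      ⟨k, by simp [hk]⟩
    refine ⟨k0, (mem_filter.1 hk0).2, fun k' hk' => hmin k' (by simp [hk'])⟩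
  choose fp hfp hmin using hfirst
  have hinj : Function.Injective fp := by
    intro e e' h
    have h1 := hfp e
    rw [h, hfp e'] at h1
    exact (Option.some.inj h1).symm
  refine ⟨Tuple.sort fp, fun j => ⟨fp (Tuple.sort fp j), hfp _, fun k' hk' j' hj' => ?_⟩⟩
  have h1 : fp (Tuple.sort fp j') ≤ k' := hmin _ _ hj'
  by_contra hlt
  push Not at hlt
  have h2 : fp (Tuple.sort fp j) ≤ fp (Tuple.sort fp j') := Tuple.monotone_sort fp hlt.le
  have h3 : fp (Tuple.sort fp j) = fp (Tuple.sort fp j') := le_antisymm h2 (h1.trans hk')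
  exact absurd ((Tuple.sort fp).injective (hinj h3)) hlt.ne

/-- One Hales-Jewett step. -/
theorem hj_step (r η : ℕ) (κ : Type) [Finite κ] :
    ∃ N : ℕ, ∀ c : Finset ℕ → Finset ℕ → κ, ∃ g : ℕ → Option ℕ,
      (∀ i < r, g i = some i) ∧
      (∀ k < r + N, ∀ j, g k = some j → j < r + η) ∧
      (∀ j < r + η, ∃ k < r + N, g k = some j ∧ ∀ k' ≤ k, ∀ j', g k' = some j' → j' ≤ j) ∧
      ∀ I J : Finset ℕ, I ⊆ range (r + η) → J ⊆ range (r + η) → GP (I ∩ range r) (J ∩ range r) →
        c (pb (r + N) g I) (pb (r + N) g J) =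
          c (pb (r + N) g (I ∩ range r)) (pb (r + N) g (J ∩ range r)) := by
  classical
  obtain ⟨N, hN⟩ := Combinatorics.Subspace.exists_mono_in_high_dimension_fin
    (Option (Fin r)) (Finset (Fin r) → Finset (Fin r) → κ) (Fin η)
  refine ⟨N, fun c => ?_⟩
  -- the set attached to `I0` by a word `w`
  let St : (Fin N → Option (Fin r)) → Finset (Fin r) → Finset ℕ := fun w I0 =>
    (range (r + N)).filter (fun k => (∃ i ∈ I0, k = (i : ℕ)) ∨
      ∃ k' : Fin N, k = r + k' ∧ ∃ i ∈ I0, w k' = some i)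
  obtain ⟨l, col, hcol⟩ := hN (fun w I0 J0 => c (St w I0) (St w J0))
  -- parameters
  let f : Fin N → Option (Fin η) := fun k => (l.idxFun k).elim (fun _ => none) some
  have hf : ∀ e, ∃ k, f k = some e := by
    intro e
    obtain ⟨k, hk⟩ := l.proper e
    exact ⟨k, by simp [f, hk]⟩
  obtain ⟨σ, hσ⟩ := exists_sort f hf
  let tr : Option (Fin r) ⊕ Fin η → Option ℕ := fun x =>
    x.elim (fun o => o.map (fun i => (i : ℕ))) (fun e => some (r + (σ.symm e : ℕ)))
  let g : ℕ → Option ℕ := fun k =>
    if k < r then some k else if h : k - r < N then tr (l.idxFun ⟨k - r, h⟩) else none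
  have g1 : ∀ i < r, g i = some i := fun i hi => by simp [g, hi]
  have g2 : ∀ k : Fin N, g (r + k) = tr (l.idxFun k) := by
    intro k
    have h1 : ¬ (r + (k : ℕ) < r) := by omega
    have h2 : r + (k : ℕ) - r = k := by omega
    simp only [g, h1, if_false]
    rw [dif_pos (by rw [h2]; exact k.2)]
    congr 2
    exact Fin.ext h2
  have htr : ∀ x j, tr x = some j → (∃ i : Fin r, x = Sum.inl (some i) ∧ j = i) ∨
      (∃ e, x = Sum.inr e ∧ j = r + (σ.symm e : ℕ)) := by
    intro x j h
    rcases x with (_ | i) | e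
    · simp [tr] at h
    · left
      refine ⟨i, rfl, ?_⟩
      simpa [tr] using h.symm
    · right
      refine ⟨e, rfl, ?_⟩
      simpa [tr] using h.symm
  have hsplit : ∀ k < r + N, k < r ∨ ∃ k' : Fin N, k = r + k' := by
    intro k hk
    rcases lt_or_ge k r with h | h
    · exact Or.inl h
    · exact Or.inr ⟨⟨k - r, by omega⟩, by simp; omega⟩
  refine ⟨g, g1, ?_, ?_, ?_⟩
  · intro k hk j hj
    rcases hsplit k hk with h | ⟨k', rfl⟩
    · rw [g1 k h] at hj
      have := Option.some.inj hj
      omega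
    · rw [g2] at hj
      rcases htr _ _ hj with ⟨i, _, rfl⟩ | ⟨e, _, rfl⟩
      · have := i.2; omega
      · have := (σ.symm e).2; omega
  · intro j hj
    rcases lt_or_ge j r with h | h
    · refine ⟨j, by omega, g1 j h, fun k' hk' j' hj' => ?_⟩
      rw [g1 k' (by omega)] at hj'
      have := Option.some.inj hj'
      omega
    · obtain ⟨k, hk1, hk2⟩ := hσ ⟨j - r, by omega⟩
      have hk3 : l.idxFun k = Sum.inr (σ ⟨j - r, by omega⟩) := by
        simp only [f] at hk1
        rcases hx : l.idxFun k with o | e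
        · rw [hx] at hk1; simp at hk1
        · rw [hx] at hk1
          simp only [Sum.elim_inr, Option.some.injEq] at hk1
          rw [hk1]
      refine ⟨r + k, by have := k.2; omega, ?_, ?_⟩
      · rw [g2, hk3]
        simp [tr]
        omega
      · intro k' hk' j' hj'
        rcases hsplit k' (by have := k.2; omega) with h' | ⟨k'', rfl⟩
        · rw [g1 k' h'] at hj'
          have := Option.some.inj hj'
          omega
        · rw [g2] at hj'
          rcases htr _ _ hj' with ⟨i, _, rfl⟩ | ⟨e, he, rfl⟩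
          · have := i.2; omega
          · have h5 := hk2 k'' (by rw [Fin.le_def]; omega) (σ.symm e) (by simp [f, he])
            rw [Fin.le_def] at h5
            simp only at h5
            omega
  · intro I J hI hJ hGP
    obtain ⟨⟨x1, hx1I, hx1J⟩, ⟨x2, hx2I, hx2J⟩, ⟨x3, hx3I, hx3J⟩⟩ := hGP
    have hx1r : x1 < r := mem_range.1 (mem_inter.1 hx1I).2
    have hx2r : x2 < r := mem_range.1 (mem_inter.1 hx2J).2
    have hx3r : x3 < r := mem_range.1 (mem_inter.1 hx3I).2
    have hx1I' := (mem_inter.1 hx1I).1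
    have hx2J' := (mem_inter.1 hx2J).1
    have hx3I' := (mem_inter.1 hx3I).1
    have hx3J' := (mem_inter.1 hx3J).1
    have hx1J' : x1 ∉ J := fun h => hx1J (mem_inter.2 ⟨h, mem_range.2 hx1r⟩)
    have hx2I' : x2 ∉ I := fun h => hx2I (mem_inter.2 ⟨h, mem_range.2 hx2r⟩)
    -- letters
    let I0 : Finset (Fin r) := univ.filter (fun i => (i : ℕ) ∈ I)
    let J0 : Finset (Fin r) := univ.filter (fun i => (i : ℕ) ∈ J)
    let xx : Fin η → Option (Fin r) := fun e =>
      if r + (σ.symm e : ℕ) ∈ I then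
        (if r + (σ.symm e : ℕ) ∈ J then some ⟨x3, hx3r⟩ else some ⟨x1, hx1r⟩)
      else (if r + (σ.symm e : ℕ) ∈ J then some ⟨x2, hx2r⟩ else none)
    -- general computation
    have hcomp : ∀ (K : Finset ℕ) (K0 : Finset (Fin r)) (y : Fin η → Option (Fin r)),
        (∀ i : Fin r, i ∈ K0 ↔ (i : ℕ) ∈ K) →
        (∀ e, (∃ i ∈ K0, y e = some i) ↔ r + (σ.symm e : ℕ) ∈ K) →
        St (l y) K0 = pb (r + N) g K := by
      intro K K0 y hK0 hy
      ext k
      rw [mem_pb]
      simp only [St, mem_filter, mem_range]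
      constructor
      · rintro ⟨hk, ⟨i, hi, rfl⟩ | ⟨k', rfl, i, hi, hw⟩⟩
        · exact ⟨hk, i, (hK0 i).1 hi, g1 _ i.2⟩
        · refine ⟨hk, ?_⟩
          rw [Combinatorics.Subspace.apply_def] at hw
          rw [g2]
          rcases hx : l.idxFun k' with o | e
          · rw [hx] at hw
            simp only [Sum.elim_inl, id] at hw
            refine ⟨i, (hK0 i).1 hi, ?_⟩
            simp [tr, hw]
          · rw [hx] at hw
            simp only [Sum.elim_inr] at hw
            exact ⟨r + (σ.symm e : ℕ), (hy e).1 ⟨i, hi, hw⟩, by simp [tr]⟩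
      · rintro ⟨hk, j, hj, hgk⟩
        refine ⟨hk, ?_⟩
        rcases hsplit k hk with h | ⟨k', rfl⟩
        · left
          rw [g1 k h] at hgk
          have := Option.some.inj hgk
          subst this
          exact ⟨⟨k, h⟩, (hK0 _).2 hj, rfl⟩
        · right
          rw [g2] at hgk
          refine ⟨k', rfl, ?_⟩
          rw [Combinatorics.Subspace.apply_def]
          rcases htr _ _ hgk with ⟨i, hx, rfl⟩ | ⟨e, hx, rfl⟩
          · exact ⟨i, (hK0 i).2 hj, by rw [hx]; simp⟩
          · obtain ⟨i, hi, hyi⟩ := (hy e).2 hj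
            exact ⟨i, hi, by rw [hx]; simpa using hyi⟩
    have e1 : St (l xx) I0 = pb (r + N) g I := by
      apply hcomp
      · intro i; simp [I0]
      · intro e
        simp only [xx]
        split_ifs with h1 h2 h2
        · simp [I0, h1, hx3I']
        · simp [I0, h1, hx1I']
        · simp [I0, h1, hx2I']
        · simp [h1]
    have e2 : St (l xx) J0 = pb (r + N) g J := by
      apply hcomp
      · intro i; simp [J0]
      · intro e
        simp only [xx]
        split_ifs with h1 h2 h2
        · simp [J0, h2, hx3J']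
        · simp [J0, h2, hx1J']
        · simp [J0, h2, hx2J']
        · simp [h2]
    have e3 : St (l (fun _ => none)) I0 = pb (r + N) g (I ∩ range r) := by
      apply hcomp
      · intro i; simp [I0]
      · intro e
        simp
    have e4 : St (l (fun _ => none)) J0 = pb (r + N) g (J ∩ range r) := by
      apply hcomp
      · intro i; simp [J0]
      · intro e
        simp
    have h1 := congrFun (congrFun (hcol xx) I0) J0
    have h2 := congrFun (congrFun (hcol (fun _ => none)) I0) J0
    simp only at h1 h2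
    rw [e1, e2] at h1
    rw [e3, e4] at h2
    rw [h1, h2]

theorem blocks_aux (κ : Type) [Finite κ] (d : ℕ) : ∀ r : ℕ, ∃ N : ℕ,
    ∀ c : Finset ℕ → Finset ℕ → κ, ∃ g : ℕ → Option ℕ,
      (∀ i < r, g i = some i) ∧
      (∀ k < r + N, ∀ j, g k = some j → j < r + d) ∧
      (∀ j < r + d, ∃ k < r + N, g k = some j ∧ ∀ k' ≤ k, ∀ j', g k' = some j' → j' ≤ j) ∧
      ∀ s, r ≤ s → s ≤ r + d → ∀ I J : Finset ℕ, I ⊆ range (r + d) → J ⊆ range (r + d) →
        GP (I ∩ range s) (J ∩ range s) →
        c (pb (r + N) g I) (pb (r + N) g J) =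
          c (pb (r + N) g (I ∩ range s)) (pb (r + N) g (J ∩ range s)) := by
  induction d with
  | zero =>
    intro r
    refine ⟨0, fun c => ⟨fun i => if i < r then some i else none, ?_, ?_, ?_, ?_⟩⟩
    · intro i hi; simp [hi]
    · intro k hk j hj
      simp only [add_zero] at hk ⊢
      simp only [hk, if_true, Option.some.injEq] at hj
      omega
    · intro j hj
      simp only [add_zero] at hj ⊢
      refine ⟨j, hj, by simp [hj], fun k' hk' j' hj' => ?_⟩
      have : k' < r := by omega
      simp only [this, if_true, Option.some.injEq] at hj'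
      omega
    · intro s hs hs' I J hI hJ _
      have : s = r := by omega
      subst this
      rw [add_zero] at hI hJ
      rw [inter_eq_left.2 hI, inter_eq_left.2 hJ]
  | succ d ih =>
    intro r
    obtain ⟨N1, hN1⟩ := ih (r + 1)
    obtain ⟨N, hN⟩ := hj_step r (1 + N1) κ
    refine ⟨N, fun c => ?_⟩
    obtain ⟨g1, ga1, gb1, gc1, gd1⟩ := hN c
    obtain ⟨g2, ga2, gb2, gc2, gd2⟩ := hN1
      (fun I J => c (pb (r + N) g1 I) (pb (r + N) g1 J))
    have hpb : ∀ I, pb (r + N) (fun k => (g1 k).bind g2) I =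
        pb (r + N) g1 (pb (r + 1 + N1) g2 I) := by
      intro I
      ext k
      rw [mem_pb, mem_pb]
      constructor
      · rintro ⟨hk, i, hi, h⟩
        rw [Option.bind_eq_some_iff] at h
        obtain ⟨j, hj, hji⟩ := h
        refine ⟨hk, j, ?_, hj⟩
        rw [mem_pb]
        have := gb1 k hk j hj
        exact ⟨by omega, i, hi, hji⟩
      · rintro ⟨hk, j, hj, hkj⟩
        rw [mem_pb] at hj
        obtain ⟨_, i, hi, hji⟩ := hj
        exact ⟨hk, i, hi, by simp [hkj, hji]⟩
    refine ⟨fun k => (g1 k).bind g2, ?_, ?_, ?_, ?_⟩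
    · intro i hi
      simp [ga1 i hi, ga2 i (by omega)]
    · intro k hk j hj
      simp only [Option.bind_eq_some_iff] at hj
      obtain ⟨i, hi, hij⟩ := hj
      have h1 := gb1 k hk i hi
      have h2 := gb2 i (by omega) j hij
      omega
    · intro j hj
      obtain ⟨k2, hk2, hk2j, hk2m⟩ := gc2 j (by omega)
      obtain ⟨k1, hk1, hk1j, hk1m⟩ := gc1 k2 (by omega)
      refine ⟨k1, hk1, by simp [hk1j, hk2j], fun k' hk' j' hj' => ?_⟩
      simp only [Option.bind_eq_some_iff] at hj'
      obtain ⟨i, hi, hij⟩ := hj'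
      exact hk2m i (hk1m k' hk' i hi) j' hij
    · intro s hs hs' I J hI hJ hGP
      rw [hpb, hpb, hpb, hpb]
      rcases Nat.lt_or_ge r s with hrs | hrs
      · exact gd2 s hrs (by omega) I J (by rwa [show r + 1 + d = r + (d + 1) by omega])
          (by rwa [show r + 1 + d = r + (d + 1) by omega]) hGP
      · have hsr : s = r := by omega
        subst hsr
        have hcut : ∀ I : Finset ℕ, pb (s + 1 + N1) g2 I ∩ range s = I ∩ range s := by
          intro I
          ext k
          simp only [mem_inter, mem_pb, mem_range]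
          constructor
          · rintro ⟨⟨_, i, hi, hki⟩, hk⟩
            rw [ga2 k (by omega)] at hki
            have := Option.some.inj hki
            subst this
            exact ⟨hi, hk⟩
          · rintro ⟨hk1, hk2⟩
            exact ⟨⟨by omega, k, hk1, ga2 k (by omega)⟩, hk2⟩
        have hsub : ∀ I : Finset ℕ, pb (s + 1 + N1) g2 I ⊆ range (s + (1 + N1)) := by
          intro I k hk
          rw [mem_pb] at hk
          rw [mem_range]
          omega
        have h1 := gd1 (pb (s + 1 + N1) g2 I) (pb (s + 1 + N1) g2 J) (hsub I) (hsub J)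
          (by rw [hcut, hcut]; exact hGP)
        have h2 := gd1 (pb (s + 1 + N1) g2 (I ∩ range s)) (pb (s + 1 + N1) g2 (J ∩ range s))
          (hsub _) (hsub _) (by
            rw [hcut, hcut, inter_assoc, inter_self, inter_assoc, inter_self]; exact hGP)
        rw [h1, h2, hcut, hcut, hcut, hcut, inter_assoc, inter_self, inter_assoc, inter_self]

/-- Stable blocks, see `Combinatorics.Subspace.exists_mono_in_high_dimension_fin`. -/
theorem exists_blocks (M : ℕ) (κ : Type) [Finite κ] :
    ∃ n : ℕ, ∀ c : Finset ℕ → Finset ℕ → κ, ∃ E : ℕ → Finset ℕ,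
      (∀ i < M, (E i).Nonempty ∧ E i ⊆ range n) ∧
      (∀ i j, i < j → j < M → Disjoint (E i) (E j) ∧ ∃ x ∈ E i, ∀ y ∈ E j, x < y) ∧
      ∀ s ≤ M, ∀ I J : Finset ℕ, I ⊆ range M → J ⊆ range M → GP (I ∩ range s) (J ∩ range s) →
        c (I.biUnion E) (J.biUnion E) =
          c ((I ∩ range s).biUnion E) ((J ∩ range s).biUnion E) := by
  classical
  obtain ⟨N, hN⟩ := blocks_aux κ M 0
  refine ⟨N, fun c => ?_⟩
  obtain ⟨g, _, gb, gc, gd⟩ := hN c
  simp only [zero_add] at gb gc gd
  have hun : ∀ I : Finset ℕ, I.biUnion (fun i => pb N g {i}) = pb N g I := by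
    intro I
    ext k
    rw [mem_biUnion, mem_pb]
    constructor
    · rintro ⟨i, hi, hk⟩
      rw [mem_pb] at hk
      obtain ⟨hk1, j, hj, hkj⟩ := hk
      rw [mem_singleton] at hj
      subst hj
      exact ⟨hk1, j, hi, hkj⟩
    · rintro ⟨hk, i, hi, hki⟩
      exact ⟨i, hi, mem_pb.2 ⟨hk, i, mem_singleton_self i, hki⟩⟩
  refine ⟨fun i => pb N g {i}, ?_, ?_, ?_⟩
  · intro i hi
    obtain ⟨k, hk, hki, _⟩ := gc i hi
    refine ⟨⟨k, mem_pb.2 ⟨hk, i, mem_singleton_self i, hki⟩⟩, fun x hx => ?_⟩
    exact mem_range.2 (mem_pb.1 hx).1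
  · intro i j hij hj
    constructor
    · rw [disjoint_left]
      intro k hk hk'
      obtain ⟨_, a, ha, hka⟩ := mem_pb.1 hk
      obtain ⟨_, b, hb, hkb⟩ := mem_pb.1 hk'
      rw [mem_singleton] at ha hb
      subst ha; subst hb
      rw [hka] at hkb
      exact hij.ne (Option.some.inj hkb)
    · obtain ⟨k, hk, hki, hkm⟩ := gc i (hij.trans hj)
      refine ⟨k, mem_pb.2 ⟨hk, i, mem_singleton_self i, hki⟩, fun y hy => ?_⟩
      obtain ⟨_, b, hb, hyb⟩ := mem_pb.1 hy
      rw [mem_singleton] at hb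
      subst hb
      by_contra hlt
      push Not at hlt
      exact absurd (hkm y hlt b hyb) (not_le.2 hij)
  · intro s hs I J hI hJ hGP
    rw [hun, hun, hun, hun]
    exact gd s (Nat.zero_le _) hs I J hI hJ hGP

end Pool.Agent.Rebel
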