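import Pool.Agent.Rebel.Realise

/-! # Realisation of the Boolean lattice -/

set_option autoImplicit false

open Finset

namespace Pool.Agent.Rebel

/-- binary code of a finite set -/
def bcode (A : Finset ℕ) : ℕ := ∑ i ∈ A, 2 ^ i

/-- finite set with a given binary code -/
def bset (k : ℕ) : Finset ℕ := k.bitIndices.toFinset

theorem bset_bcode (A : Finset ℕ) : bset (bcode A) = A :=
  Finset.toFinset_bitIndices_sum_two_pow A

theorem bcode_bset (k : ℕ) : bcode (bset k) = k :=
  Finset.sum_toFinset_bitIndices_two_pow k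

theorem bcode_lt {A B : Finset ℕ} (h : A ⊂ B) : bcode A < bcode B := by
  obtain ⟨h1, x, hx, hxA⟩ := Finset.ssubset_iff_exists_cons_subset.mp h |> fun _ =>
    (⟨h.1, Finset.exists_of_ssubset h⟩ : A ⊆ B ∧ ∃ x ∈ B, x ∉ A)
  exact Finset.sum_lt_sum_of_subset h1 hx hxA (by positivity) (fun _ _ _ => Nat.zero_le _)

theorem bcode_lt_two_pow {n : ℕ} {A : Finset ℕ} (h : A ⊆ range n) : bcode A < 2 ^ n :=
  Nat.geomSum_lt le_rfl fun _ hk => mem_range.mp (h hk)

/-- the least element, `0` for the empty set -/
def bmin (A : Finset ℕ) : ℕ := if h : A.Nonempty then A.min' h else 0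

/-- Realisation of the poset of nonempty subsets of `range n`. -/
theorem exists_boolean (n : ℕ) {m : ℕ} (S : Fin m → Fin m → Prop) (hS : IsTour S) :
    ∃ K : ℕ, ∀ (V : Type) [Fintype V] (adj : V → V → Prop), IsTour adj → ¬ Copy S adj →
      (∀ X : Finset V, X.card ≤ K → ∃ v, ∀ x ∈ X, adj v x) →
      ∃ z : Finset ℕ → V,
        (∀ A B : Finset ℕ, A.Nonempty → A ⊂ B → B ⊆ range n → adj (z B) (z A)) ∧
        ∀ A B : Finset ℕ, A.Nonempty → A ⊆ range n → B ⊆ range n → Disjoint A B →
          (∃ y ∈ B, ∀ x ∈ A, y < x) → adj (z A) (z B) := by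
  rcases Nat.lt_or_ge n 2 with hn | hn
  · refine ⟨0, fun V _ adj _ _ hdom => ?_⟩
    obtain ⟨v, -⟩ := hdom ∅ (by simp)
    refine ⟨fun _ => v, fun A B hA hAB hB => ?_, fun A B hA hAn hB hd hy => ?_⟩
    · exfalso
      have h1 := Finset.card_lt_card hAB
      have h2 := Finset.card_le_card hB
      have h3 := hA.card_pos
      simp at h2
      omega
    · exfalso
      obtain ⟨y, hyB, hy⟩ := hy
      obtain ⟨x, hx⟩ := hA
      have h1 := hy x hx
      have h2 := mem_range.mp (hAn hx)
      omega
  · set lt : Fin (2 ^ n) → Fin (2 ^ n) → Prop :=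
      fun s t => (bset s).Nonempty ∧ bset s ⊂ bset t with hltd
    have hlt : ∀ s t, lt s t → s < t := by
      intro s t h
      have h1 := bcode_lt h.2
      rw [bcode_bset, bcode_bset] at h1
      exact h1
    have htr : ∀ s t u, lt s t → lt t u → lt s u := fun s t u h1 h2 =>
      ⟨h1.1, h1.2.trans h2.2⟩
    have hidx : ∀ A : Finset ℕ, A ⊆ range n → ∃ s : Fin (2 ^ n), (s : ℕ) = bcode A :=
      fun A hA => ⟨⟨bcode A, bcode_lt_two_pow hA⟩, rfl⟩
    have hne : ∃ s t, lt s t := by
      obtain ⟨s, hs⟩ := hidx {0} (by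
        intro x hx
        simp only [mem_singleton] at hx
        simp only [mem_range]; omega)
      obtain ⟨t, ht⟩ := hidx {0, 1} (by
        intro x hx
        simp only [mem_insert, mem_singleton] at hx
        simp only [mem_range]; omega)
      refine ⟨s, t, ?_, ?_⟩
      · rw [hs, bset_bcode]; exact ⟨0, by simp⟩
      · rw [hs, ht, bset_bcode, bset_bcode]
        refine (Finset.ssubset_iff_of_subset (by intro x; simp; tauto)).mpr ⟨1, by simp, by simp⟩
    have hlevlt : ∀ s : Fin (2 ^ n), n - 1 - bmin (bset s) < n := fun s => by omega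
    obtain ⟨K, hK⟩ := exists_realisation lt hlt htr hne
      (fun s => (⟨n - 1 - bmin (bset s), hlevlt s⟩ : Fin n)) S hS
    refine ⟨K, fun V _ adj hadj hcopy hdom => ?_⟩
    obtain ⟨z, hz1, hz2⟩ := hK V adj hadj hcopy hdom
    have hpos : 0 < 2 ^ n := by positivity
    refine ⟨fun A => if h : bcode A < 2 ^ n then z ⟨bcode A, h⟩ else z ⟨0, hpos⟩,
      fun A B hA hAB hB => ?_, fun A B hA hAn hB hd hy => ?_⟩
    · have hA' : bcode A < 2 ^ n := bcode_lt_two_pow (hAB.1.trans hB)
      have hB' : bcode B < 2 ^ n := bcode_lt_two_pow hB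
      simp only [hA', hB', dif_pos]
      apply hz1
      refine ⟨?_, ?_⟩
      · simp only [bset_bcode]; exact hA
      · simp only [bset_bcode]; exact hAB
    · have hA' : bcode A < 2 ^ n := bcode_lt_two_pow hAn
      have hB' : bcode B < 2 ^ n := bcode_lt_two_pow hB
      simp only [hA', hB', dif_pos]
      apply hz2
      · rintro u ⟨hu1, hu2⟩
        have hne' : (bset u).Nonempty := by
          rcases hu1 with h | h
          · rw [h]; simp only [bset_bcode]; exact hA
          · exact h.1
        have h1 : bset u ⊆ A := by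
          rcases hu1 with h | h
          · rw [h]; simp only [bset_bcode]; exact subset_rfl
          · have := h.2.1
            simp only [bset_bcode] at this
            exact this
        have h2 : bset u ⊆ B := by
          rcases hu2 with h | h
          · rw [h]; simp only [bset_bcode]; exact subset_rfl
          · have := h.2.1
            simp only [bset_bcode] at this
            exact this
        obtain ⟨x, hx⟩ := hne'
        exact Finset.disjoint_left.mp hd (h1 hx) (h2 hx)
      · obtain ⟨y, hyB, hy⟩ := hy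
        have hBne : B.Nonempty := ⟨y, hyB⟩
        have h1 : bmin (bset (bcode A)) = A.min' hA := by
          rw [bset_bcode]; simp [bmin, hA]
        have h2 : bmin (bset (bcode B)) = B.min' hBne := by
          rw [bset_bcode]; simp [bmin, hBne]
        have h3 : B.min' hBne ≤ y := Finset.min'_le _ _ hyB
        have h4 : y < A.min' hA := hy _ (Finset.min'_mem _ _)
        have h5 : A.min' hA < n := mem_range.mp (hAn (Finset.min'_mem _ _))
        rw [Fin.mk_lt_mk, h1, h2]
        omega

end Pool.Agent.Rebel
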