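import Pool.Agent.Rebel.Defs

/-! # Case A: all pairs `gs`: the poset embeds directly -/

set_option autoImplicit false

open Finset

namespace Pool.Agent.Rebel

namespace CaseA

variable {a : Finset ℕ → Finset ℕ → Prop}

lemma n_mono (q : Seq a) {i k : ℕ} (h : i ≤ k) : (q.s i).n ≤ (q.s k).n := by
  induction k, h using Nat.le_induction with
  | base => exact le_rfl
  | succ k hk ih => exact ih.trans (q.ext k).1

/-- a state is the part below `n` of the later states -/
lemma mem_iff (q : Seq a) {i k : ℕ} (h : i ≤ k) (l y : ℕ) :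
    y ∈ (q.s i).C l ↔ y ∈ (q.s k).C l ∧ y < (q.s i).n := by
  induction k, h using Nat.le_induction with
  | base => exact ⟨fun hy => ⟨hy, (q.valid i).near l y hy⟩, fun hy => hy.1⟩
  | succ k hk ih =>
    rw [ih]
    obtain ⟨X, hX, e⟩ := (q.ext k).2 l
    rw [e, mem_union]
    constructor
    · rintro ⟨h1, h2⟩
      exact ⟨Or.inl h1, h2⟩
    · rintro ⟨h1 | h1, h2⟩
      · exact ⟨h1, h2⟩
      · have := hX y h1
        have := n_mono q hk
        omega

lemma mem_B (s : St) {m : ℕ} (j : Fin m → ℕ) (K : Finset (Fin m)) (y : ℕ) :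
    y ∈ s.B (K.image j) ↔ ∃ l ∈ K, y ∈ s.C (j l) := by
  simp [St.B]

lemma lt_of_mem (q : Seq a) {i l y : ℕ} (h : y ∈ (q.s i).C l) : l < i := by
  by_contra hcon
  push Not at hcon
  rw [(q.valid i).empty l hcon] at h
  simp at h

end CaseA

open CaseA in
/-- `A i` = union of `C (j l)` over `l = i` or (`i < l` and `S i l`), in the state `q.s (last + 1)`.
`i < l`, `S i l`: `A l ⊂ A i`, use `sub`.  `i < l`, not `S i l`: if `A i`, `A l` are disjoint use
`disj`; otherwise the first common element is `q.x (j r)` for the least `r` with both index sets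
containing `r`; before it the state extends the `gs` state `(C (j l), B K)`,
`K = {j u : u < l, u in the index set of A i}`, so `tau` holds, `good` gives `a`, and `stable` keeps
it. -/
theorem caseA {a : Finset ℕ → Finset ℕ → Prop} (ha : InfRel a) (q : Seq a) {m : ℕ}
    (S : Fin m → Fin m → Prop)
    (htr : ∀ i j k : Fin m, i < j → j < k → S i j → S j k → S i k)
    (j : Fin m → ℕ) (hj : StrictMono j)
    (hc : ∀ t : Fin m, ∀ K : Finset (Fin m), K.Nonempty → (∀ s ∈ K, s < t) →
      q.col (K.image j) (j t)) : Emb a S := by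
  classical
  obtain ⟨N, hN⟩ : ∃ N, ∀ t, j t < N :=
    ⟨univ.sup j + 1, fun t => Nat.lt_succ_of_le (le_sup (f := j) (mem_univ t))⟩
  set idx : Fin m → Finset (Fin m) := fun i => univ.filter (fun l => l = i ∨ (i < l ∧ S i l))
    with hidx_def
  have hidx : ∀ i l, l ∈ idx i ↔ l = i ∨ (i < l ∧ S i l) := by
    intro i l; simp [hidx_def]
  have hidx_le : ∀ i l, l ∈ idx i → i ≤ l := by
    intro i l h
    rcases (hidx i l).1 h with h | h
    · exact h ▸ le_rfl
    · exact h.1.le
  have hself : ∀ i, i ∈ idx i := fun i => (hidx i i).2 (Or.inl rfl)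
  set A : Fin m → Finset ℕ := fun i => (q.s N).B ((idx i).image j) with hA_def
  have hA : ∀ i y, y ∈ A i ↔ ∃ l ∈ idx i, y ∈ (q.s N).C (j l) := by
    intro i y
    exact mem_B _ _ _ _
  have hdis : ∀ (M : ℕ) (l l' : Fin m) (y : ℕ), y ∈ (q.s M).C (j l) → y ∈ (q.s M).C (j l') →
      l = l' := by
    intro M l l' y h1 h2
    by_contra hne
    exact Finset.disjoint_left.1 ((q.valid M).disj _ _ (hj.injective.ne hne)) h1 h2
  have hCne : ∀ l, ((q.s N).C (j l)).Nonempty := fun l => (q.valid N).ne _ (hN l)
  have hne : ∀ i, (A i).Nonempty := by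
    intro i
    obtain ⟨y, hy⟩ := hCne i
    exact ⟨y, (hA i y).2 ⟨i, hself i, hy⟩⟩
  refine ⟨A, fun i k hik => ⟨?_, ?_⟩⟩
  · intro hS
    apply ha.sub _ _ (hne k)
    have hsub : A k ⊆ A i := by
      intro y hy
      obtain ⟨l, hl, hyl⟩ := (hA k y).1 hy
      refine (hA i y).2 ⟨l, (hidx i l).2 (Or.inr ?_), hyl⟩
      rcases (hidx k l).1 hl with h | h
      · subst h
        exact ⟨hik, hS⟩
      · exact ⟨hik.trans h.1, htr i k l hik h.1 hS h.2⟩
    obtain ⟨y, hy⟩ := hCne i
    rw [Finset.ssubset_iff_of_subset hsub]
    refine ⟨y, (hA i y).2 ⟨i, hself i, hy⟩, ?_⟩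
    intro hy'
    obtain ⟨l, hl, hyl⟩ := (hA k y).1 hy'
    have h1 := hdis N i l y hy hyl
    have h2 := hidx_le k l hl
    rw [← h1] at h2
    exact absurd hik (not_lt.2 h2)
  · intro hS
    have hki : k ∉ idx i := by
      intro h
      rcases (hidx i k).1 h with h | h
      · exact hik.ne' h
      · exact hS h.2
    by_cases hint : ∃ r, r ∈ idx i ∧ r ∈ idx k
    · -- the least common index
      have hfil : (univ.filter (fun r => r ∈ idx i ∧ r ∈ idx k)).Nonempty := by
        obtain ⟨r, hr⟩ := hint
        exact ⟨r, by simpa using hr⟩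
      obtain ⟨r, hr, hmin⟩ := Finset.exists_min_image _ (fun r : Fin m => r) hfil
      simp only [mem_filter, mem_univ, true_and] at hr hmin
      have hkr : k < r := by
        rcases lt_or_eq_of_le (hidx_le k r hr.2) with h | h
        · exact h
        · exact absurd (h ▸ hr.1) hki
      have hir : i < r := hik.trans hkr
      set Ui := (idx i).filter (fun l => l < r) with hUi
      set Uk := (idx k).filter (fun l => l < r) with hUk
      set Pi := (q.s (j r)).B (Ui.image j) with hPi
      set Pk := (q.s (j r)).B (Uk.image j) with hPk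
      have hPim : ∀ y, y ∈ Pi ↔ ∃ l ∈ Ui, y ∈ (q.s (j r)).C (j l) := fun y => mem_B _ _ _ _
      have hPkm : ∀ y, y ∈ Pk ↔ ∃ l ∈ Uk, y ∈ (q.s (j r)).C (j l) := fun y => mem_B _ _ _ _
      have hUdis : ∀ l, l ∈ Ui → l ∈ Uk → False := by
        intro l h1 h2
        rw [hUi, mem_filter] at h1
        rw [hUk, mem_filter] at h2
        exact absurd h1.2 (not_lt.2 (hmin l ⟨h1.1, h2.1⟩))
      have hPdis : Disjoint Pk Pi := by
        rw [Finset.disjoint_left]
        intro y h1 h2
        obtain ⟨l, hl, hyl⟩ := (hPkm y).1 h1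
        obtain ⟨l', hl', hyl'⟩ := (hPim y).1 h2
        have := hdis _ _ _ _ hyl hyl'
        subst this
        exact hUdis l hl' hl
      -- the gs state
      set i0 := j k + 1 with hi0
      have hi0r : i0 ≤ j r := hj hkr
      set K := (idx i).filter (fun l => l < k) with hK
      have hgs := hc k K ⟨i, by rw [hK, mem_filter]; exact ⟨hself i, hik⟩⟩ (by
        intro s hs
        rw [hK, mem_filter] at hs
        exact hs.2)
      unfold Seq.col at hgs
      rw [← hi0] at hgs
      have htau := hgs (Pk.filter (fun y => (q.s i0).n ≤ y)) (Pi.filter (fun y => (q.s i0).n ≤ y))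
        (fun y hy => (mem_filter.1 hy).2) (fun y hy => (mem_filter.1 hy).2) (by
          exact Finset.disjoint_of_subset_left (filter_subset _ _)
            (Finset.disjoint_of_subset_right (filter_subset _ _) hPdis))
      have e1 : (q.s i0).C (j k) ∪ Pk.filter (fun y => (q.s i0).n ≤ y) = Pk := by
        ext y
        rw [mem_union, mem_filter]
        constructor
        · rintro (h | h)
          · rw [mem_iff q hi0r] at h
            rw [hPkm]
            exact ⟨k, by rw [hUk, mem_filter]; exact ⟨hself k, hkr⟩, h.1⟩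
          · exact h.1
        · intro h
          rcases Nat.lt_or_ge y (q.s i0).n with h' | h'
          · left
            obtain ⟨l, hl, hyl⟩ := (hPkm y).1 h
            have h1 : y ∈ (q.s i0).C (j l) := (mem_iff q hi0r _ _).2 ⟨hyl, h'⟩
            have h2 := lt_of_mem q h1
            have h3 : l ≤ k := hj.le_iff_le.1 (by omega)
            rw [hUk, mem_filter] at hl
            have h4 := le_antisymm h3 (hidx_le k l hl.1)
            rw [← h4]; exact h1
          · right; exact ⟨h, h'⟩
      have e2 : (q.s i0).B (K.image j) ∪ Pi.filter (fun y => (q.s i0).n ≤ y) = Pi := by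
        ext y
        rw [mem_union, mem_filter, mem_B]
        constructor
        · rintro (⟨l, hl, h⟩ | h)
          · rw [mem_iff q hi0r] at h
            rw [hPim]
            rw [hK, mem_filter] at hl
            exact ⟨l, by rw [hUi, mem_filter]; exact ⟨hl.1, hl.2.trans hkr⟩, h.1⟩
          · exact h.1
        · intro h
          rcases Nat.lt_or_ge y (q.s i0).n with h' | h'
          · left
            obtain ⟨l, hl, hyl⟩ := (hPim y).1 h
            have h1 : y ∈ (q.s i0).C (j l) := (mem_iff q hi0r _ _).2 ⟨hyl, h'⟩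
            have h2 := lt_of_mem q h1
            have h3 : l ≤ k := hj.le_iff_le.1 (by omega)
            rw [hUi, mem_filter] at hl
            have h4 : l < k := by
              rcases lt_or_eq_of_le h3 with h | h
              · exact h
              · exact absurd (h ▸ hl.1) hki
            exact ⟨l, by rw [hK, mem_filter]; exact ⟨hl.1, h4⟩, h1⟩
          · right; exact ⟨h, h'⟩
      rw [e1, e2] at htau
      have hUsub : ∀ U : Finset (Fin m), (∀ l ∈ U, l < r) → U.image j ⊆ range (j r) := by
        intro U hU y hy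
        obtain ⟨l, hl, rfl⟩ := mem_image.1 hy
        exact mem_range.2 (hj (hU l hl))
      have hgood := q.good (j r) (Uk.image j) (Ui.image j)
        (hUsub _ (fun l hl => by rw [hUk, mem_filter] at hl; exact hl.2))
        (hUsub _ (fun l hl => by rw [hUi, mem_filter] at hl; exact hl.2)) (by
          rw [Finset.disjoint_left]
          intro y h1 h2
          obtain ⟨l, hl, rfl⟩ := mem_image.1 h1
          obtain ⟨l', hl', e⟩ := mem_image.1 h2
          have := hj.injective e
          subst this
          exact hUdis _ hl' hl) htau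
      -- the final state
      set x := q.x (j r) with hx
      have hxn : (q.s (j r)).n ≤ x := q.x_far (j r)
      have hx1 : x ∈ (q.s (j r + 1)).C (j r) := q.x_mem (j r)
      have hxn1 : x < (q.s (j r + 1)).n := (q.valid (j r + 1)).near _ _ hx1
      have hrN : j r + 1 ≤ N := hN r
      have hxF : x ∈ (q.s N).C (j r) := ((mem_iff q hrN _ _).1 hx1).1
      have hgen : ∀ (l₀ : Fin m), r ∈ idx l₀ →
          A l₀ = insert x ((q.s (j r)).B (((idx l₀).filter (fun l => l < r)).image j)) ∪
            (A l₀).filter (fun y => x + 1 ≤ y) := by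
        intro l₀ hr₀
        ext y
        rw [mem_union, mem_filter, mem_insert, mem_B (q.s (j r))]
        constructor
        · intro h
          rcases Nat.lt_or_ge x y with h' | h'
          · right; exact ⟨h, h'⟩
          · left
            obtain ⟨l, hl, hyl⟩ := (hA l₀ y).1 h
            rcases Nat.lt_or_ge y (q.s (j r)).n with h2 | h2
            · right
              have h3 : y ∈ (q.s (j r)).C (j l) := (mem_iff q (by omega) _ _).2 ⟨hyl, h2⟩
              have h4 := lt_of_mem q h3
              exact ⟨l, mem_filter.2 ⟨hl, hj.lt_iff_lt.1 h4⟩, h3⟩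
            · left
              have h3 : y ∈ (q.s (j r + 1)).C (j l) := (mem_iff q hrN _ _).2 ⟨hyl, by omega⟩
              rcases q.x_first (j r) _ y h3 h2 with h4 | h4
              · exact h4.1
              · exact absurd h4 (not_lt.2 h')
        · rintro ((h | ⟨l, hl, h⟩) | h)
          · rw [h, hA]
            exact ⟨r, hr₀, hxF⟩
          · rw [hA]
            rw [mem_filter] at hl
            exact ⟨l, hl.1, ((mem_iff q (by omega) _ _).1 h).1⟩
          · exact h.1
      have hPlt : ∀ (U : Finset (Fin m)), ∀ y ∈ (q.s (j r)).B (U.image j), y < x := by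
        intro U y hy
        rw [mem_B] at hy
        obtain ⟨l, hl, h⟩ := hy
        have := (q.valid (j r)).near _ _ h
        omega
      obtain ⟨yk, hyk⟩ := (q.valid (j r)).ne (j k) (hj hkr)
      obtain ⟨yi, hyi⟩ := (q.valid (j r)).ne (j i) (hj hir)
      have hykP : yk ∈ Pk := (hPkm yk).2 ⟨k, by rw [hUk, mem_filter]; exact ⟨hself k, hkr⟩, hyk⟩
      have hyiP : yi ∈ Pi := (hPim yi).2 ⟨i, by rw [hUi, mem_filter]; exact ⟨hself i, hir⟩, hyi⟩
      have hstab := ha.stable (insert x Pk) (insert x Pi) ((A k).filter (fun y => x + 1 ≤ y))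
        ((A i).filter (fun y => x + 1 ≤ y)) (x + 1)
        ⟨⟨yk, mem_insert_of_mem hykP, by
            rw [mem_insert, not_or]
            exact ⟨(hPlt _ _ hykP).ne, Finset.disjoint_left.1 hPdis hykP⟩⟩,
          ⟨yi, by
            rw [mem_insert, not_or]
            exact ⟨(hPlt _ _ hyiP).ne, Finset.disjoint_right.1 hPdis hyiP⟩,
            mem_insert_of_mem hyiP⟩,
          ⟨x, mem_insert_self _ _, mem_insert_self _ _⟩⟩
        (by
          intro y hy
          rcases mem_insert.1 hy with h | h
          · omega
          · have := hPlt _ _ h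
            omega)
        (by
          intro y hy
          rcases mem_insert.1 hy with h | h
          · omega
          · have := hPlt _ _ h
            omega)
        (fun y hy => (mem_filter.1 hy).2) (fun y hy => (mem_filter.1 hy).2)
      rw [← hgen k hr.2, ← hgen i hr.1] at hstab
      exact hstab.2 hgood
    · -- disjoint index sets
      push Not at hint
      apply ha.disj _ _ (hne k) (hne i)
      · rw [Finset.disjoint_left]
        intro y h1 h2
        obtain ⟨l, hl, hyl⟩ := (hA k y).1 h1
        obtain ⟨l', hl', hyl'⟩ := (hA i y).1 h2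
        have := hdis _ _ _ _ hyl hyl'
        subst this
        exact hint l hl' hl
      · refine ⟨((q.s N).C (j i)).min' (hCne i),
          (hA i _).2 ⟨i, hself i, Finset.min'_mem _ _⟩, ?_⟩
        intro y hy
        obtain ⟨l, hl, hyl⟩ := (hA k y).1 hy
        have hil : i < l := hik.trans_le (hidx_le k l hl)
        obtain ⟨z, hz, hz'⟩ := (q.valid N).mins (j i) (j l) (hj hil) (hN l)
        exact lt_of_le_of_lt (Finset.min'_le _ _ hz) (hz' y hyl)

end Pool.Agent.Rebel
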