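import Pool.Agent.Rebel.Defs

/-! # Case B: all pairs `ad`: every tournament embeds as an intersection pattern -/

set_option autoImplicit false

open Finset

namespace Pool.Agent.Rebel

namespace CaseBAux

variable {a : Finset ℕ → Finset ℕ → Prop}

lemma Far.mono {n n' : ℕ} {X : Finset ℕ} (h : Far n' X) (hn : n ≤ n') : Far n X :=
  fun x hx => hn.trans (h x hx)

lemma Near.mono {n n' : ℕ} {X : Finset ℕ} (h : Near n X) (hn : n ≤ n') : Near n' X :=
  fun x hx => (h x hx).trans_le hn

lemma Far.union {n : ℕ} {X Y : Finset ℕ} (h : Far n X) (h' : Far n Y) : Far n (X ∪ Y) := by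
  intro x hx
  rcases Finset.mem_union.1 hx with hx | hx
  · exact h x hx
  · exact h' x hx

lemma Near.union {n : ℕ} {X Y : Finset ℕ} (h : Near n X) (h' : Near n Y) : Near n (X ∪ Y) := by
  intro x hx
  rcases Finset.mem_union.1 hx with hx | hx
  · exact h x hx
  · exact h' x hx

lemma disj_near_far {n : ℕ} {X Y : Finset ℕ} (h : Near n X) (h' : Far n Y) : Disjoint X Y := by
  rw [Finset.disjoint_left]
  intro x hx hy
  exact absurd (h x hx) (not_lt.2 (h' x hy))

/-- `ad` is inherited by extensions -/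
lemma ad_ext {I J X Y : Finset ℕ} {n n' : ℕ} (h : ad a I J n) (hX : Far n X) (hY : Far n Y)
    (hXY : Disjoint X Y) (hn : n ≤ n') (hX' : Near n' X) (hY' : Near n' Y) :
    ad a (I ∪ X) (J ∪ Y) n' := by
  intro X1 Y1 n1 h1 h2 h3 h4 h5 h6 hg
  refine h (X ∪ X1) (Y ∪ Y1) n1 (Far.union hX (Far.mono h1 hn)) (Far.union hY (Far.mono h2 hn))
    ?_ (hn.trans h4) (Near.union (Near.mono hX' h4) h5) (Near.union (Near.mono hY' h4) h6) ?_
  · rw [Finset.disjoint_union_left, Finset.disjoint_union_right, Finset.disjoint_union_right]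
    exact ⟨⟨hXY, disj_near_far hX' h2⟩, (disj_near_far hY' h1).symm, h3⟩
  · rw [← Finset.union_assoc, ← Finset.union_assoc]
    exact hg

/-- invariant of the construction; `P` is the set of processed pairs -/
structure Good (a : Finset ℕ → Finset ℕ → Prop) {m : ℕ} (P : Finset (Fin m × Fin m))
    (A : Fin m → Finset ℕ) (n : ℕ) : Prop where
  near : ∀ t, Near n (A t)
  ne : ∀ t, (A t).Nonempty
  mins : ∀ s t, s < t → ∃ x ∈ A s, ∀ y ∈ A t, x < y
  done : ∀ s t, s < t → (s, t) ∈ P → a (A s) (A t) ∧ GP (A s) (A t)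
  todo : ∀ s t, s < t → (s, t) ∉ P → Disjoint (A s) (A t) ∧ ad a (A t) (A s) n

lemma GP.ext {I J X Y : Finset ℕ} {n : ℕ} (h : GP I J) (hI : Near n I) (hJ : Near n J)
    (hX : Far n X) (hY : Far n Y) : GP (I ∪ X) (J ∪ Y) := by
  obtain ⟨⟨x, hx1, hx2⟩, ⟨y, hy1, hy2⟩, z, hz1, hz2⟩ := h
  refine ⟨⟨x, ?_, ?_⟩, ⟨y, ?_, ?_⟩, z, ?_, ?_⟩
  · exact Finset.mem_union_left _ hx1
  · rw [Finset.mem_union]
    rintro (h | h)
    · exact hx2 h
    · exact absurd (hI x hx1) (not_lt.2 (hY x h))
  · rw [Finset.mem_union]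
    rintro (h | h)
    · exact hy1 h
    · exact absurd (hJ y hy2) (not_lt.2 (hX y h))
  · exact Finset.mem_union_left _ hy2
  · exact Finset.mem_union_left _ hz1
  · exact Finset.mem_union_left _ hz2

/-- one step -/
lemma Good.step (ha : InfRel a) {m : ℕ} {P : Finset (Fin m × Fin m)}
    {A : Fin m → Finset ℕ} {n : ℕ} (h : Good a P A n) {s0 t0 : Fin m} (hst : s0 < t0)
    (hP : (s0, t0) ∉ P) : ∃ A' n', Good a (insert (s0, t0) P) A' n' := by
  obtain ⟨hdisj, had⟩ := h.todo s0 t0 hst hP
  have h1 : ¬ gs a (A t0) (A s0) n := by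
    have := had ∅ ∅ n (fun x hx => by simp at hx) (fun x hx => by simp at hx)
      (Finset.disjoint_empty_left _) le_rfl (fun x hx => by simp at hx) (fun x hx => by simp at hx)
    simpa using this
  unfold gs at h1
  push Not at h1
  obtain ⟨X, Y, hX, hY, hXY, htau⟩ := h1
  have h2 : ∀ᶠ x in (Filter.hyperfilter ℕ : Filter ℕ),
      ¬ a (insert x (A t0 ∪ X)) (insert x (A s0 ∪ Y)) := by
    unfold tau at htau
    exact Ultrafilter.eventually_not.2 htau
  have h3 : ∀ᶠ x in (Filter.hyperfilter ℕ : Filter ℕ), n ≤ x ∧ ∀ y ∈ X ∪ Y, y < x := by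
    have h4 : ∀ᶠ x in (Filter.atTop : Filter ℕ), n ≤ x ∧ ∀ y ∈ X ∪ Y, y < x := by
      refine Filter.eventually_atTop.2 ⟨n + (X ∪ Y).sup id + 1, fun x hx => ⟨by omega, ?_⟩⟩
      intro y hy
      have : y ≤ (X ∪ Y).sup id := Finset.le_sup (f := id) hy
      omega
    exact Nat.hyperfilter_le_atTop h4
  obtain ⟨x, hx1, hxn, hx2⟩ := (h2.and h3).exists
  -- the new sets
  let X' : Finset ℕ := insert x X
  let Y' : Finset ℕ := insert x Y
  have hX' : Far n X' := by
    intro y hy
    rcases Finset.mem_insert.1 hy with rfl | hy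
    · exact hxn
    · exact hX y hy
  have hY' : Far n Y' := by
    intro y hy
    rcases Finset.mem_insert.1 hy with rfl | hy
    · exact hxn
    · exact hY y hy
  have hNX : Near (x + 1) X' := by
    intro y hy
    rcases Finset.mem_insert.1 hy with rfl | hy
    · omega
    · have := hx2 y (Finset.mem_union_left _ hy); omega
  have hNY : Near (x + 1) Y' := by
    intro y hy
    rcases Finset.mem_insert.1 hy with rfl | hy
    · omega
    · have := hx2 y (Finset.mem_union_right _ hy); omega
  let D : Fin m → Finset ℕ := fun i => if i = t0 then X' else if i = s0 then Y' else ∅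
  have hs0t0 : s0 ≠ t0 := hst.ne
  have hDt : D t0 = X' := by simp [D]
  have hDs : D s0 = Y' := by simp [D, hs0t0]
  have hD0 : ∀ i, i ≠ t0 → i ≠ s0 → D i = ∅ := by
    intro i h1 h2
    simp [D, h1, h2]
  have hDfar : ∀ i, Far n (D i) := by
    intro i
    by_cases h1 : i = t0
    · subst h1; rw [hDt]; exact hX'
    by_cases h2 : i = s0
    · subst h2; rw [hDs]; exact hY'
    · rw [hD0 i h1 h2]; intro y hy; simp at hy
  have hDnear : ∀ i, Near (x + 1) (D i) := by
    intro i
    by_cases h1 : i = t0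
    · subst h1; rw [hDt]; exact hNX
    by_cases h2 : i = s0
    · subst h2; rw [hDs]; exact hNY
    · rw [hD0 i h1 h2]; intro y hy; simp at hy
  have hDd : ∀ s t, s < t → (s, t) ≠ (s0, t0) → D s = ∅ ∨ D t = ∅ := by
    intro s t hst' hne
    by_contra hcon
    push Not at hcon
    obtain ⟨e1, e2⟩ := hcon
    have f1 : s = t0 ∨ s = s0 := by
      by_contra hc
      push Not at hc
      exact e1.ne_empty (hD0 s hc.1 hc.2)
    have f2 : t = t0 ∨ t = s0 := by
      by_contra hc
      push Not at hc
      exact e2.ne_empty (hD0 t hc.1 hc.2)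
    rcases f1 with rfl | rfl <;> rcases f2 with rfl | rfl
    · exact lt_irrefl _ hst'
    · exact lt_asymm hst hst'
    · exact hne rfl
    · exact lt_irrefl _ hst'
  have hnx : n ≤ x + 1 := by omega
  refine ⟨fun i => A i ∪ D i, x + 1, ?_⟩
  refine ⟨?_, ?_, ?_, ?_, ?_⟩
  · intro t
    exact Near.union (Near.mono (h.near t) hnx) (hDnear t)
  · intro t
    exact (h.ne t).mono Finset.subset_union_left
  · intro s t hst'
    obtain ⟨y, hy, hy'⟩ := h.mins s t hst'
    refine ⟨y, Finset.mem_union_left _ hy, ?_⟩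
    intro z hz
    rcases Finset.mem_union.1 hz with hz | hz
    · exact hy' z hz
    · exact (h.near s y hy).trans_le (hDfar t z hz)
  · intro s t hst' hmem
    by_cases hc : (s, t) = (s0, t0)
    · obtain ⟨rfl, rfl⟩ := Prod.mk.inj hc
      simp only [hDs, hDt]
      have e1 : A t ∪ X' = insert x (A t ∪ X) := by
        simp only [X', Finset.union_insert]
      have e2 : A s ∪ Y' = insert x (A s ∪ Y) := by
        simp only [Y', Finset.union_insert]
      have hgp : GP (insert x (A s ∪ Y)) (insert x (A t ∪ X)) := by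
        obtain ⟨u, hu⟩ := h.ne s
        obtain ⟨v, hv⟩ := h.ne t
        have hun := h.near s u hu
        have hvn := h.near t v hv
        refine ⟨⟨u, ?_, ?_⟩, ⟨v, ?_, ?_⟩, x, ?_, ?_⟩
        · exact Finset.mem_insert_of_mem (Finset.mem_union_left _ hu)
        · rw [Finset.mem_insert, Finset.mem_union]
          rintro (e | e | e)
          · omega
          · exact (Finset.disjoint_left.1 hdisj) hu e
          · have := hX u e; omega
        · rw [Finset.mem_insert, Finset.mem_union]
          rintro (e | e | e)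
          · omega
          · exact (Finset.disjoint_left.1 hdisj) e hv
          · have := hY v e; omega
        · exact Finset.mem_insert_of_mem (Finset.mem_union_left _ hv)
        · exact Finset.mem_insert_self _ _
        · exact Finset.mem_insert_self _ _
      rw [e1, e2]
      refine ⟨?_, hgp⟩
      rcases ha.total _ _ hgp with h5 | h5
      · exact h5
      · exact absurd h5 hx1
    · have hmem' : (s, t) ∈ P := by
        rcases Finset.mem_insert.1 hmem with h5 | h5
        · exact absurd h5 hc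
        · exact h5
      obtain ⟨h5, h6⟩ := h.done s t hst' hmem'
      refine ⟨?_, GP.ext h6 (h.near s) (h.near t) (hDfar s) (hDfar t)⟩
      exact (ha.stable (A s) (A t) (D s) (D t) n h6 (h.near s) (h.near t) (hDfar s)
        (hDfar t)).2 h5
  · intro s t hst' hmem
    have hc : (s, t) ≠ (s0, t0) := fun e => hmem (by rw [e]; exact Finset.mem_insert_self _ _)
    have hmem' : (s, t) ∉ P := fun e => hmem (Finset.mem_insert_of_mem e)
    obtain ⟨h5, h6⟩ := h.todo s t hst' hmem'
    have hDD : Disjoint (D s) (D t) := by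
      rcases hDd s t hst' hc with e | e
      · rw [e]; exact Finset.disjoint_empty_left _
      · rw [e]; exact Finset.disjoint_empty_right _
    refine ⟨?_, ad_ext h6 (hDfar t) (hDfar s) hDD.symm hnx (hDnear t) (hDnear s)⟩
    rw [Finset.disjoint_union_left, Finset.disjoint_union_right, Finset.disjoint_union_right]
    exact ⟨⟨h5, disj_near_far (h.near s) (hDfar t)⟩,
      (disj_near_far (h.near t) (hDfar s)).symm, hDD⟩

lemma Good.all (ha : InfRel a) {m : ℕ} {A : Fin m → Finset ℕ} {n : ℕ} (h : Good a ∅ A n)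
    (P : Finset (Fin m × Fin m)) : ∃ A' n', Good a P A' n' := by
  induction P using Finset.induction_on with
  | empty => exact ⟨A, n, h⟩
  | insert st P hst ih =>
    obtain ⟨A', n', h'⟩ := ih
    obtain ⟨s0, t0⟩ := st
    by_cases hlt : s0 < t0
    · exact h'.step ha hlt hst
    · refine ⟨A', n', h'.near, h'.ne, h'.mins, ?_, ?_⟩
      · intro s t hst' hmem
        refine h'.done s t hst' ?_
        rcases Finset.mem_insert.1 hmem with h5 | h5
        · obtain ⟨rfl, rfl⟩ := Prod.mk.inj h5
          exact absurd hst' hlt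
        · exact h5
      · intro s t hst' hmem
        exact h'.todo s t hst' fun e => hmem (Finset.mem_insert_of_mem e)

lemma seq_ext (q : Seq a) {j j' : ℕ} (h : j ≤ j') :
    (q.s j).n ≤ (q.s j').n ∧ ∀ i, ∃ X, Far (q.s j).n X ∧ (q.s j').C i = (q.s j).C i ∪ X := by
  induction j', h using Nat.le_induction with
  | base => exact ⟨le_rfl, fun i => ⟨∅, fun x hx => by simp at hx, by simp⟩⟩
  | succ k hk ih =>
    obtain ⟨h1, h2⟩ := ih
    obtain ⟨h3, h4⟩ := q.ext k
    refine ⟨h1.trans h3, fun i => ?_⟩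
    obtain ⟨X, hX, e⟩ := h2 i
    obtain ⟨Y, hY, e'⟩ := h4 i
    exact ⟨X ∪ Y, Far.union hX (Far.mono hY h1), by rw [e', e, Finset.union_assoc]⟩

end CaseBAux

open CaseBAux

/-- Start with `A t = B (W t)` in the state `q.s (last + 1)`; all pairs `(A t, A s)`, `s < t`, are
`ad` at this time.  For the pairs `s < t` with `S s t`, one after the other: the state is not `gs`,
so there are `X`, `Y` with not `tau (A t ∪ X) (A s ∪ Y)`, hence for most `x` not
`a (insert x (A t ∪ X)) (insert x (A s ∪ Y))`, hence `a` the other way round by `total`; add `X`, `Y`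
and a large such `x` to `A t`, `A s`; `stable` keeps `a (A s) (A t)` for ever.  All other pairs stay
disjoint and the minima stay increasing: `disj`. -/
theorem caseB {a : Finset ℕ → Finset ℕ → Prop} (ha : InfRel a) (q : Seq a) {m : ℕ}
    (S : Fin m → Fin m → Prop)
    (W : Fin m → Finset ℕ) (p : Fin m → ℕ) (hp : ∀ t, p t ∈ W t ∧ ∀ y ∈ W t, p t ≤ y)
    (hW : ∀ s t : Fin m, s < t → (∀ x ∈ W s, x < p t) ∧ ¬ q.col (W s) (p t)) : Emb a S := by
  classical
  let N : ℕ := (Finset.univ.sup fun t => (W t).sup id) + 1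
  have hN : ∀ t, ∀ i ∈ W t, i < N := by
    intro t i hi
    have h1 : i ≤ (W t).sup id := Finset.le_sup (f := id) hi
    have h2 : (W t).sup id ≤ Finset.univ.sup fun t => (W t).sup id :=
      Finset.le_sup (f := fun t => (W t).sup id) (Finset.mem_univ t)
    omega
  let A : Fin m → Finset ℕ := fun t => (q.s N).B (W t)
  have hv := q.valid N
  have hmem : ∀ t y, y ∈ A t ↔ ∃ i ∈ W t, y ∈ (q.s N).C i := by
    intro t y
    simp [A, St.B]
  have hnear : ∀ t, Near (q.s N).n (A t) := by
    intro t y hy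
    obtain ⟨i, -, hi⟩ := (hmem t y).1 hy
    exact hv.near i y hi
  have hdisj : ∀ s t, s < t → Disjoint (A s) (A t) := by
    intro s t hst
    rw [Finset.disjoint_left]
    intro y hy hy'
    obtain ⟨i, hi, h1⟩ := (hmem s y).1 hy
    obtain ⟨i', hi', h2⟩ := (hmem t y).1 hy'
    have h3 : i ≠ i' := by
      have := (hW s t hst).1 i hi
      have := (hp t).2 i' hi'
      omega
    exact (Finset.disjoint_left.1 (hv.disj i i' h3)) h1 h2
  have hgood : Good a ∅ A (q.s N).n := by
    refine ⟨hnear, ?_, ?_, ?_, ?_⟩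
    · intro t
      obtain ⟨y, hy⟩ := hv.ne (p t) (hN t _ (hp t).1)
      exact ⟨y, (hmem t y).2 ⟨p t, (hp t).1, hy⟩⟩
    · intro s t hst
      have hne := hv.ne (p s) (hN s _ (hp s).1)
      refine ⟨((q.s N).C (p s)).min' hne, (hmem s _).2 ⟨p s, (hp s).1, Finset.min'_mem _ _⟩, ?_⟩
      intro y hy
      obtain ⟨i, hi, h1⟩ := (hmem t y).1 hy
      have h2 : p s < i := by
        have := (hW s t hst).1 _ (hp s).1
        have := (hp t).2 i hi
        omega
      obtain ⟨x, hx, hx'⟩ := hv.mins (p s) i h2 (hN t i hi)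
      exact (Finset.min'_le _ _ hx).trans_lt (hx' y h1)
    · intro s t _ h
      simp at h
    · intro s t hst _
      refine ⟨hdisj s t hst, ?_⟩
      have hjN : p t + 1 ≤ N := hN t _ (hp t).1
      obtain ⟨hle, hext⟩ := seq_ext q hjN
      have hvj := q.valid (p t + 1)
      have had : ad a ((q.s (p t + 1)).C (p t)) ((q.s (p t + 1)).B (W s)) (q.s (p t + 1)).n := by
        rcases q.dec (p t) (W s) (fun x hx => Finset.mem_range.2 ((hW s t hst).1 x hx))
          ⟨p s, (hp s).1⟩ with h | h
        · exact absurd h (hW s t hst).2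
        · exact h
      have hsub1 : (q.s (p t + 1)).C (p t) ⊆ A t := by
        intro y hy
        obtain ⟨X, -, e⟩ := hext (p t)
        exact (hmem t y).2 ⟨p t, (hp t).1, by rw [e]; exact Finset.mem_union_left _ hy⟩
      have hsub2 : (q.s (p t + 1)).B (W s) ⊆ A s := by
        intro y hy
        obtain ⟨i, hi, h1⟩ := Finset.mem_biUnion.1 hy
        obtain ⟨X, -, e⟩ := hext i
        exact (hmem s y).2 ⟨i, hi, by rw [e]; exact Finset.mem_union_left _ h1⟩
      have hfar1 : Far (q.s (p t + 1)).n (A t \ (q.s (p t + 1)).C (p t)) := by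
        intro y hy
        obtain ⟨hy1, hy2⟩ := Finset.mem_sdiff.1 hy
        obtain ⟨i, hi, h1⟩ := (hmem t y).1 hy1
        obtain ⟨X, hX, e⟩ := hext i
        rw [e] at h1
        rcases Finset.mem_union.1 h1 with h1 | h1
        · by_cases hip : i = p t
          · subst hip
            exact absurd h1 hy2
          · have : p t ≤ i := (hp t).2 i hi
            rw [hvj.empty i (by omega)] at h1
            simp at h1
        · exact hX y h1
      have hfar2 : Far (q.s (p t + 1)).n (A s \ (q.s (p t + 1)).B (W s)) := by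
        intro y hy
        obtain ⟨hy1, hy2⟩ := Finset.mem_sdiff.1 hy
        obtain ⟨i, hi, h1⟩ := (hmem s y).1 hy1
        obtain ⟨X, hX, e⟩ := hext i
        rw [e] at h1
        rcases Finset.mem_union.1 h1 with h1 | h1
        · exact absurd (Finset.mem_biUnion.2 ⟨i, hi, h1⟩) hy2
        · exact hX y h1
      have := ad_ext had hfar1 hfar2
        ((hdisj s t hst).symm.mono Finset.sdiff_subset Finset.sdiff_subset) hle
        (fun y hy => hnear t y (Finset.sdiff_subset hy))
        (fun y hy => hnear s y (Finset.sdiff_subset hy))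
      rw [Finset.union_sdiff_of_subset hsub1, Finset.union_sdiff_of_subset hsub2] at this
      exact this
  obtain ⟨A', n', h'⟩ := hgood.all ha (Finset.univ.filter fun st => S st.1 st.2)
  refine ⟨A', fun i j hij => ⟨fun hS => ?_, fun hS => ?_⟩⟩
  · exact (h'.done i j hij (by simp [hS])).1
  · have h1 := (h'.todo i j hij (by simp [hS])).1
    exact ha.disj _ _ (h'.ne j) (h'.ne i) h1.symm (h'.mins i j hij)

end Pool.Agent.Rebel
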