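import Mathlib

/-!
# Every poset tournament is a rebel (MP_ead61c_co) : definitions

Paper proof: see the docstrings of the modules.  Overview:
* `Realise`: stationary laws (Brouwer) realise every finite poset inside an `S`-free tournament with
  large domination number;
* `Blocks`: Hales-Jewett makes arcs of pairs in general position stable;
* `Stages`, `Dichot`, `CaseA`, `CaseB`: infinite combinatorics;
* `Final`: ultrafilter limit and the theorem.
-/

set_option autoImplicit false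

open Finset

namespace Pool.Agent.Rebel

/-- `adj` is a tournament. -/
def IsTour {V : Type} (adj : V → V → Prop) : Prop :=
  (∀ u, ¬ adj u u) ∧ ∀ u v, u ≠ v → (adj u v ↔ ¬ adj v u)

/-- `adj` contains a copy of `S`. -/
def Copy {m : ℕ} {V : Type} (S : Fin m → Fin m → Prop) (adj : V → V → Prop) : Prop :=
  ∃ f : Fin m ↪ V, ∀ i j, S i j ↔ adj (f i) (f j)

/-- General position: `I \ J`, `J \ I` and `I ∩ J` are nonempty. -/
def GP (I J : Finset ℕ) : Prop :=
  (∃ x, x ∈ I ∧ x ∉ J) ∧ (∃ x, x ∉ I ∧ x ∈ J) ∧ ∃ x, x ∈ I ∧ x ∈ J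

/-- all elements of `X` are at least `n` -/
def Far (n : ℕ) (X : Finset ℕ) : Prop := ∀ x ∈ X, n ≤ x

/-- all elements of `X` are smaller than `n` -/
def Near (n : ℕ) (X : Finset ℕ) : Prop := ∀ x ∈ X, x < n

/-- The limit structure: a relation on finite sets of natural numbers. -/
structure InfRel (a : Finset ℕ → Finset ℕ → Prop) : Prop where
  asymm : ∀ I J, a I J → ¬ a J I
  sub : ∀ I J, I.Nonempty → I ⊂ J → a J I
  disj : ∀ I J, I.Nonempty → J.Nonempty → Disjoint I J → (∃ y ∈ J, ∀ x ∈ I, y < x) → a I J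
  stable : ∀ I J X Y n, GP I J → Near n I → Near n J → Far n X → Far n Y →
    (a (I ∪ X) (J ∪ Y) ↔ a I J)
  total : ∀ I J, GP I J → a I J ∨ a J I

section Inf

variable (a : Finset ℕ → Finset ℕ → Prop)

/-- For most `x` (in the sense of a fixed nonprincipal ultrafilter) adding the common element `x`
gives `a`. -/
def tau (I J : Finset ℕ) : Prop :=
  ∀ᶠ x in (Filter.hyperfilter ℕ : Filter ℕ), a (insert x I) (insert x J)

/-- `tau` holds for ever. -/
def gs (I J : Finset ℕ) (n : ℕ) : Prop :=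
  ∀ X Y : Finset ℕ, Far n X → Far n Y → Disjoint X Y → tau a (I ∪ X) (J ∪ Y)

/-- No extension of the state is `gs`. -/
def ad (I J : Finset ℕ) (n : ℕ) : Prop :=
  ∀ (X Y : Finset ℕ) (n' : ℕ), Far n X → Far n Y → Disjoint X Y → n ≤ n' → Near n' X → Near n' Y →
    ¬ gs a (I ∪ X) (J ∪ Y) n'

end Inf

/-- A state: finitely many pairwise disjoint finite sets `C i`, all below the time `n`. -/
structure St where
  C : ℕ → Finset ℕ
  n : ℕ

/-- Valid state with exactly `j` nonempty sets `C 0, …, C (j-1)`, with increasing minima. -/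
structure St.Valid (s : St) (j : ℕ) : Prop where
  near : ∀ i, Near s.n (s.C i)
  disj : ∀ i i', i ≠ i' → Disjoint (s.C i) (s.C i')
  empty : ∀ i, j ≤ i → s.C i = ∅
  ne : ∀ i, i < j → (s.C i).Nonempty
  mins : ∀ i i', i < i' → i' < j → ∃ x ∈ s.C i, ∀ y ∈ s.C i', x < y

/-- `s'` extends `s`: only elements `≥ s.n` are added. -/
def St.Ext (s s' : St) : Prop :=
  s.n ≤ s'.n ∧ ∀ i, ∃ X, Far s.n X ∧ s'.C i = s.C i ∪ X

/-- union of the sets `C i`, `i ∈ K` -/
def St.B (s : St) (K : Finset ℕ) : Finset ℕ := K.biUnion s.C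

/-- A sequence of states as produced by the stage construction. -/
structure Seq (a : Finset ℕ → Finset ℕ → Prop) where
  s : ℕ → St
  valid : ∀ j, (s j).Valid j
  ext : ∀ j, (s j).Ext (s (j + 1))
  /-- the first element of `C j` -/
  x : ℕ → ℕ
  x_mem : ∀ j, x j ∈ (s (j + 1)).C j
  x_far : ∀ j, (s j).n ≤ x j
  /-- all other elements added at stage `j` are larger -/
  x_first : ∀ j i, ∀ y ∈ (s (j + 1)).C i, (s j).n ≤ y → (y = x j ∧ i = j) ∨ x j < y
  good : ∀ j, ∀ K L : Finset ℕ, K ⊆ range j → L ⊆ range j → Disjoint K L →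
    tau a ((s j).B K) ((s j).B L) → a (insert (x j) ((s j).B K)) (insert (x j) ((s j).B L))
  dec : ∀ j, ∀ K : Finset ℕ, K ⊆ range j → K.Nonempty →
    gs a ((s (j + 1)).C j) ((s (j + 1)).B K) (s (j + 1)).n ∨
      ad a ((s (j + 1)).C j) ((s (j + 1)).B K) (s (j + 1)).n

/-- the colour of `(K, j)` -/
def Seq.col {a : Finset ℕ → Finset ℕ → Prop} (q : Seq a) (K : Finset ℕ) (j : ℕ) : Prop :=
  gs a ((q.s (j + 1)).C j) ((q.s (j + 1)).B K) (q.s (j + 1)).n

/-- union of the tail `{s, …}` version of the embedding: what we want to find -/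
def Emb (a : Finset ℕ → Finset ℕ → Prop) {m : ℕ} (S : Fin m → Fin m → Prop) : Prop :=
  ∃ A : Fin m → Finset ℕ, ∀ i j, i < j → (S i j → a (A i) (A j)) ∧ (¬ S i j → a (A j) (A i))

end Pool.Agent.Rebel
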