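import Pool.Agent.Rebel.Defs

/-! # The ultrafilter dichotomy for colourings of pairs `(K, j)` -/

set_option autoImplicit false

open Finset

namespace Pool.Agent.Rebel

/-- The recursion for the first alternative. -/
theorem dichotomy_aux (c : Finset ℕ → ℕ → Prop) (G : ℕ → Prop)
    (hG : ∀ᶠ p in (Filter.hyperfilter ℕ : Filter ℕ), G p)
    (hc : ∀ W : Finset ℕ, ∀ p, G p → p ∈ W → (∀ y ∈ W, p ≤ y) →
      ∀ᶠ j in (Filter.hyperfilter ℕ : Filter ℕ), c W j) (n : ℕ) :
    ∃ f : ℕ → ℕ, (∀ i, i < n → G (f i)) ∧ (∀ i k, i < k → k < n → f i < f k) ∧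
      ∀ t, t < n → ∀ K : Finset ℕ, K ⊆ range t → K.Nonempty → c (K.image f) (f t) := by
  induction n with
  | zero => exact ⟨id, by simp, by simp, by simp⟩
  | succ n ih =>
    obtain ⟨f, hf1, hf2, hf3⟩ := ih
    have h1 : ∀ᶠ y in (Filter.hyperfilter ℕ : Filter ℕ), ∀ i, i < n → f i < y := by
      have : ∀ᶠ y in (Filter.cofinite : Filter ℕ), ∀ i, i < n → f i < y := by
        rw [Nat.cofinite_eq_atTop]
        filter_upwards [Filter.eventually_gt_atTop ((range n).sup f)] with y hy i hi
        exact lt_of_le_of_lt (Finset.le_sup (f := f) (mem_range.mpr hi)) hy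
      exact Filter.hyperfilter_le_cofinite this
    have h2 : ∀ᶠ y in (Filter.hyperfilter ℕ : Filter ℕ),
        ∀ K ∈ (range n).powerset, K.Nonempty → c (K.image f) y := by
      rw [Filter.eventually_all_finset]
      intro K hK
      by_cases hKn : K.Nonempty
      · have hKsub := mem_powerset.mp hK
        have hmem := K.min'_mem hKn
        have hmin : K.min' hKn < n := mem_range.mp (hKsub hmem)
        have := hc (K.image f) (f (K.min' hKn)) (hf1 _ hmin) (mem_image_of_mem f hmem) (by
          intro y hy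
          obtain ⟨k, hk, rfl⟩ := mem_image.mp hy
          have hkn : k < n := mem_range.mp (hKsub hk)
          rcases (K.min'_le k hk).eq_or_lt with h | h
          · rw [h]
          · exact (hf2 _ _ h hkn).le)
        filter_upwards [this] with y hy _ using hy
      · exact Filter.Eventually.of_forall fun y h => absurd h hKn
    obtain ⟨y, hyG, hy1, hy2⟩ := (hG.and (h1.and h2)).exists
    refine ⟨Function.update f n y, ?_, ?_, ?_⟩
    · intro i hi
      rcases (Nat.lt_succ_iff.mp hi).eq_or_lt with h | h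
      · rw [h, Function.update_self]
        exact hyG
      · rw [Function.update_of_ne h.ne]
        exact hf1 i h
    · intro i k hik hk
      rcases (Nat.lt_succ_iff.mp hk).eq_or_lt with h | h
      · rw [h, Function.update_self, Function.update_of_ne (by omega)]
        exact hy1 i (by omega)
      · rw [Function.update_of_ne h.ne, Function.update_of_ne (by omega)]
        exact hf2 i k hik h
    · intro t ht K hK hKn
      have himg : K.image (Function.update f n y) = K.image f := by
        apply Finset.image_congr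
        intro k hk
        have : k < t := mem_range.mp (hK hk)
        exact Function.update_of_ne (by omega) _ _
      rw [himg]
      rcases (Nat.lt_succ_iff.mp ht).eq_or_lt with h | h
      · rw [h, Function.update_self]
        rw [h] at hK
        exact hy2 K (mem_powerset.mpr hK) hKn
      · rw [Function.update_of_ne h.ne]
        exact hf3 t h K hK hKn

/-- Let `U` be the ultrafilter and `tau' K` mean that `c K j` for `U`-many `j`.
If for `U`-many `p` there is `W` with minimum `p` and not `tau' W`, build the second alternative;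
otherwise the first. -/
theorem dichotomy (c : Finset ℕ → ℕ → Prop) (m : ℕ) :
    (∃ j : Fin m → ℕ, StrictMono j ∧ ∀ t : Fin m, ∀ K : Finset (Fin m), K.Nonempty →
        (∀ s ∈ K, s < t) → c (K.image j) (j t)) ∨
    (∃ (W : Fin m → Finset ℕ) (p : Fin m → ℕ), (∀ t, p t ∈ W t ∧ ∀ y ∈ W t, p t ≤ y) ∧
        ∀ s t : Fin m, s < t → (∀ x ∈ W s, x < p t) ∧ ¬ c (W s) (p t)) := by
  by_cases hU : ∀ᶠ p in (Filter.hyperfilter ℕ : Filter ℕ), ∃ W : Finset ℕ,
      (p ∈ W ∧ ∀ y ∈ W, p ≤ y) ∧ ¬ ∀ᶠ j in (Filter.hyperfilter ℕ : Filter ℕ), c W j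
  · right
    obtain ⟨f, hf1, hf2⟩ := exists_seq_of_forall_finset_exists
      (fun z : Finset ℕ × ℕ => (z.2 ∈ z.1 ∧ ∀ y ∈ z.1, z.2 ≤ y) ∧
        ∀ᶠ j in (Filter.hyperfilter ℕ : Filter ℕ), ¬ c z.1 j)
      (fun z z' => (∀ x ∈ z.1, x < z'.2) ∧ ¬ c z.1 z'.2) (by
        intro s hs
        have h1 : ∀ᶠ y in (Filter.hyperfilter ℕ : Filter ℕ),
            ∀ z ∈ s, (∀ x ∈ z.1, x < y) ∧ ¬ c z.1 y := by
          rw [Filter.eventually_all_finset]
          intro z hz
          refine Filter.Eventually.and ?_ (hs z hz).2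
          have : ∀ᶠ y in (Filter.cofinite : Filter ℕ), ∀ x ∈ z.1, x < y := by
            rw [Nat.cofinite_eq_atTop]
            filter_upwards [Filter.eventually_gt_atTop (z.1.sup id)] with y hy x hx
            exact lt_of_le_of_lt (Finset.le_sup (f := id) hx) hy
          exact Filter.hyperfilter_le_cofinite this
        obtain ⟨p, ⟨W, hW1, hW2⟩, hp⟩ := (hU.and h1).exists
        refine ⟨(W, p), ⟨hW1, ?_⟩, fun z hz => hp z hz⟩
        exact Ultrafilter.eventually_not.mpr hW2)
    exact ⟨fun t => (f t).1, fun t => (f t).2, fun t => (hf1 t).1,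
      fun s t hst => hf2 s t (by exact_mod_cast hst)⟩
  · left
    rw [Ultrafilter.eventually_not.symm] at hU
    have hG : ∀ᶠ p in (Filter.hyperfilter ℕ : Filter ℕ), ∀ W : Finset ℕ,
        p ∈ W → (∀ y ∈ W, p ≤ y) → ∀ᶠ j in (Filter.hyperfilter ℕ : Filter ℕ), c W j := by
      filter_upwards [hU] with p hp W h1 h2
      by_contra h3
      exact hp ⟨W, ⟨h1, h2⟩, h3⟩
    obtain ⟨f, -, hf2, hf3⟩ := dichotomy_aux c _ hG (fun W p hp h1 h2 => hp W h1 h2) m
    refine ⟨fun t => f t, ?_, ?_⟩
    · intro s t hst
      exact hf2 s t (by exact_mod_cast hst) t.2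
    · intro t K hK hKt
      have h := hf3 t t.2 (K.image (fun s : Fin m => (s : ℕ))) (by
        intro x hx
        obtain ⟨s, hs, rfl⟩ := mem_image.mp hx
        rw [mem_range]
        exact_mod_cast hKt s hs) (hK.image _)
      rw [Finset.image_image] at h
      exact h

end Pool.Agent.Rebel
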