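import Pool.Agent.Rebel.Stages
import Pool.Agent.Rebel.Dichot
import Pool.Agent.Rebel.CaseA
import Pool.Agent.Rebel.CaseB
import Pool.Agent.Rebel.Blocks
import Pool.Agent.Rebel.Boolean

/-! # Every poset tournament is a rebel -/

set_option autoImplicit false

open Finset

namespace Pool.Agent.Rebel

theorem exists_emb {a : Finset ℕ → Finset ℕ → Prop} (ha : InfRel a) {m : ℕ}
    (S : Fin m → Fin m → Prop)
    (htr : ∀ i j k : Fin m, i < j → j < k → S i j → S j k → S i k) : Emb a S := by
  obtain ⟨q⟩ := exists_seq a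
  rcases dichotomy q.col m with ⟨j, hj, hc⟩ | ⟨W, p, hp, hW⟩
  · exact caseA ha q S htr j hj hc
  · exact caseB ha q S W p hp hW

/-- What a single `S`-free tournament of large domination provides. -/
structure FinRel (M : ℕ) {V : Type} (adj : V → V → Prop) (z : Finset ℕ → V) : Prop where
  sub : ∀ I J : Finset ℕ, I.Nonempty → I ⊂ J → J ⊆ range M → adj (z J) (z I)
  disj : ∀ I J : Finset ℕ, I.Nonempty → J.Nonempty → I ⊆ range M → J ⊆ range M → Disjoint I J →
    (∃ y ∈ J, ∀ x ∈ I, y < x) → adj (z I) (z J)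
  stable : ∀ s ≤ M, ∀ I J : Finset ℕ, I ⊆ range M → J ⊆ range M →
    GP (I ∩ range s) (J ∩ range s) →
    (adj (z I) (z J) ↔ adj (z (I ∩ range s)) (z (J ∩ range s))) ∧
    (z I = z J ↔ z (I ∩ range s) = z (J ∩ range s))

theorem exists_finRel {m : ℕ} (S : Fin m → Fin m → Prop) (hS : IsTour S) (M : ℕ) :
    ∃ K : ℕ, ∀ (V : Type) [Fintype V] (adj : V → V → Prop), IsTour adj → ¬ Copy S adj →
      (∀ X : Finset V, X.card ≤ K → ∃ v, ∀ x ∈ X, adj v x) →
      ∃ z : Finset ℕ → V, FinRel M adj z := by
  classical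
  obtain ⟨n, hn⟩ := exists_blocks M (Bool × Bool)
  obtain ⟨K, hK⟩ := exists_boolean n S hS
  refine ⟨K, fun V _ adj hT hC hX => ?_⟩
  obtain ⟨z, hz1, hz2⟩ := hK V adj hT hC hX
  obtain ⟨E, hE1, hE2, hE3⟩ := hn (fun A B => (decide (adj (z A) (z B)), decide (z A = z B)))
  have hEn : ∀ I : Finset ℕ, I ⊆ range M → I.biUnion E ⊆ range n := by
    intro I hI x hx
    rw [mem_biUnion] at hx
    obtain ⟨i, hi, hx⟩ := hx
    exact (hE1 i (mem_range.1 (hI hi))).2 hx
  have hdis : ∀ i j, i < M → j < M → i ≠ j → Disjoint (E i) (E j) := by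
    intro i j hi hj hij
    rcases lt_or_gt_of_ne hij with h | h
    · exact (hE2 i j h hj).1
    · exact (hE2 j i h hi).1.symm
  have hne : ∀ I : Finset ℕ, I ⊆ range M → I.Nonempty → (I.biUnion E).Nonempty := by
    intro I hI hIn
    obtain ⟨i, hi⟩ := hIn
    obtain ⟨x, hx⟩ := (hE1 i (mem_range.1 (hI hi))).1
    exact ⟨x, mem_biUnion.2 ⟨i, hi, hx⟩⟩
  refine ⟨fun I => z (I.biUnion E), ?_, ?_, ?_⟩
  · intro I J hI hIJ hJ
    refine hz1 _ _ (hne I (hIJ.subset.trans hJ) hI) ?_ (hEn J hJ)
    refine ⟨biUnion_subset_biUnion_of_subset_left E hIJ.subset, fun hc => ?_⟩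
    obtain ⟨j, hjJ, hjI⟩ := exists_of_ssubset hIJ
    obtain ⟨x, hx⟩ := (hE1 j (mem_range.1 (hJ hjJ))).1
    obtain ⟨i, hi, hxi⟩ := mem_biUnion.1 (hc (mem_biUnion.2 ⟨j, hjJ, hx⟩))
    have hij : i ≠ j := fun h => hjI (h ▸ hi)
    exact disjoint_left.1 (hdis i j (mem_range.1 (hJ (hIJ.subset hi))) (mem_range.1 (hJ hjJ)) hij)
      hxi hx
  · rintro I J hI hJn hIM hJM hIJ ⟨y, hy, hyx⟩
    refine hz2 _ _ (hne I hIM hI) (hEn I hIM) (hEn J hJM) ?_ ?_
    · rw [disjoint_biUnion_left]
      intro i hi
      rw [disjoint_biUnion_right]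
      intro j hj
      exact hdis i j (mem_range.1 (hIM hi)) (mem_range.1 (hJM hj))
        (fun h => disjoint_left.1 hIJ hi (h ▸ hj))
    · obtain ⟨i0, hi0⟩ := hI
      obtain ⟨_, x, hx, _⟩ := hE2 y i0 (hyx i0 hi0) (mem_range.1 (hIM hi0))
      -- the minimum of `E y`
      obtain ⟨x0, hx0, hmin⟩ := exists_min_image (E y) id ⟨x, hx⟩
      refine ⟨x0, mem_biUnion.2 ⟨y, hy, hx0⟩, fun b hb => ?_⟩
      obtain ⟨i, hi, hb⟩ := mem_biUnion.1 hb
      obtain ⟨_, x', hx', hlt⟩ := hE2 y i (hyx i hi) (mem_range.1 (hIM hi))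
      exact lt_of_le_of_lt (hmin x' hx') (hlt b hb)
  · intro s hs I J hI hJ hGP
    have h := hE3 s hs I J hI hJ hGP
    simp only [Prod.mk.injEq, decide_eq_decide] at h
    exact h

theorem main {m : ℕ} (S : Fin m → Fin m → Prop) (hS : IsTour S)
    (htr : ∀ i j k : Fin m, i < j → j < k → S i j → S j k → S i k) :
    ∃ c : ℕ, ∀ (n : ℕ) (T : Fin n → Fin n → Prop), IsTour T → ¬ Copy S T →
      ∃ D : Finset (Fin n), D.card ≤ c ∧ ∀ v, v ∉ D → ∃ u ∈ D, T u v := by
  classical
  by_contra hcon
  push Not at hcon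
  -- for every `M` an `S`-free tournament with the structure `FinRel M`
  have key : ∀ M : ℕ, ∃ (n : ℕ) (T : Fin n → Fin n → Prop) (z : Finset ℕ → Fin n),
      IsTour T ∧ ¬ Copy S T ∧ FinRel M T z := by
    intro M
    obtain ⟨K, hK⟩ := exists_finRel S hS M
    obtain ⟨n, T, hT, hC, hD⟩ := hcon K
    obtain ⟨z, hz⟩ := hK (Fin n) T hT hC (by
      intro X hX
      obtain ⟨v, hv, hvX⟩ := hD X hX
      refine ⟨v, fun x hx => ?_⟩
      have hne : v ≠ x := fun h => hv (h ▸ hx)
      exact (hT.2 v x hne).2 (hvX x hx))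
    exact ⟨n, T, z, hT, hC, hz⟩
  choose n T z hT hC hz using key
  set a : Finset ℕ → Finset ℕ → Prop := fun I J =>
    ∀ᶠ M in (Filter.hyperfilter ℕ : Filter ℕ), T M (z M I) (z M J) with ha_def
  have hlarge : ∀ I : Finset ℕ, ∀ᶠ M in (Filter.hyperfilter ℕ : Filter ℕ), I ⊆ range M := by
    intro I
    have h : ∀ᶠ M in Filter.atTop, I ⊆ range M := by
      obtain ⟨b, hb⟩ := I.bddAbove
      filter_upwards [Filter.eventually_gt_atTop b] with M hM x hx
      exact mem_range.2 (lt_of_le_of_lt (hb hx) hM)
    exact (Nat.hyperfilter_le_atTop : (Filter.hyperfilter ℕ : Filter ℕ) ≤ Filter.atTop) h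
  have hnb : (Filter.hyperfilter ℕ : Filter ℕ).NeBot := inferInstance
  have ha : InfRel a := by
    refine ⟨?_, ?_, ?_, ?_, ?_⟩
    · intro I J h1 h2
      obtain ⟨M, hM1, hM2⟩ := (h1.and h2).exists
      rcases eq_or_ne (z M I) (z M J) with h | h
      · rw [h] at hM1
        exact (hT M).1 _ hM1
      · exact ((hT M).2 _ _ h).1 hM1 hM2
    · intro I J hI hIJ
      filter_upwards [hlarge J] with M hM
      exact (hz M).sub I J hI hIJ hM
    · intro I J hI hJ hIJ hmin
      filter_upwards [hlarge I, hlarge J] with M hM1 hM2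
      exact (hz M).disj I J hI hJ hM1 hM2 hIJ hmin
    · intro I J X Y n' hGP hI hJ hX hY
      refine Filter.eventually_congr ?_
      filter_upwards [hlarge (I ∪ X), hlarge (J ∪ Y), hlarge (range n')] with M h1 h2 h3
      have hcut : ∀ I X : Finset ℕ, Near n' I → Far n' X → (I ∪ X) ∩ range n' = I := by
        intro I X hI hX
        ext x
        simp only [mem_inter, mem_union, mem_range]
        constructor
        · rintro ⟨h | h, hx⟩
          · exact h
          · exact absurd (hX x h) (not_le.2 hx)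
        · intro h
          exact ⟨Or.inl h, hI x h⟩
      have hn' : n' ≤ M := by
        by_contra hlt
        push Not at hlt
        have := h3 (mem_range.2 hlt)
        simp at this
      have := (hz M).stable n' hn' (I ∪ X) (J ∪ Y) h1 h2 (by
        rw [hcut I X hI hX, hcut J Y hJ hY]; exact hGP)
      rw [hcut I X hI hX, hcut J Y hJ hY] at this
      exact this.1
    · intro I J hGP
      -- `z I = z J` is impossible
      obtain ⟨b, hb⟩ := (I ∪ J).bddAbove
      have hnear : ∀ x ∈ I ∪ J, x < b + 1 := fun x hx => Nat.lt_succ_of_le (hb hx)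
      have hev : ∀ᶠ M in (Filter.hyperfilter ℕ : Filter ℕ),
          T M (z M I) (z M J) ∨ T M (z M J) (z M I) := by
        filter_upwards [hlarge (insert (b + 1) (I ∪ J))] with M hM
        have hIM : I ⊆ range M := (subset_union_left.trans (subset_insert _ _)).trans hM
        have hJM : J ⊆ range M := (subset_union_right.trans (subset_insert _ _)).trans hM
        have hbM : b + 1 < M := mem_range.1 (hM (mem_insert_self _ _))
        rcases eq_or_ne (z M I) (z M J) with h | h
        · exfalso
          have hcutI : I ∩ range (b + 1) = I := by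
            rw [inter_eq_left]
            intro x hx
            exact mem_range.2 (hnear x (mem_union_left _ hx))
          have hcutJ : J ∩ range (b + 1) = J := by
            rw [inter_eq_left]
            intro x hx
            exact mem_range.2 (hnear x (mem_union_right _ hx))
          have hcutI' : insert (b + 1) I ∩ range (b + 1) = I := by
            rw [insert_inter_of_notMem (by simp), hcutI]
          have hI'M : insert (b + 1) I ⊆ range M := by
            intro x hx
            rcases mem_insert.1 hx with h | h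
            · exact h ▸ mem_range.2 hbM
            · exact hIM h
          have := ((hz M).stable (b + 1) hbM.le (insert (b + 1) I) J hI'M hJM (by
            rw [hcutI', hcutJ]; exact hGP)).2
          rw [hcutI', hcutJ] at this
          have h1 : z M (insert (b + 1) I) = z M I := (this.2 h).trans h.symm
          have h2 := (hz M).sub I (insert (b + 1) I) ⟨_, hGP.1.choose_spec.1⟩
            (ssubset_insert (fun hx => by
              have := hnear _ (mem_union_left J hx)
              exact lt_irrefl _ this)) hI'M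
          rw [h1] at h2
          exact (hT M).1 _ h2
        · by_cases h' : T M (z M I) (z M J)
          · exact Or.inl h'
          · exact Or.inr (((hT M).2 _ _ h.symm).2 h')
      exact Ultrafilter.eventually_or.1 hev
  obtain ⟨A, hA⟩ := exists_emb ha S htr
  have hev : ∀ᶠ M in (Filter.hyperfilter ℕ : Filter ℕ), ∀ i j : Fin m, i < j →
      (S i j → T M (z M (A i)) (z M (A j))) ∧ (¬ S i j → T M (z M (A j)) (z M (A i))) := by
    rw [Filter.eventually_all]
    intro i
    rw [Filter.eventually_all]
    intro j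
    by_cases hij : i < j
    · by_cases hs : S i j
      · filter_upwards [(hA i j hij).1 hs] with M hM _
        exact ⟨fun _ => hM, fun h => absurd hs h⟩
      · filter_upwards [(hA i j hij).2 hs] with M hM _
        exact ⟨fun h => absurd h hs, fun _ => hM⟩
    · exact Filter.Eventually.of_forall fun M h => absurd h hij
  obtain ⟨M, hM⟩ := hev.exists
  apply hC M
  have harc : ∀ i j : Fin m, i ≠ j → S i j → T M (z M (A i)) (z M (A j)) := by
    intro i j hij hs
    rcases lt_or_gt_of_ne hij with h | h
    · exact (hM i j h).1 hs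
    · exact (hM j i h).2 ((hS.2 i j hij).1 hs)
  have hinj : Function.Injective (fun i => z M (A i)) := by
    intro i j hij
    by_contra hne
    simp only at hij
    by_cases hs : S i j
    · have := harc i j hne hs
      rw [hij] at this
      exact (hT M).1 _ this
    · have hs' : S j i := by
        by_contra h
        exact hs ((hS.2 i j hne).2 h)
      have := harc j i (Ne.symm hne) hs'
      rw [hij] at this
      exact (hT M).1 _ this
  refine ⟨⟨fun i => z M (A i), hinj⟩, fun i j => ⟨fun hs => ?_, fun ht => ?_⟩⟩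
  · rcases eq_or_ne i j with h | h
    · subst h
      exact absurd hs (hS.1 i)
    · exact harc i j h hs
  · by_contra hs
    rcases eq_or_ne i j with h | h
    · subst h
      exact (hT M).1 _ ht
    · have hs' : S j i := by
        by_contra h'
        exact hs ((hS.2 i j h).2 h')
      have h2 := harc j i (Ne.symm h) hs'
      have hne' : z M (A i) ≠ z M (A j) := fun he => h (hinj he)
      exact ((hT M).2 _ _ hne').1 ht h2

end Pool.Agent.Rebel
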