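import Pool.Agent.Rebel.Defs

/-! # Levels of a measure on an `S`-free tournament -/

set_option autoImplicit false

open Finset

namespace Pool.Agent.Rebel

open Classical in
/-- mass of the pairs `(a, b) ∈ A × B` which are not arcs `a → b` -/
noncomputable def nonarc {V : Type} (adj : V → V → Prop) (w : V → ℝ) (A B : Finset V) : ℝ :=
  ∑ a ∈ A, ∑ b ∈ B, if adj a b then 0 else w a * w b

namespace Levels

/-- the required relation between the images of `a < b` -/
def Rel {m : ℕ} {V : Type} (S : Fin m → Fin m → Prop) (adj : V → V → Prop) (a b : Fin m)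
    (x y : V) : Prop :=
  (S a b → adj x y) ∧ (¬ S a b → adj y x)

open Classical in
/-- the candidates for the vertex `j` after `i` steps -/
noncomputable def cand {m : ℕ} {V : Type} [Fintype V] (S : Fin m → Fin m → Prop)
    (adj : V → V → Prop) (i : ℕ) (f : Fin m → V) (j : Fin m) : Finset V :=
  univ.filter fun v => ∀ a : Fin m, a.val < i → Rel S adj a j (f a) v

open Classical in
theorem bound {V : Type} (w : V → ℝ) (hw : ∀ v, 0 ≤ w v) {α c : ℝ} (hα0 : 0 ≤ α)
    (hα : ∀ v, w v ≤ α)
    (X Y : Finset V) (Q : V → V → Prop) (F : V → V → ℝ)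
    (hQ : ∀ v ∈ X, ∑ u ∈ Y, (if Q v u then w u else 0) ≤ c)
    (hF : ∀ v u, F v u ≤ w v * w u) (hF' : ∀ v u, ¬ Q v u → u ≠ v → F v u ≤ 0) :
    ∑ v ∈ X, ∑ u ∈ Y, F v u ≤ (c + α) * ∑ v ∈ X, w v := by
  rw [Finset.mul_sum]
  refine Finset.sum_le_sum fun v hv => ?_
  have h1 : ∀ u ∈ Y, F v u ≤
      w v * (if Q v u then w u else 0) + w v * (if u = v then w u else 0) := by
    intro u _
    have hvu : 0 ≤ w v * w u := mul_nonneg (hw v) (hw u)
    have h2 : 0 ≤ w v * (if u = v then w u else 0) := by
      split_ifs
      · exact hvu
      · simp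
    have h3 : 0 ≤ w v * (if Q v u then w u else 0) := by
      split_ifs
      · exact hvu
      · simp
    by_cases hq : Q v u
    · rw [if_pos hq]
      linarith [hF v u]
    · by_cases he : u = v
      · rw [if_pos he]
        linarith [hF v u]
      · linarith [hF' v u hq he]
  refine (Finset.sum_le_sum h1).trans ?_
  rw [Finset.sum_add_distrib, ← Finset.mul_sum, ← Finset.mul_sum]
  have h2 : ∑ u ∈ Y, (if u = v then w u else 0) ≤ α := by
    rw [Finset.sum_ite_eq' Y v w]
    split_ifs
    · exact hα v
    · exact hα0
  have h3 := hQ v hv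
  have h4 := hw v
  nlinarith

theorem exists_pair {m : ℕ} (S : Fin m → Fin m → Prop) (hS : IsTour S) (ε : ℝ)
    (hε : 0 < ε) (hε1 : ε ≤ 1) :
    ∃ δ : ℝ, 0 < δ ∧ ∃ α : ℝ, 0 < α ∧ ∀ (V : Type) [Fintype V] (adj : V → V → Prop),
      IsTour adj → ¬ Copy S adj → ∀ w : V → ℝ, (∀ v, 0 ≤ w v) → ∑ v, w v = 1 →
        (∀ v, w v ≤ α) → ∃ A B : Finset V, δ ≤ ∑ v ∈ A, w v ∧ δ ≤ ∑ v ∈ B, w v ∧
          nonarc adj w A B ≤ ε * (∑ a ∈ A, w a) * ∑ b ∈ B, w b := by
  classical
  refine ⟨(ε / 2) ^ m / (m + 1), by positivity, (ε / 2) ^ (m + 1), by positivity, ?_⟩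
  intro V _ adj hT hcopy w hw hsum hα
  by_contra hno
  push Not at hno
  apply hcopy
  have hα0 : 0 ≤ (ε / 2) ^ (m + 1) := by positivity
  have hne : Nonempty V := by
    by_contra h
    rw [not_nonempty_iff] at h
    rw [Finset.univ_eq_empty, Finset.sum_empty] at hsum
    exact zero_ne_one hsum
  have hpow : ∀ i ≤ m, (ε / 2) ^ m ≤ (ε / 2) ^ i := fun i hi =>
    pow_le_pow_of_le_one (by positivity) (by linarith) hi
  have key : ∀ i ≤ m, ∃ f : Fin m → V,
      (∀ a b : Fin m, a < b → b.val < i → Rel S adj a b (f a) (f b)) ∧
      ∀ j : Fin m, i ≤ j.val → (ε / 2) ^ i ≤ ∑ v ∈ cand S adj i f j, w v := by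
    intro i
    induction i with
    | zero =>
      intro _
      refine ⟨fun _ => Classical.arbitrary V, fun a b _ h => absurd h (Nat.not_lt_zero _), ?_⟩
      intro j _
      have : cand S adj 0 (fun _ => Classical.arbitrary V) j = univ := by
        unfold cand
        rw [Finset.filter_true_of_mem]
        intro v _ a ha
        exact absurd ha (Nat.not_lt_zero _)
      rw [this, hsum, pow_zero]
    | succ i ih =>
      intro hi
      obtain ⟨f, hf1, hf2⟩ := ih (by omega)
      set ι : Fin m := ⟨i, by omega⟩ with hι
      set C := cand S adj i f with hC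
      -- a good vertex
      have hgood : ∃ v ∈ C ι, ∀ j : Fin m, i < j.val →
          (ε / 2) * ∑ u ∈ C j, w u ≤ ∑ u ∈ C j, (if Rel S adj ι j v u then w u else 0) := by
        by_contra hbad
        push Not at hbad
        set X : Fin m → Finset V := fun j => (C ι).filter fun v => i < j.val ∧
          ∑ u ∈ C j, (if Rel S adj ι j v u then w u else 0) < (ε / 2) * ∑ u ∈ C j, w u with hX
        have hcov : ∑ v ∈ C ι, w v ≤ ∑ j : Fin m, ∑ v ∈ X j, w v := by
          have h1 : ∀ v ∈ C ι, w v ≤ ∑ j : Fin m, if v ∈ X j then w v else 0 := by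
            intro v hv
            obtain ⟨j, hj1, hj2⟩ := hbad v hv
            have h2 : v ∈ X j := by
              rw [hX, Finset.mem_filter]
              exact ⟨hv, hj1, hj2⟩
            refine le_trans ?_ (Finset.single_le_sum (f := fun j : Fin m =>
              if v ∈ X j then w v else 0) ?_ (Finset.mem_univ j))
            · rw [if_pos h2]
            · intro j' _
              split_ifs
              · exact hw v
              · exact le_rfl
          refine (Finset.sum_le_sum h1).trans ?_
          rw [Finset.sum_comm]
          refine Finset.sum_le_sum fun j _ => ?_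
          rw [← Finset.sum_filter]
          refine Finset.sum_le_sum_of_subset_of_nonneg ?_ fun v _ _ => hw v
          intro v hv
          exact (Finset.mem_filter.1 hv).2
        have hCι : (ε / 2) ^ i ≤ ∑ v ∈ C ι, w v := hf2 ι le_rfl
        have hexj : ∃ j : Fin m, (∑ v ∈ C ι, w v) / m ≤ ∑ v ∈ X j, w v := by
          by_contra hcon
          push Not at hcon
          have hmpos : (0 : ℝ) < m := by
            have : 0 < m := by omega
            exact_mod_cast this
          have h1 : ∑ j : Fin m, ∑ v ∈ X j, w v < ∑ _j : Fin m, (∑ v ∈ C ι, w v) / m :=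
            Finset.sum_lt_sum_of_nonempty ⟨ι, Finset.mem_univ _⟩ fun j _ => hcon j
          rw [Finset.sum_const, Finset.card_univ, Fintype.card_fin, nsmul_eq_mul,
            mul_div_cancel₀ _ hmpos.ne'] at h1
          linarith
        obtain ⟨j, hj⟩ := hexj
        have hmpos : (0 : ℝ) < m := by
          have : 0 < m := by omega
          exact_mod_cast this
        have hp0 : 0 < (ε / 2) ^ m := by positivity
        have hδ : (ε / 2) ^ m / (m + 1) ≤ ∑ v ∈ X j, w v := by
          refine le_trans ?_ hj
          have h1 := hpow i (by omega)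
          calc (ε / 2) ^ m / (m + 1) ≤ (ε / 2) ^ m / m := by
                apply div_le_div_of_nonneg_left hp0.le hmpos (by linarith)
            _ ≤ (∑ v ∈ C ι, w v) / m := by
                apply div_le_div_of_nonneg_right _ hmpos.le
                linarith
        have hXpos : 0 < ∑ v ∈ X j, w v := lt_of_lt_of_le (by positivity) hδ
        have hij : i < j.val := by
          by_contra hcon
          have : X j = ∅ := by
            rw [hX]
            refine Finset.filter_eq_empty_iff.2 ?_
            intro v _ h
            exact hcon h.1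
          rw [this, Finset.sum_empty] at hXpos
          exact lt_irrefl _ hXpos
        have hCj : (ε / 2) ^ i ≤ ∑ v ∈ C j, w v := hf2 j hij.le
        have hCjm : (ε / 2) ^ m ≤ ∑ v ∈ C j, w v := (hpow i (by omega)).trans hCj
        have hCjpos : 0 < ∑ v ∈ C j, w v := by linarith
        have hδ' : (ε / 2) ^ m / (m + 1) ≤ ∑ v ∈ C j, w v := by
          refine le_trans ?_ hCjm
          exact div_le_self hp0.le (by linarith)
        have hαC : (ε / 2) ^ (m + 1) ≤ (ε / 2) * ∑ v ∈ C j, w v := by
          rw [pow_succ, mul_comm]
          gcongr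
        have hQ : ∀ v ∈ X j, ∑ u ∈ C j, (if Rel S adj ι j v u then w u else 0) ≤
            (ε / 2) * ∑ u ∈ C j, w u := fun v hv => (Finset.mem_filter.1 hv).2.2.le
        by_cases hSij : S ι j
        · have hn := hno (C j) (X j) hδ' hδ
          have hb := bound w hw hα0 hα (X j) (C j) (fun v u => Rel S adj ι j v u)
            (fun v u => if adj u v then 0 else w u * w v) hQ (by
              intro v u
              split_ifs
              · exact mul_nonneg (hw v) (hw u)
              · rw [mul_comm]) (by
              intro v u hr he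
              rw [if_pos]
              by_contra huv
              exact hr ⟨fun _ => (hT.2 v u (fun h => he h.symm)).2 huv,
                fun h => absurd hSij h⟩)
          have he : nonarc adj w (C j) (X j) =
              ∑ v ∈ X j, ∑ u ∈ C j, (if adj u v then 0 else w u * w v) := by
            unfold nonarc
            rw [Finset.sum_comm]
          rw [he] at hn
          have h9 : (ε / 2 * ∑ u ∈ C j, w u + (ε / 2) ^ (m + 1)) * ∑ v ∈ X j, w v ≤
              (ε * ∑ v ∈ C j, w v) * ∑ v ∈ X j, w v :=
            mul_le_mul_of_nonneg_right (by linarith) hXpos.le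
          linarith
        · have hn := hno (X j) (C j) hδ hδ'
          have hb := bound w hw hα0 hα (X j) (C j) (fun v u => Rel S adj ι j v u)
            (fun v u => if adj v u then 0 else w v * w u) hQ (by
              intro v u
              split_ifs
              · exact mul_nonneg (hw v) (hw u)
              · exact le_rfl) (by
              intro v u hr he
              rw [if_pos]
              by_contra huv
              exact hr ⟨fun h => absurd h hSij, fun _ => (hT.2 u v he).2 huv⟩)
          have he : nonarc adj w (X j) (C j) =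
              ∑ v ∈ X j, ∑ u ∈ C j, (if adj v u then 0 else w v * w u) := rfl
          rw [he] at hn
          have h9 : (ε / 2 * ∑ u ∈ C j, w u + (ε / 2) ^ (m + 1)) * ∑ v ∈ X j, w v ≤
              (ε * ∑ v ∈ C j, w v) * ∑ v ∈ X j, w v :=
            mul_le_mul_of_nonneg_right (by linarith) hXpos.le
          have h10 : (ε * ∑ v ∈ C j, w v) * ∑ v ∈ X j, w v =
              (ε * ∑ v ∈ X j, w v) * ∑ v ∈ C j, w v := by ring
          linarith
      obtain ⟨v, hv, hv2⟩ := hgood
      refine ⟨Function.update f ι v, ?_, ?_⟩
      · intro a b hab hb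
        have haι : a ≠ ι := by
          intro h
          have h1 : a.val = i := by rw [h, hι]
          have h2 : a.val < b.val := hab
          omega
        rw [Function.update_of_ne haι]
        by_cases hbi : b = ι
        · rw [hbi, Function.update_self]
          have h1 := (Finset.mem_filter.1 hv).2 a (by
            have h2 : a.val < b.val := hab
            rw [hbi, hι] at h2
            exact h2)
          exact h1
        · rw [Function.update_of_ne hbi]
          refine hf1 a b hab ?_
          have : b.val ≠ i := fun h => hbi (Fin.ext h)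
          omega
      · intro j hj
        have hcand : cand S adj (i + 1) (Function.update f ι v) j =
            (C j).filter fun u => Rel S adj ι j v u := by
          ext u
          rw [hC]
          unfold cand
          rw [Finset.mem_filter, Finset.mem_filter, Finset.mem_filter]
          constructor
          · rintro ⟨_, h⟩
            refine ⟨⟨Finset.mem_univ _, ?_⟩, ?_⟩
            · intro a ha
              have h1 := h a (by omega)
              rwa [Function.update_of_ne (by
                intro h2
                rw [h2, hι] at ha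
                exact absurd ha (lt_irrefl _))] at h1
            · have h1 := h ι (by rw [hι]; exact Nat.lt_succ_self i)
              rwa [Function.update_self] at h1
          · rintro ⟨⟨_, h⟩, h'⟩
            refine ⟨Finset.mem_univ _, ?_⟩
            intro a ha
            by_cases haι : a = ι
            · rw [haι, Function.update_self]
              exact h'
            · rw [Function.update_of_ne haι]
              refine h a ?_
              have : a.val ≠ i := fun h => haι (Fin.ext h)
              omega
        rw [hcand, Finset.sum_filter]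
        have h1 := hv2 j (by omega)
        have h2 := hf2 j (by omega)
        calc (ε / 2) ^ (i + 1) = (ε / 2) * (ε / 2) ^ i := by rw [pow_succ, mul_comm]
          _ ≤ (ε / 2) * ∑ u ∈ C j, w u := by gcongr
          _ ≤ _ := h1
  obtain ⟨f, hf, _⟩ := key m le_rfl
  have hrel : ∀ a b : Fin m, a < b → Rel S adj a b (f a) (f b) := fun a b hab => hf a b hab b.2
  have hlt : ∀ a b : Fin m, a < b → (S a b ↔ adj (f a) (f b)) ∧ (S b a ↔ adj (f b) (f a)) ∧
      f a ≠ f b := by
    intro a b hab
    obtain ⟨h1, h2⟩ := hrel a b hab
    have hSab := hS.2 a b hab.ne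
    by_cases h : S a b
    · have h3 := h1 h
      have hne : f a ≠ f b := by
        intro he
        rw [he] at h3
        exact hT.1 _ h3
      have h4 : ¬ adj (f b) (f a) := (hT.2 _ _ hne).1 h3
      exact ⟨⟨fun _ => h3, fun _ => h⟩, ⟨fun h5 => absurd h5 (hSab.1 h), fun h5 => absurd h5 h4⟩, hne⟩
    · have h3 := h2 h
      have hne : f a ≠ f b := by
        intro he
        rw [he] at h3
        exact hT.1 _ h3
      have h4 : ¬ adj (f a) (f b) := (hT.2 _ _ hne.symm).1 h3
      have h5 : S b a := by
        by_contra h6
        exact h (hSab.2 h6)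
      exact ⟨⟨fun h6 => absurd h6 h, fun h6 => absurd h6 h4⟩, ⟨fun _ => h3, fun _ => h5⟩, hne⟩
  refine ⟨⟨f, ?_⟩, ?_⟩
  · intro a b hab
    rcases lt_trichotomy a b with h | h | h
    · exact absurd hab (hlt a b h).2.2
    · exact h
    · exact absurd hab.symm (hlt b a h).2.2
  · intro a b
    change S a b ↔ adj (f a) (f b)
    rcases lt_trichotomy a b with h | h | h
    · exact (hlt a b h).1
    · rw [h]
      exact ⟨fun h1 => absurd h1 (hS.1 b), fun h1 => absurd h1 (hT.1 _)⟩
    · exact (hlt b a h).2.1

end Levels

/-- Levels.  Step 1 (greedy embedding, vertex by vertex): for every `ε` there are `δ`, `α` such that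
for every weight with atoms `≤ α` and total mass one on an `S`-free tournament there are `A`, `B` of
mass `≥ δ` with `nonarc A B ≤ ε w(A) w(B)`.  Step 2: recursion, `A 0 = A`, the other levels inside
`B` (apply the induction hypothesis to the conditional measure on `B`). -/
theorem exists_levels {m : ℕ} (S : Fin m → Fin m → Prop) (hS : IsTour S) (L : ℕ) (ε : ℝ)
    (hε : 0 < ε) :
    ∃ δ : ℝ, 0 < δ ∧ ∃ α : ℝ, 0 < α ∧ ∀ (V : Type) [Fintype V] (adj : V → V → Prop),
      IsTour adj → ¬ Copy S adj → ∀ w : V → ℝ, (∀ v, 0 ≤ w v) → ∑ v, w v = 1 →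
        (∀ v, w v ≤ α) → ∃ A : Fin L → Finset V, (∀ i, δ ≤ ∑ v ∈ A i, w v) ∧
          ∀ i j, i < j → nonarc adj w (A i) (A j) ≤
            ε * (∑ a ∈ A i, w a) * ∑ b ∈ A j, w b := by
  classical
  induction L with
  | zero =>
    exact ⟨1, one_pos, 1, one_pos, fun V _ adj _ _ w _ _ _ =>
      ⟨fun i => i.elim0, fun i => i.elim0, fun i => i.elim0⟩⟩
  | succ L ih =>
    obtain ⟨δ₀, hδ₀, α₀, hα₀, hL⟩ := ih
    set ε₁ := min 1 (ε * δ₀) with hε₁
    have hε₁0 : 0 < ε₁ := lt_min one_pos (mul_pos hε hδ₀)
    obtain ⟨δ₁, hδ₁, α₁, hα₁, hP⟩ := Levels.exists_pair S hS ε₁ hε₁0 (min_le_left _ _)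
    refine ⟨min δ₁ (δ₀ * δ₁), lt_min hδ₁ (mul_pos hδ₀ hδ₁), min α₁ (α₀ * δ₁),
      lt_min hα₁ (mul_pos hα₀ hδ₁), ?_⟩
    intro V _ adj hT hcopy w hw hsum hα
    obtain ⟨A, B, hA, hB, hAB⟩ := hP V adj hT hcopy w hw hsum
      (fun v => (hα v).trans (min_le_left _ _))
    set W := ∑ v ∈ B, w v with hW
    have hW0 : 0 < W := by linarith
    set w' : V → ℝ := fun v => if v ∈ B then w v / W else 0 with hw'
    have hw'0 : ∀ v, 0 ≤ w' v := by
      intro v
      rw [hw']
      simp only
      split_ifs
      · exact div_nonneg (hw v) hW0.le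
      · exact le_rfl
    have hsumset : ∀ C : Finset V, ∑ v ∈ C, w' v = (∑ v ∈ C ∩ B, w v) / W := by
      intro C
      rw [hw', Finset.sum_div, ← Finset.sum_filter, Finset.filter_mem_eq_inter]
    have hsum' : ∑ v, w' v = 1 := by
      rw [hsumset, Finset.univ_inter, ← hW, div_self hW0.ne']
    have hα' : ∀ v, w' v ≤ α₀ := by
      intro v
      rw [hw']
      simp only
      split_ifs
      · rw [div_le_iff₀ hW0]
        calc w v ≤ α₀ * δ₁ := (hα v).trans (min_le_right _ _)
          _ ≤ α₀ * W := by gcongr
      · exact hα₀.le
    obtain ⟨A', hA'1, hA'2⟩ := hL V adj hT hcopy w' hw'0 hsum' hα'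
    have hmass : ∀ i, δ₀ * W ≤ ∑ v ∈ A' i ∩ B, w v := by
      intro i
      have := hA'1 i
      rw [hsumset, le_div_iff₀ hW0] at this
      exact this
    have hnon : ∀ C C' : Finset V, nonarc adj w' C C' = nonarc adj w (C ∩ B) (C' ∩ B) / W ^ 2 := by
      intro C C'
      unfold nonarc
      have hi : ∀ (D : Finset V) (g : V → ℝ), ∑ a ∈ D ∩ B, g a = ∑ a ∈ D, if a ∈ B then g a else 0 := by
        intro D g
        rw [← Finset.filter_mem_eq_inter, Finset.sum_filter]
      rw [hi C, Finset.sum_div]
      refine Finset.sum_congr rfl fun a _ => ?_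
      by_cases ha : a ∈ B
      · rw [if_pos ha, hi C', Finset.sum_div]
        refine Finset.sum_congr rfl fun b _ => ?_
        have ea : w' a = w a / W := if_pos ha
        by_cases hb : b ∈ B
        · have eb : w' b = w b / W := if_pos hb
          rw [if_pos hb, ea, eb]
          by_cases h : adj a b
          · simp [h]
          · rw [if_neg h, if_neg h]
            field_simp
        · have eb : w' b = 0 := if_neg hb
          rw [if_neg hb, eb]
          simp
      · have ea : w' a = 0 := if_neg ha
        rw [if_neg ha, zero_div]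
        refine Finset.sum_eq_zero fun b _ => ?_
        rw [ea]
        simp
    refine ⟨Fin.cons A fun i => A' i ∩ B, ?_, ?_⟩
    · intro i
      refine Fin.cases ?_ (fun i => ?_) i
      · rw [Fin.cons_zero]
        exact (min_le_left _ _).trans hA
      · rw [Fin.cons_succ]
        refine (min_le_right _ _).trans (le_trans ?_ (hmass i))
        gcongr
    · intro i j hij
      induction j using Fin.cases with
      | zero => exact absurd hij (Fin.not_lt_zero i)
      | succ j =>
        induction i using Fin.cases with
        | zero =>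
          rw [Fin.cons_zero, Fin.cons_succ]
          have h1 : nonarc adj w A (A' j ∩ B) ≤ nonarc adj w A B := by
            unfold nonarc
            refine Finset.sum_le_sum fun a _ => ?_
            refine Finset.sum_le_sum_of_subset_of_nonneg Finset.inter_subset_right ?_
            intro b _ _
            split_ifs
            · exact le_rfl
            · exact mul_nonneg (hw a) (hw b)
          have hA0 : 0 ≤ ∑ a ∈ A, w a := Finset.sum_nonneg fun a _ => hw a
          calc nonarc adj w A (A' j ∩ B) ≤ ε₁ * (∑ a ∈ A, w a) * W := h1.trans hAB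
            _ ≤ (ε * δ₀) * (∑ a ∈ A, w a) * W := by
                gcongr
                exact min_le_right _ _
            _ = ε * (∑ a ∈ A, w a) * (δ₀ * W) := by ring
            _ ≤ ε * (∑ a ∈ A, w a) * ∑ b ∈ A' j ∩ B, w b := by
                gcongr
                exact hmass j
        | succ i =>
          rw [Fin.cons_succ, Fin.cons_succ]
          have h1 := hA'2 i j (Fin.succ_lt_succ_iff.1 hij)
          rw [hnon, hsumset, hsumset, div_le_iff₀ (by positivity)] at h1
          refine h1.trans (le_of_eq ?_)
          field_simp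

end Pool.Agent.Rebel
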