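import Pool.Agent.Rebel.Defs
import Pool.Agent.Hhelper10.Dom.Stationary

/-! # Finite product expectations, stationary laws, Bessel inequality -/

set_option autoImplicit false

open Finset

namespace Pool.Agent.Rebel

/-- a probability law on a finite type -/
structure IsLaw {T : Type} [Fintype T] (mu : T → ℝ) : Prop where
  nonneg : ∀ x, 0 ≤ mu x
  sum_one : ∑ x, mu x = 1

/-- expectation of `f` for an iid family `w : ι → T` with law `mu` -/
noncomputable def EE {ι T : Type} [Fintype ι] [DecidableEq ι] [Fintype T] (mu : T → ℝ)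
    (f : (ι → T) → ℝ) : ℝ :=
  ∑ w : ι → T, (∏ i, mu (w i)) * f w

section EE

variable {ι T : Type} [Fintype ι] [DecidableEq ι] [Fintype T] {mu : T → ℝ}

theorem EE_law (h : IsLaw mu) : IsLaw (fun w : ι → T => ∏ i, mu (w i)) := by
  classical
  refine ⟨fun w => Finset.prod_nonneg fun i _ => h.nonneg _, ?_⟩
  have h2 := (Finset.prod_univ_sum (fun _ : ι => (Finset.univ : Finset T))
    (fun _ x => mu x)).symm
  rw [Fintype.piFinset_univ] at h2
  rw [h2]
  simp [h.sum_one]

theorem EE_const (h : IsLaw mu) (c : ℝ) : EE (ι := ι) mu (fun _ => c) = c := by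
  unfold EE
  rw [← Finset.sum_mul, (EE_law (ι := ι) h).sum_one, one_mul]

theorem EE_mono (h : IsLaw mu) {f g : (ι → T) → ℝ} (hfg : ∀ w, f w ≤ g w) : EE mu f ≤ EE mu g := by
  unfold EE
  exact Finset.sum_le_sum fun w _ => mul_le_mul_of_nonneg_left (hfg w) ((EE_law h).nonneg w)

theorem EE_add (f g : (ι → T) → ℝ) : EE mu (fun w => f w + g w) = EE mu f + EE mu g := by
  unfold EE
  rw [← Finset.sum_add_distrib]
  exact Finset.sum_congr rfl fun w _ => mul_add _ _ _

theorem EE_sub (f g : (ι → T) → ℝ) : EE mu (fun w => f w - g w) = EE mu f - EE mu g := by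
  unfold EE
  rw [← Finset.sum_sub_distrib]
  exact Finset.sum_congr rfl fun w _ => mul_sub _ _ _

theorem EE_mul (c : ℝ) (f : (ι → T) → ℝ) : EE mu (fun w => c * f w) = c * EE mu f := by
  unfold EE
  rw [Finset.mul_sum]
  exact Finset.sum_congr rfl fun w _ => by ring

theorem EE_sum {κ : Type} (s : Finset κ) (f : κ → (ι → T) → ℝ) :
    EE mu (fun w => ∑ k ∈ s, f k w) = ∑ k ∈ s, EE mu (f k) := by
  unfold EE
  rw [Finset.sum_comm]
  exact Finset.sum_congr rfl fun w _ => Finset.mul_sum _ _ _

theorem abs_EE_le (h : IsLaw mu) (f : (ι → T) → ℝ) : |EE mu f| ≤ EE mu (fun w => |f w|) := by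
  unfold EE
  refine (Finset.abs_sum_le_sum_abs _ _).trans (le_of_eq ?_)
  refine Finset.sum_congr rfl fun w _ => ?_
  rw [abs_mul, abs_of_nonneg ((EE_law h).nonneg w)]

/-- resampling one coordinate -/
theorem EE_resample (h : IsLaw mu) (i : ι) (f : (ι → T) → ℝ) :
    EE mu f = EE mu (fun w => ∑ x, mu x * f (Function.update w i x)) := by
  classical
  unfold EE
  have key : ∑ p : (ι → T) × T, (∏ j, mu (p.1 j)) * (mu p.2 * f (Function.update p.1 i p.2)) =
      ∑ p : (ι → T) × T, (∏ j, mu (p.1 j)) * (mu p.2 * f p.1) := by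
    refine Finset.sum_nbij' (fun p => (Function.update p.1 i p.2, p.1 i))
      (fun p => (Function.update p.1 i p.2, p.1 i)) ?_ ?_ ?_ ?_ ?_
    · intro p _; exact Finset.mem_univ _
    · intro p _; exact Finset.mem_univ _
    · rintro ⟨w, x⟩ _
      simp
    · rintro ⟨w, x⟩ _
      simp
    · rintro ⟨w, x⟩ _
      have e1 : ∏ j, mu (w j) = mu (w i) * ∏ j ∈ Finset.univ.erase i, mu (w j) :=
        (Finset.mul_prod_erase _ _ (Finset.mem_univ i)).symm
      have e2 : ∏ j, mu (Function.update w i x j) =
          mu x * ∏ j ∈ Finset.univ.erase i, mu (w j) := by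
        rw [← Finset.mul_prod_erase _ _ (Finset.mem_univ i)]
        congr 1
        · simp
        · refine Finset.prod_congr rfl fun j hj => ?_
          rw [Function.update_of_ne (Finset.ne_of_mem_erase hj)]
      dsimp only
      rw [e1, e2]
      ring
  have l1 : ∑ p : (ι → T) × T, (∏ j, mu (p.1 j)) * (mu p.2 * f (Function.update p.1 i p.2)) =
      ∑ w : ι → T, (∏ j, mu (w j)) * ∑ x, mu x * f (Function.update w i x) := by
    rw [Fintype.sum_prod_type]
    exact Finset.sum_congr rfl fun w _ => by rw [Finset.mul_sum]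
  have l2 : ∑ p : (ι → T) × T, (∏ j, mu (p.1 j)) * (mu p.2 * f p.1) =
      ∑ w : ι → T, (∏ j, mu (w j)) * f w := by
    rw [Fintype.sum_prod_type]
    refine Finset.sum_congr rfl fun w _ => ?_
    dsimp only
    rw [← Finset.mul_sum, ← Finset.sum_mul, h.sum_one, one_mul]
  rw [← l1, key, l2]

/-- permuting coordinates -/
theorem EE_perm (e : ι ≃ ι) (f : (ι → T) → ℝ) : EE mu (fun w => f (w ∘ e)) = EE mu f := by
  classical
  unfold EE
  refine Fintype.sum_equiv (e.arrowCongr (Equiv.refl T)).symm _ _ fun w => ?_
  have hw : (e.arrowCongr (Equiv.refl T)).symm w = w ∘ e := by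
    funext i
    simp [Equiv.arrowCongr]
  rw [hw]
  congr 1
  exact (Equiv.prod_comp e (fun i => mu (w i))).symm

/-- the mixture of two independent copies along a set of coordinates is again iid -/
theorem EE_piecewise (h : IsLaw mu) (D : Finset ι) : ∀ Φ : (ι → T) → ℝ,
    EE mu (fun w => EE mu (fun w' => Φ (D.piecewise w w'))) = EE mu Φ := by
  classical
  induction D using Finset.induction_on with
  | empty =>
    intro Φ
    simp only [Finset.piecewise_empty]
    exact EE_const h _
  | insert i D hi ih =>
    intro Φ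
    have e1 : ∀ w w' : ι → T, (insert i D).piecewise w w' =
        Function.update (D.piecewise w w') i (w i) := by
      intro w w'
      rw [Finset.piecewise_insert]
    simp only [e1]
    rw [EE_resample h i]
    have e2 : ∀ (w w' : ι → T) (x : T),
        Function.update (D.piecewise (Function.update w i x) w') i
          ((Function.update w i x) i) = Function.update (D.piecewise w w') i x := by
      intro w w' x
      funext j
      by_cases hj : j = i
      · subst hj; simp
      · rw [Function.update_of_ne hj, Function.update_of_ne hj]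
        by_cases hD : j ∈ D
        · rw [Finset.piecewise_eq_of_mem _ _ _ hD, Finset.piecewise_eq_of_mem _ _ _ hD,
            Function.update_of_ne hj]
        · rw [Finset.piecewise_eq_of_notMem _ _ _ hD, Finset.piecewise_eq_of_notMem _ _ _ hD]
    simp only [e2]
    have e3 : ∀ w : ι → T, ∑ x, mu x * EE mu (fun w' =>
        Φ (Function.update (D.piecewise w w') i x)) =
        EE mu (fun w' => ∑ x, mu x * Φ (Function.update (D.piecewise w w') i x)) := by
      intro w
      rw [EE_sum]
      exact Finset.sum_congr rfl fun x _ => (EE_mul _ _).symm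
    simp only [e3]
    rw [ih (fun u => ∑ x, mu x * Φ (Function.update u i x)), ← EE_resample h i]

/-- functions of disjoint sets of coordinates are independent -/
theorem EE_indep (h : IsLaw mu) {α β : Type} (D : Finset ι) (F : (ι → T) → α) (G : (ι → T) → β)
    (hF : ∀ w w', (∀ i ∈ D, w i = w' i) → F w = F w')
    (hG : ∀ w w', (∀ i, i ∉ D → w i = w' i) → G w = G w') (H : α → β → ℝ) :
    EE mu (fun w => H (F w) (G w)) = EE mu (fun w => EE mu (fun w' => H (F w) (G w'))) := by
  rw [← EE_piecewise h D]
  congr 1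
  funext w
  congr 1
  funext w'
  have e1 : F (D.piecewise w w') = F w :=
    hF _ _ fun i hi => Finset.piecewise_eq_of_mem _ _ _ hi
  have e2 : G (D.piecewise w w') = G w' :=
    hG _ _ fun i hi => Finset.piecewise_eq_of_notMem _ _ _ hi
  rw [e1, e2]

/-- Bessel inequality for the first-order projections. -/
theorem bessel (h : IsLaw mu) (g : (ι → T) → ℝ) (h0 : ∀ w, 0 ≤ g w) (h1 : ∀ w, g w ≤ 1) :
    ∑ i, ∑ x, mu x * (EE mu (fun w => g (Function.update w i x)) - EE mu g) ^ 2 ≤ 1 := by
  classical
  set m : ℝ := EE mu g with hm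
  set κ : ι → T → ℝ := fun i x => EE mu (fun w => g (Function.update w i x)) - m with hκ
  -- mean zero
  have hz : ∀ i, ∑ x, mu x * κ i x = 0 := by
    intro i
    have e := EE_resample h i g
    rw [EE_sum] at e
    have e2 : ∑ x, mu x * κ i x =
        (∑ x, EE mu (fun w => mu x * g (Function.update w i x))) - m := by
      simp only [hκ, mul_sub, Finset.sum_sub_distrib, ← Finset.sum_mul, h.sum_one, one_mul]
      congr 1
      exact Finset.sum_congr rfl fun x _ => (EE_mul _ _).symm
    rw [e2, ← e, ← hm, sub_self]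
  -- second moments
  have hii : ∀ i, EE mu (fun w => κ i (w i) * κ i (w i)) = ∑ x, mu x * κ i x ^ 2 := by
    intro i
    rw [EE_resample h i]
    simp only [Function.update_self]
    rw [EE_const h]
    exact Finset.sum_congr rfl fun x _ => by ring
  have hij : ∀ i j, i ≠ j → EE mu (fun w => κ i (w i) * κ j (w j)) = 0 := by
    intro i j hne
    rw [EE_resample h i]
    have e : ∀ w : ι → T, ∑ x, mu x * (κ i (Function.update w i x i) *
        κ j (Function.update w i x j)) = 0 := by
      intro w
      have e1 : ∀ x, mu x * (κ i (Function.update w i x i) * κ j (Function.update w i x j)) =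
          (mu x * κ i x) * κ j (w j) := by
        intro x
        rw [Function.update_self, Function.update_of_ne (Ne.symm hne)]
        ring
      simp only [e1]
      rw [← Finset.sum_mul, hz, zero_mul]
    simp only [e]
    exact EE_const h 0
  -- correlation with g
  have hg : ∀ i, EE mu (fun w => g w * κ i (w i)) = ∑ x, mu x * κ i x ^ 2 := by
    intro i
    rw [EE_resample h i]
    simp only [Function.update_self]
    rw [EE_sum]
    have e1 : ∀ x, EE mu (fun w => mu x * (g (Function.update w i x) * κ i x)) =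
        mu x * κ i x ^ 2 + m * (mu x * κ i x) := by
      intro x
      have e2 : (fun w : ι → T => mu x * (g (Function.update w i x) * κ i x)) =
          fun w => (mu x * κ i x) * g (Function.update w i x) := by
        funext w; ring
      rw [e2, EE_mul]
      have e3 : EE mu (fun w => g (Function.update w i x)) = κ i x + m := by
        simp [hκ]
      rw [e3]; ring
    simp only [e1]
    rw [Finset.sum_add_distrib, ← Finset.mul_sum, hz, mul_zero, add_zero]
  set S : ℝ := ∑ i, ∑ x, mu x * κ i x ^ 2 with hS
  have hHH : EE mu (fun w => (∑ i, κ i (w i)) * ∑ j, κ j (w j)) = S := by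
    simp only [Finset.sum_mul_sum]
    rw [EE_sum]
    refine Finset.sum_congr rfl fun i _ => ?_
    rw [EE_sum]
    rw [Finset.sum_eq_single i]
    · exact hii i
    · intro j _ hj
      exact hij i j (Ne.symm hj)
    · intro hh
      exact absurd (Finset.mem_univ _) hh
  have hgH : EE mu (fun w => g w * ∑ i, κ i (w i)) = S := by
    simp only [Finset.mul_sum]
    rw [EE_sum]
    exact Finset.sum_congr rfl fun i _ => hg i
  have hgg : EE mu (fun w => g w * g w) ≤ 1 := by
    have := EE_mono (ι := ι) h (f := fun w => g w * g w) (g := fun _ => 1)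
      (fun w => by nlinarith [h0 w, h1 w])
    rwa [EE_const h] at this
  have hpos : 0 ≤ EE mu (fun w => (g w - ∑ i, κ i (w i)) * (g w - ∑ i, κ i (w i))) := by
    have := EE_mono (ι := ι) h (f := fun _ => 0)
      (g := fun w => (g w - ∑ i, κ i (w i)) * (g w - ∑ i, κ i (w i)))
      (fun w => mul_self_nonneg _)
    rwa [EE_const h] at this
  have hexp : EE mu (fun w => (g w - ∑ i, κ i (w i)) * (g w - ∑ i, κ i (w i))) =
      EE mu (fun w => g w * g w) - 2 * EE mu (fun w => g w * ∑ i, κ i (w i)) +
        EE mu (fun w => (∑ i, κ i (w i)) * ∑ j, κ j (w j)) := by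
    rw [← EE_mul, ← EE_sub, ← EE_add]
    congr 1
    funext w
    ring
  rw [hexp, hHH, hgH] at hpos
  change S ≤ 1
  linarith

/-- stationary law (Brouwer), arbitrary finite index type -/
theorem exists_stationary' [Nonempty T] (Build : (ι → T) → T) :
    ∃ mu : T → ℝ, IsLaw mu ∧ ∀ φ : T → ℝ, EE mu (fun w => φ (Build w)) = ∑ x, mu x * φ x := by
  classical
  set e := Fintype.equivFin ι with he
  obtain ⟨lam, h0, h1, hs⟩ := Pool.Agent.Hhelper10.Dom.exists_stationary
    (fun σ : Fin (Fintype.card ι) → T => Build (σ ∘ e))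
  refine ⟨lam, ⟨h0, h1⟩, fun φ => ?_⟩
  rw [← hs φ]
  unfold EE
  refine Fintype.sum_equiv (e.arrowCongr (Equiv.refl T)) _ _ fun w => ?_
  have e1 : ((e.arrowCongr (Equiv.refl T)) w) ∘ e = w := by
    funext i
    simp [Equiv.arrowCongr]
  rw [e1]
  congr 1
  refine Fintype.prod_equiv e _ _ fun i => ?_
  simp [Equiv.arrowCongr]

end EE

end Pool.Agent.Rebel
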