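import Pool.Agent.Rebel.Prob
import Pool.Agent.Rebel.Levels

/-! # Realisation of finite posets -/

set_option autoImplicit false

open Finset

namespace Pool.Agent.Rebel

section Core

variable {V : Type} [Fintype V] {p N : ℕ} [NeZero N] (lt : Fin p → Fin p → Prop)
  (ch : Finset V → V)

open Classical in
/-- the piece of the realisation `x` below `s` -/
noncomputable def piece (s : Fin p) (x : Fin p → V) : Finset V :=
  (univ.filter (fun u => lt u s)).image x

open Classical in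
/-- the new node built over all pieces -/
noncomputable def GG (w : Fin p × Fin N → (Fin p → V)) : V :=
  ch (univ.biUnion (fun i : Fin p × Fin N => piece lt i.1 (w i)))

theorem piece_congr (s : Fin p) (x x' : Fin p → V) (h : ∀ u, lt u s → x u = x' u) :
    piece lt s x = piece lt s x' := by
  classical
  unfold piece
  apply image_congr
  intro u hu
  simp only [coe_filter, mem_univ, true_and, Set.mem_ofPred_eq] at hu
  exact h u hu

theorem GG_congr (w w' : Fin p × Fin N → (Fin p → V))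
    (h : ∀ i u, lt u i.1 → w i u = w' i u) : GG lt ch w = GG lt ch w' := by
  classical
  unfold GG
  congr 1
  ext v
  simp only [mem_biUnion, mem_univ, true_and]
  constructor
  · rintro ⟨i, hi⟩
    exact ⟨i, by rwa [← piece_congr lt i.1 _ _ (h i)]⟩
  · rintro ⟨i, hi⟩
    exact ⟨i, by rwa [piece_congr lt i.1 _ _ (h i)]⟩

theorem GG_update_congr (w : Fin p × Fin N → (Fin p → V)) (t : Fin p) (x x' : Fin p → V)
    (h : ∀ u, lt u t → x u = x' u) :
    GG lt ch (Function.update w (t, 0) x) = GG lt ch (Function.update w (t, 0) x') := by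
  apply GG_congr
  intro i u hu
  by_cases hi : i = (t, 0)
  · subst hi
    simpa using h u hu
  · simp [Function.update_of_ne hi]

/-- iterated approximation of the recursive definition -/
noncomputable def zrec (x0 : Fin p → V) :
    ℕ → (Fin p → (Fin p × Fin N → (Fin p → V))) → (Fin p → V)
  | 0, _ => x0
  | k + 1, ω => fun t => GG lt ch (Function.update (ω t) (t, 0) (zrec x0 k ω))

theorem zrec_stable (hlt : ∀ s t, lt s t → s < t) (x0 : Fin p → V) (k : ℕ) :
    ∀ (ω : Fin p → (Fin p × Fin N → (Fin p → V))) (t : Fin p), (t : ℕ) < k →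
      zrec lt ch x0 (k + 1) ω t = zrec lt ch x0 k ω t := by
  induction k with
  | zero => intro ω t ht; omega
  | succ k ih =>
    intro ω t ht
    change GG lt ch (Function.update (ω t) (t, 0) (zrec lt ch x0 (k + 1) ω)) =
      GG lt ch (Function.update (ω t) (t, 0) (zrec lt ch x0 k ω))
    apply GG_update_congr
    intro u hu
    have h1 := hlt u t hu
    rw [Fin.lt_def] at h1
    exact ih ω u (by omega)

/-- the random realisation -/
noncomputable def zz (x0 : Fin p → V) (ω : Fin p → (Fin p × Fin N → (Fin p → V))) : Fin p → V :=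
  zrec lt ch x0 p ω

theorem zz_eq (hlt : ∀ s t, lt s t → s < t) (x0 : Fin p → V)
    (ω : Fin p → (Fin p × Fin N → (Fin p → V))) (t : Fin p) :
    zz lt ch x0 ω t = GG lt ch (Function.update (ω t) (t, 0) (zz lt ch x0 ω)) :=
  (zrec_stable lt ch hlt x0 p ω t t.2).symm

theorem zz_dep (hlt : ∀ s t, lt s t → s < t) (htr : ∀ s t u, lt s t → lt t u → lt s u)
    (x0 : Fin p → V) (ω ω' : Fin p → (Fin p × Fin N → (Fin p → V))) :
    ∀ (k : ℕ) (t : Fin p), (t : ℕ) < k → (∀ u, (u = t ∨ lt u t) → ω u = ω' u) →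
      zz lt ch x0 ω t = zz lt ch x0 ω' t := by
  intro k
  induction k with
  | zero => intro t ht; omega
  | succ k ih =>
    intro t ht h
    rw [zz_eq lt ch hlt, zz_eq lt ch hlt x0 ω', h t (Or.inl rfl)]
    apply GG_update_congr
    intro u hu
    have h1 := hlt u t hu
    rw [Fin.lt_def] at h1
    refine ih u (by omega) fun v hv => h v (Or.inr ?_)
    rcases hv with rfl | hv
    · exact hu
    · exact htr v u t hv hu

/-- `z ω t` does not depend on the coordinate `s` unless `s ≤ t`. -/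
theorem zz_update (hlt : ∀ s t, lt s t → s < t) (htr : ∀ s t u, lt s t → lt t u → lt s u)
    (x0 : Fin p → V) (ω : Fin p → (Fin p × Fin N → (Fin p → V))) (s t : Fin p)
    (w : Fin p × Fin N → (Fin p → V)) (hst : t < s) :
    zz lt ch x0 (Function.update ω s w) t = zz lt ch x0 ω t := by
  refine zz_dep lt ch hlt htr x0 _ _ (t + 1) t (Nat.lt_succ_self _) fun u hu => ?_
  have : u ≠ s := by
    rintro rfl
    rcases hu with h | h
    · exact absurd h.symm hst.ne
    · exact absurd (hlt _ _ h) hst.asymm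
  rw [Function.update_of_ne this]

theorem card_pieces (w : Fin p × Fin N → (Fin p → V)) : by
    classical
    exact (univ.biUnion (fun i : Fin p × Fin N => piece lt i.1 (w i))).card ≤ p * N * p := by
  classical
  refine card_biUnion_le.trans ?_
  have h : ∀ i ∈ (univ : Finset (Fin p × Fin N)), (piece lt i.1 (w i)).card ≤ p := by
    intro i _
    unfold piece
    refine card_image_le.trans ((card_filter_le _ _).trans ?_)
    simp
  refine (sum_le_sum h).trans ?_
  simp

theorem zz_arc (hlt : ∀ s t, lt s t → s < t) (adj : V → V → Prop)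
    (hch : ∀ X : Finset V, X.card ≤ p * N * p → ∀ x ∈ X, adj (ch X) x)
    (x0 : Fin p → V) (ω : Fin p → (Fin p × Fin N → (Fin p → V))) (s t : Fin p) (hst : lt s t) :
    adj (zz lt ch x0 ω t) (zz lt ch x0 ω s) := by
  classical
  rw [zz_eq lt ch hlt x0 ω t]
  unfold GG
  refine hch _ (card_pieces lt _) _ ?_
  rw [mem_biUnion]
  refine ⟨(t, 0), mem_univ _, ?_⟩
  simp only [Function.update_self, piece, mem_image, mem_filter, mem_univ, true_and]
  exact ⟨s, hst, rfl⟩

variable (mu : (Fin p → V) → ℝ)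

/-- weight of a family of copies -/
noncomputable def qq (w : Fin p × Fin N → (Fin p → V)) : ℝ := ∏ i, mu (w i)

/-- reference law -/
noncomputable def wf (N : ℕ) [NeZero N] (f : V → ℝ) : ℝ :=
  EE (ι := Fin p × Fin N) mu (fun w => f (GG lt ch w))

/-- conditional law of the node `t` -/
noncomputable def kap (N : ℕ) [NeZero N] (t : Fin p) (x : Fin p → V) (f : V → ℝ) : ℝ :=
  EE (ι := Fin p × Fin N) mu (fun w => f (GG lt ch (Function.update w (t, 0) x)))

variable {mu}

theorem qq_law (h : IsLaw mu) : IsLaw (qq (N := N) mu) := EE_law h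

theorem kap_congr (t : Fin p) (x x' : Fin p → V) (f : V → ℝ) (h : ∀ u, lt u t → x u = x' u) :
    kap lt ch mu N t x f = kap lt ch mu N t x' f := by
  unfold kap
  congr 1
  funext w
  rw [GG_update_congr lt ch w t x x' h]

theorem kap_mul (t : Fin p) (x : Fin p → V) (c : ℝ) (f : V → ℝ) :
    kap lt ch mu N t x (fun v => c * f v) = c * kap lt ch mu N t x f := by
  unfold kap
  exact EE_mul c _

theorem kap_mem (h : IsLaw mu) (t : Fin p) (x : Fin p → V) (f : V → ℝ) (h0 : ∀ v, 0 ≤ f v)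
    (h1 : ∀ v, f v ≤ 1) : 0 ≤ kap lt ch mu N t x f ∧ kap lt ch mu N t x f ≤ 1 := by
  unfold kap
  constructor
  · rw [← EE_const (ι := Fin p × Fin N) h 0]
    exact EE_mono h fun w => h0 _
  · rw [← EE_const (ι := Fin p × Fin N) h 1]
    exact EE_mono h fun w => h1 _

theorem wf_mem (h : IsLaw mu) (f : V → ℝ) (h0 : ∀ v, 0 ≤ f v)
    (h1 : ∀ v, f v ≤ 1) : 0 ≤ wf lt ch mu N f ∧ wf lt ch mu N f ≤ 1 := by
  unfold wf
  constructor
  · rw [← EE_const (ι := Fin p × Fin N) h 0]
    exact EE_mono h fun w => h0 _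
  · rw [← EE_const (ι := Fin p × Fin N) h 1]
    exact EE_mono h fun w => h1 _

/-- invariance of `GG` under permutations of the copies -/
theorem GG_perm (e : Fin p × Fin N ≃ Fin p × Fin N) (he : ∀ i, (e i).1 = i.1)
    (w : Fin p × Fin N → (Fin p → V)) : GG lt ch (w ∘ e) = GG lt ch w := by
  classical
  unfold GG
  congr 1
  ext v
  simp only [mem_biUnion, mem_univ, true_and, Function.comp]
  constructor
  · rintro ⟨i, hi⟩
    exact ⟨e i, by rw [he]; exact hi⟩
  · rintro ⟨i, hi⟩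
    refine ⟨e.symm i, ?_⟩
    have : (e.symm i).1 = i.1 := by
      have := he (e.symm i)
      rw [Equiv.apply_symm_apply] at this
      exact this.symm
    rw [this, Equiv.apply_symm_apply]
    exact hi

theorem kap_copy (t : Fin p) (b : Fin N) (x : Fin p → V) (f : V → ℝ) :
    EE (ι := Fin p × Fin N) mu (fun w => f (GG lt ch (Function.update w (t, b) x))) =
      kap lt ch mu N t x f := by
  classical
  unfold kap
  set e : Fin p × Fin N ≃ Fin p × Fin N := Equiv.swap (t, 0) (t, b) with he_def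
  have he : ∀ i, (e i).1 = i.1 := by
    intro i
    rw [he_def, Equiv.swap_apply_def]
    split_ifs with h1 h2
    · rw [h1]
    · rw [h2]
    · rfl
  rw [← EE_perm e (fun w => f (GG lt ch (Function.update w (t, 0) x)))]
  congr 1
  funext w
  congr 1
  rw [← GG_perm lt ch e he (Function.update w (t, b) x)]
  congr 1
  funext i
  simp only [Function.comp]
  by_cases hi : i = (t, 0)
  · subst hi
    have : e (t, 0) = (t, b) := Equiv.swap_apply_left _ _
    rw [this]
    simp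
  · rw [Function.update_of_ne hi]
    have : e i ≠ (t, b) := by
      intro h
      apply hi
      apply e.injective
      rw [h]
      exact (Equiv.swap_apply_left _ _).symm
    rw [Function.update_of_ne this]
    rfl

/-- (K1) -/
theorem kap_near (h : IsLaw mu) (η : ℝ) (hη : 0 ≤ η) (hN : 1 ≤ (N : ℝ) * η ^ 2) (t : Fin p)
    (f : V → ℝ) (h0 : ∀ v, 0 ≤ f v) (h1 : ∀ v, f v ≤ 1) :
    ∑ x, mu x * |kap lt ch mu N t x f - wf lt ch mu N f| ≤ η := by
  classical
  have hb := bessel (ι := Fin p × Fin N) h (fun w => f (GG lt ch w)) (fun w => h0 _) (fun w => h1 _)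
  set A : ℝ := ∑ x, mu x * (kap lt ch mu N t x f - wf lt ch mu N f) ^ 2 with hA
  have hA0 : 0 ≤ A := sum_nonneg fun x _ => mul_nonneg (h.nonneg x) (sq_nonneg _)
  have h2 : (N : ℝ) * A ≤ 1 := by
    refine le_trans ?_ hb
    have h3 : ∀ i : Fin p × Fin N, 0 ≤ ∑ x, mu x *
        (EE (ι := Fin p × Fin N) mu (fun w => f (GG lt ch (Function.update w i x))) -
          EE (ι := Fin p × Fin N) mu (fun w => f (GG lt ch w))) ^ 2 :=
      fun i => by
        refine sum_nonneg fun x _ => ?_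
        exact mul_nonneg (h.nonneg x) (sq_nonneg _)
    have h4 : ∑ b : Fin N, ∑ x, mu x *
        (EE (ι := Fin p × Fin N) mu (fun w => f (GG lt ch (Function.update w (t, b) x))) -
          EE (ι := Fin p × Fin N) mu (fun w => f (GG lt ch w))) ^ 2 = (N : ℝ) * A := by
      rw [hA]
      simp_rw [kap_copy]
      rw [sum_const, card_univ, Fintype.card_fin, nsmul_eq_mul]
      rfl
    rw [← h4, Fintype.sum_prod_type]
    exact single_le_sum (f := fun s => ∑ b : Fin N, ∑ x, mu x *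
        (EE (ι := Fin p × Fin N) mu (fun w => f (GG lt ch (Function.update w (s, b) x))) -
          EE (ι := Fin p × Fin N) mu (fun w => f (GG lt ch w))) ^ 2)
      (fun s _ => sum_nonneg fun b _ => h3 (s, b)) (mem_univ t)
  -- Cauchy-Schwarz
  set B : ℝ := ∑ x, mu x * |kap lt ch mu N t x f - wf lt ch mu N f| with hB
  have hB0 : 0 ≤ B := sum_nonneg fun x _ => mul_nonneg (h.nonneg x) (abs_nonneg _)
  have h5 : B ^ 2 ≤ A := by
    have h6 : 0 ≤ ∑ x, mu x * (|kap lt ch mu N t x f - wf lt ch mu N f| - B) ^ 2 :=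
      sum_nonneg fun x _ => mul_nonneg (h.nonneg x) (sq_nonneg _)
    have h7 : ∑ x, mu x * (|kap lt ch mu N t x f - wf lt ch mu N f| - B) ^ 2 =
        A - 2 * B * B + B ^ 2 * ∑ x, mu x := by
      have h7' : ∑ x, mu x * (|kap lt ch mu N t x f - wf lt ch mu N f| - B) ^ 2 =
          ∑ x, (mu x * (kap lt ch mu N t x f - wf lt ch mu N f) ^ 2 -
            2 * B * (mu x * |kap lt ch mu N t x f - wf lt ch mu N f|) + B ^ 2 * mu x) := by
        refine sum_congr rfl fun x _ => ?_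
        rw [← sq_abs (kap lt ch mu N t x f - wf lt ch mu N f)]
        ring
      rw [h7', sum_add_distrib, sum_sub_distrib, ← mul_sum, ← mul_sum]
    rw [h7, h.sum_one] at h6
    nlinarith
  have hNpos : 0 < (N : ℝ) := by
    have := NeZero.pos N
    exact_mod_cast this
  have h8 : B ^ 2 ≤ η ^ 2 := by
    have h9 : (N : ℝ) * B ^ 2 ≤ N * η ^ 2 := by nlinarith
    exact le_of_mul_le_mul_left h9 hNpos
  exact abs_le_of_sq_le_sq' h8 hη |>.2

section Stat

variable (x0 : Fin p → V) (hlt : ∀ s t, lt s t → s < t)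
  (htr : ∀ s t u, lt s t → lt t u → lt s u) (h : IsLaw mu)
  (hst : ∀ φ : (Fin p → V) → ℝ,
    EE (ι := Fin p) (qq (N := N) mu) (fun ω => φ (zz lt ch x0 ω)) = ∑ x, mu x * φ x)

include hlt htr h

/-- (K2) conditioning on everything except the coordinate `t` -/
theorem cond (t : Fin p) (Ψ : (Fin p → (Fin p × Fin N → (Fin p → V))) → V → ℝ)
    (hΨ : ∀ ω w, Ψ (Function.update ω t w) = Ψ ω) :
    EE (ι := Fin p) (qq (N := N) mu) (fun ω => Ψ ω (zz lt ch x0 ω t)) =
      EE (ι := Fin p) (qq (N := N) mu) (fun ω => kap lt ch mu N t (zz lt ch x0 ω) (Ψ ω)) := by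
  rw [EE_resample (qq_law h) t]
  congr 1
  funext ω
  unfold kap EE
  refine sum_congr rfl fun w _ => ?_
  have h1 : zz lt ch x0 (Function.update ω t w) t =
      GG lt ch (Function.update w (t, 0) (zz lt ch x0 ω)) := by
    rw [zz_eq lt ch hlt, Function.update_self]
    apply GG_update_congr
    intro u hu
    exact zz_update lt ch hlt htr x0 ω t u w (hlt u t hu)
  rw [hΨ, h1]
  rfl

include hst

theorem kap_near' (η : ℝ) (hη : 0 ≤ η) (hN : 1 ≤ (N : ℝ) * η ^ 2) (t : Fin p)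
    (f : V → ℝ) (h0 : ∀ v, 0 ≤ f v) (h1 : ∀ v, f v ≤ 1) :
    EE (ι := Fin p) (qq (N := N) mu)
      (fun ω => |kap lt ch mu N t (zz lt ch x0 ω) f - wf lt ch mu N f|) ≤ η := by
  rw [hst (fun x => |kap lt ch mu N t x f - wf lt ch mu N f|)]
  exact kap_near lt ch h η hη hN t f h0 h1

/-- one step: removing the node `t` -/
theorem remove (η : ℝ) (hη : 0 ≤ η) (hN : 1 ≤ (N : ℝ) * η ^ 2) (t : Fin p)
    (f : V → ℝ) (h0 : ∀ v, 0 ≤ f v) (h1 : ∀ v, f v ≤ 1)
    (Φ : (Fin p → (Fin p × Fin N → (Fin p → V))) → ℝ)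
    (hΦ : ∀ ω w, Φ (Function.update ω t w) = Φ ω) (hΦ0 : ∀ ω, 0 ≤ Φ ω) (hΦ1 : ∀ ω, Φ ω ≤ 1) :
    |EE (ι := Fin p) (qq (N := N) mu) (fun ω => Φ ω * f (zz lt ch x0 ω t)) -
      wf lt ch mu N f * EE (ι := Fin p) (qq (N := N) mu) Φ| ≤ η := by
  rw [cond lt ch x0 hlt htr h t (fun ω v => Φ ω * f v) (fun ω w => by rw [hΦ]), ← EE_mul,
    ← EE_sub]
  refine (abs_EE_le (qq_law h) _).trans ?_
  refine le_trans ?_ (kap_near' lt ch x0 hlt htr h hst η hη hN t f h0 h1)
  refine EE_mono (qq_law h) fun ω => ?_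
  rw [kap_mul]
  rw [show Φ ω * kap lt ch mu N t (zz lt ch x0 ω) f - wf lt ch mu N f * Φ ω =
    Φ ω * (kap lt ch mu N t (zz lt ch x0 ω) f - wf lt ch mu N f) by ring, abs_mul,
    abs_of_nonneg (hΦ0 ω)]
  exact mul_le_of_le_one_left (abs_nonneg _) (hΦ1 ω)

/-- (K3) product lemma -/
theorem prodlemma (η : ℝ) (hη : 0 ≤ η) (hN : 1 ≤ (N : ℝ) * η ^ 2)
    (f : Fin p → V → ℝ) (h0 : ∀ u v, 0 ≤ f u v) (h1 : ∀ u v, f u v ≤ 1) (k0 : ℕ)
    (Φ : (Fin p → (Fin p × Fin N → (Fin p → V))) → ℝ)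
    (hΦ : ∀ t : Fin p, k0 ≤ t → ∀ ω w, Φ (Function.update ω t w) = Φ ω)
    (hΦ0 : ∀ ω, 0 ≤ Φ ω) (hΦ1 : ∀ ω, Φ ω ≤ 1) (k : ℕ) (hk : k0 + k ≤ p) :
    |EE (ι := Fin p) (qq (N := N) mu) (fun ω => Φ ω *
        ∏ u ∈ univ.filter (fun u : Fin p => k0 ≤ (u : ℕ) ∧ (u : ℕ) < k0 + k),
          f u (zz lt ch x0 ω u)) -
      (∏ u ∈ univ.filter (fun u : Fin p => k0 ≤ (u : ℕ) ∧ (u : ℕ) < k0 + k),
        wf lt ch mu N (f u)) * EE (ι := Fin p) (qq (N := N) mu) Φ| ≤ k * η := by
  induction k with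
  | zero =>
    have : univ.filter (fun u : Fin p => k0 ≤ (u : ℕ) ∧ (u : ℕ) < k0 + 0) = ∅ := by
      rw [filter_eq_empty_iff]
      intro u _
      omega
    rw [this]
    simp
  | succ k ih =>
    have hkp : k0 + k < p := by omega
    set t : Fin p := ⟨k0 + k, hkp⟩ with ht
    have hins : univ.filter (fun u : Fin p => k0 ≤ (u : ℕ) ∧ (u : ℕ) < k0 + (k + 1)) =
        insert t (univ.filter (fun u : Fin p => k0 ≤ (u : ℕ) ∧ (u : ℕ) < k0 + k)) := by
      ext u
      simp only [mem_filter, mem_univ, true_and, mem_insert, ht, Fin.ext_iff]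
      omega
    have hnot : t ∉ univ.filter (fun u : Fin p => k0 ≤ (u : ℕ) ∧ (u : ℕ) < k0 + k) := by
      simp [ht]
    rw [hins, prod_insert hnot]
    simp_rw [prod_insert hnot]
    set P : (Fin p → (Fin p × Fin N → (Fin p → V))) → ℝ := fun ω => Φ ω *
        ∏ u ∈ univ.filter (fun u : Fin p => k0 ≤ (u : ℕ) ∧ (u : ℕ) < k0 + k),
          f u (zz lt ch x0 ω u) with hP
    have hprod0 : ∀ ω : Fin p → (Fin p × Fin N → (Fin p → V)),
        0 ≤ ∏ u ∈ univ.filter (fun u : Fin p => k0 ≤ (u : ℕ) ∧ (u : ℕ) < k0 + k),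
          f u (zz lt ch x0 ω u) := fun ω => prod_nonneg fun u _ => h0 _ _
    have hprod1 : ∀ ω : Fin p → (Fin p × Fin N → (Fin p → V)),
        ∏ u ∈ univ.filter (fun u : Fin p => k0 ≤ (u : ℕ) ∧ (u : ℕ) < k0 + k),
          f u (zz lt ch x0 ω u) ≤ 1 := fun ω => prod_le_one (fun u _ => h0 _ _) fun u _ => h1 _ _
    have hP0 : ∀ ω, 0 ≤ P ω := fun ω => mul_nonneg (hΦ0 ω) (hprod0 ω)
    have hP1 : ∀ ω, P ω ≤ 1 := fun ω => mul_le_one₀ (hΦ1 ω) (hprod0 ω) (hprod1 ω)
    have hPt : ∀ ω w, P (Function.update ω t w) = P ω := by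
      intro ω w
      simp only [hP]
      rw [hΦ t (by simp [ht])]
      congr 1
      refine prod_congr rfl fun u hu => ?_
      rw [zz_update lt ch hlt htr x0 ω t u w]
      rw [Fin.lt_def, ht]
      exact (mem_filter.1 hu).2.2
    have h2 := remove lt ch x0 hlt htr h hst η hη hN t (f t) (h0 t) (h1 t) P hPt hP0 hP1
    have h3 := ih (by omega)
    have h4 : (fun ω => Φ ω * (f t (zz lt ch x0 ω t) *
        ∏ u ∈ univ.filter (fun u : Fin p => k0 ≤ (u : ℕ) ∧ (u : ℕ) < k0 + k),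
          f u (zz lt ch x0 ω u))) = fun ω => P ω * f t (zz lt ch x0 ω t) := by
      funext ω
      simp only [hP]
      ring
    rw [h4]
    set D := ∏ u ∈ univ.filter (fun u : Fin p => k0 ≤ (u : ℕ) ∧ (u : ℕ) < k0 + k),
        wf lt ch mu N (f u) with hD
    obtain ⟨hw0, hw1⟩ := wf_mem (N := N) lt ch h (f t) (h0 t) (h1 t)
    rw [abs_le] at h2 h3 ⊢
    set a := EE (ι := Fin p) (qq (N := N) mu) (fun ω => P ω * f t (zz lt ch x0 ω t))
    set b := EE (ι := Fin p) (qq (N := N) mu) P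
    set c := EE (ι := Fin p) (qq (N := N) mu) Φ
    set wt := wf lt ch mu N (f t)
    have hkη : 0 ≤ (k : ℝ) * η := mul_nonneg (Nat.cast_nonneg _) hη
    have e1 : wt * (b - D * c) ≤ k * η := by
      calc wt * (b - D * c) ≤ wt * (k * η) := mul_le_mul_of_nonneg_left h3.2 hw0
        _ ≤ 1 * (k * η) := mul_le_mul_of_nonneg_right hw1 hkη
        _ = k * η := one_mul _
    have e2 : -(k * η) ≤ wt * (b - D * c) := by
      calc -(k * η) = 1 * (-(k * η)) := (one_mul _).symm
        _ ≤ wt * (-(k * η)) := mul_le_mul_of_nonpos_right hw1 (neg_nonpos.2 hkη)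
        _ ≤ wt * (b - D * c) := mul_le_mul_of_nonneg_left h3.1 hw0
    push_cast
    constructor
    · nlinarith [h2.1, e2]
    · nlinarith [h2.2, e1]

/-- (K4) -/
theorem kap_indep (η : ℝ) (hη : 0 ≤ η) (hN : 1 ≤ (N : ℝ) * η ^ 2) (s t : Fin p)
    (hcl : ∀ u, ¬ ((u = s ∨ lt u s) ∧ lt u t))
    (B : V → V → ℝ) (h0 : ∀ a v, 0 ≤ B a v) (h1 : ∀ a v, B a v ≤ 1) :
    EE (ι := Fin p) (qq (N := N) mu)
      (fun ω => |kap lt ch mu N t (zz lt ch x0 ω) (B (zz lt ch x0 ω s)) -
        wf lt ch mu N (B (zz lt ch x0 ω s))|) ≤ η := by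
  classical
  rw [EE_indep (qq_law h) (α := V) (β := (V → ℝ) → ℝ)
    (univ.filter (fun u => u = s ∨ lt u s)) (fun ω => zz lt ch x0 ω s)
    (fun ω => kap lt ch mu N t (zz lt ch x0 ω)) ?_ ?_
    (fun a κ => |κ (B a) - wf lt ch mu N (B a)|)]
  · rw [← EE_const (ι := Fin p) (qq_law (N := N) h) η]
    refine EE_mono (qq_law h) fun ω => ?_
    exact kap_near' lt ch x0 hlt htr h hst η hη hN t (B (zz lt ch x0 ω s)) (h0 _) (h1 _)
  · intro ω ω' hω
    refine zz_dep lt ch hlt htr x0 ω ω' (s + 1) s (Nat.lt_succ_self _) fun u hu => hω u ?_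
    simp only [mem_filter, mem_univ, true_and]
    exact hu
  · intro ω ω' hω
    funext f
    apply kap_congr
    intro u hu
    refine zz_dep lt ch hlt htr x0 ω ω' (u + 1) u (Nat.lt_succ_self _) fun v hv => hω v ?_
    simp only [mem_filter, mem_univ, true_and]
    intro hvs
    apply hcl v
    refine ⟨hvs, ?_⟩
    rcases hv with rfl | hv
    · exact hu
    · exact htr v u t hv hu

/-- (K5) -/
theorem badpair (η : ℝ) (hη : 0 ≤ η) (hN : 1 ≤ (N : ℝ) * η ^ 2) (s t : Fin p) (hst' : s < t)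
    (hcl : ∀ u, ¬ ((u = s ∨ lt u s) ∧ lt u t))
    (f : Fin p → V → ℝ) (h0 : ∀ u v, 0 ≤ f u v) (h1 : ∀ u v, f u v ≤ 1)
    (R : V → V → ℝ) (hR0 : ∀ a v, 0 ≤ R a v) (hR1 : ∀ a v, R a v ≤ 1) :
    EE (ι := Fin p) (qq (N := N) mu)
      (fun ω => (∏ u, f u (zz lt ch x0 ω u)) * R (zz lt ch x0 ω s) (zz lt ch x0 ω t)) ≤
      wf lt ch mu N (fun a => f s a * wf lt ch mu N (fun b => f t b * R a b)) *
        (∏ u ∈ univ.erase s |>.erase t, wf lt ch mu N (f u)) + (p + 1) * η := by
  classical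
  have hstn : (s : ℕ) < t := hst'
  -- the function before `t`
  set B : V → V → ℝ := fun a b => f t b * R a b with hB
  have hB0 : ∀ a v, 0 ≤ B a v := fun a v => mul_nonneg (h0 _ _) (hR0 _ _)
  have hB1 : ∀ a v, B a v ≤ 1 := fun a v => mul_le_one₀ (h1 _ _) (hR0 _ _) (hR1 _ _)
  set P : (Fin p → (Fin p × Fin N → (Fin p → V))) → ℝ := fun ω =>
    ∏ u ∈ univ.filter (fun u : Fin p => (u : ℕ) < t), f u (zz lt ch x0 ω u) with hP
  have hP0 : ∀ ω, 0 ≤ P ω := fun ω => prod_nonneg fun u _ => h0 _ _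
  have hP1 : ∀ ω, P ω ≤ 1 := fun ω => prod_le_one (fun u _ => h0 _ _) fun u _ => h1 _ _
  set Q : (Fin p → (Fin p × Fin N → (Fin p → V))) → ℝ := fun ω =>
    P ω * B (zz lt ch x0 ω s) (zz lt ch x0 ω t) with hQ
  have hQ0 : ∀ ω, 0 ≤ Q ω := fun ω => mul_nonneg (hP0 ω) (hB0 _ _)
  have hQ1 : ∀ ω, Q ω ≤ 1 := fun ω => mul_le_one₀ (hP1 ω) (hB0 _ _) (hB1 _ _)
  -- step 1: nodes above `t`
  have hQdep : ∀ t' : Fin p, (t : ℕ) + 1 ≤ t' → ∀ ω w, Q (Function.update ω t' w) = Q ω := by
    intro t' ht' ω w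
    have hlt' : ∀ u : Fin p, (u : ℕ) ≤ t → zz lt ch x0 (Function.update ω t' w) u =
        zz lt ch x0 ω u := fun u hu => zz_update lt ch hlt htr x0 ω t' u w
          (by rw [Fin.lt_def]; omega)
    simp only [hQ, hP]
    rw [hlt' s (by omega), hlt' t le_rfl]
    congr 1
    refine prod_congr rfl fun u hu => ?_
    rw [hlt' u (le_of_lt (mem_filter.1 hu).2)]
  have s1 := prodlemma lt ch x0 hlt htr h hst η hη hN f h0 h1 (t + 1) Q hQdep hQ0 hQ1
    (p - (t + 1)) (by have := t.2; omega)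
  have htp := t.2
  have hidx : (t : ℕ) + 1 + (p - (t + 1)) = p := by omega
  rw [hidx] at s1
  set U : Finset (Fin p) := univ.filter (fun u : Fin p => (t : ℕ) + 1 ≤ (u : ℕ) ∧ (u : ℕ) < p)
    with hU
  have hprodall : ∀ ω, (∏ u, f u (zz lt ch x0 ω u)) * R (zz lt ch x0 ω s) (zz lt ch x0 ω t) =
      Q ω * ∏ u ∈ U, f u (zz lt ch x0 ω u) := by
    intro ω
    have hsplit : (univ : Finset (Fin p)) =
        insert t (univ.filter (fun u : Fin p => (u : ℕ) < t) ∪ U) := by
      ext u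
      simp only [mem_univ, mem_insert, mem_union, mem_filter, true_and, hU, true_iff, Fin.ext_iff]
      have := u.2
      omega
    have hnot : t ∉ (univ.filter (fun u : Fin p => (u : ℕ) < t) ∪ U) := by
      simp [hU]
    have hdis : Disjoint (univ.filter (fun u : Fin p => (u : ℕ) < t)) U := by
      rw [disjoint_left]
      intro u hu hu'
      simp only [mem_filter, mem_univ, true_and, hU] at hu hu'
      omega
    rw [hsplit, prod_insert hnot, prod_union hdis]
    simp only [hQ, hP, hB]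
    ring
  -- step 2: node `t`
  have hPs : ∀ ω w, P (Function.update ω t w) = P ω := by
    intro ω w
    simp only [hP]
    refine prod_congr rfl fun u hu => ?_
    rw [zz_update lt ch hlt htr x0 ω t u w (Fin.lt_def.2 (mem_filter.1 hu).2)]
  have s2 : EE (ι := Fin p) (qq (N := N) mu) Q =
      EE (ι := Fin p) (qq (N := N) mu)
        (fun ω => P ω * kap lt ch mu N t (zz lt ch x0 ω) (B (zz lt ch x0 ω s))) := by
    rw [hQ, cond lt ch x0 hlt htr h t (fun ω v => P ω * B (zz lt ch x0 ω s) v) (by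
      intro ω w
      funext v
      rw [hPs, zz_update lt ch hlt htr x0 ω t s w hst'])]
    congr 1
    funext ω
    rw [kap_mul]
  have s3 : EE (ι := Fin p) (qq (N := N) mu) Q ≤
      EE (ι := Fin p) (qq (N := N) mu) (fun ω => P ω * wf lt ch mu N (B (zz lt ch x0 ω s))) + η := by
    rw [s2]
    have h5 := kap_indep lt ch x0 hlt htr h hst η hη hN s t hcl B hB0 hB1
    refine le_trans ?_ (add_le_add_right h5 _)
    rw [← EE_add]
    refine EE_mono (qq_law h) fun ω => ?_
    have h6 : kap lt ch mu N t (zz lt ch x0 ω) (B (zz lt ch x0 ω s)) -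
        wf lt ch mu N (B (zz lt ch x0 ω s)) ≤ |kap lt ch mu N t (zz lt ch x0 ω)
          (B (zz lt ch x0 ω s)) - wf lt ch mu N (B (zz lt ch x0 ω s))| := le_abs_self _
    nlinarith [hP0 ω, hP1 ω, abs_nonneg (kap lt ch mu N t (zz lt ch x0 ω)
          (B (zz lt ch x0 ω s)) - wf lt ch mu N (B (zz lt ch x0 ω s)))]
  -- step 3: nodes below `t`
  set f' : Fin p → V → ℝ := fun u => if u = s then fun a => f s a * wf lt ch mu N (B a) else f u
    with hf'
  have hf'0 : ∀ u v, 0 ≤ f' u v := by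
    intro u v
    simp only [hf']
    split_ifs
    · exact mul_nonneg (h0 _ _) (wf_mem lt ch h _ (hB0 _) (hB1 _)).1
    · exact h0 _ _
  have hf'1 : ∀ u v, f' u v ≤ 1 := by
    intro u v
    simp only [hf']
    split_ifs
    · exact mul_le_one₀ (h1 _ _) (wf_mem lt ch h _ (hB0 _) (hB1 _)).1
        (wf_mem lt ch h _ (hB0 _) (hB1 _)).2
    · exact h1 _ _
  have s4 := prodlemma lt ch x0 hlt htr h hst η hη hN f' hf'0 hf'1 0 (fun _ => 1)
    (fun _ _ _ _ => rfl) (fun _ => zero_le_one) (fun _ => le_rfl) t (by omega)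
  rw [EE_const (qq_law h)] at s4
  have hfil : univ.filter (fun u : Fin p => 0 ≤ (u : ℕ) ∧ (u : ℕ) < 0 + t) =
      univ.filter (fun u : Fin p => (u : ℕ) < t) := by
    ext u
    simp
  rw [hfil] at s4
  set L : Finset (Fin p) := univ.filter (fun u : Fin p => (u : ℕ) < t) with hL
  have hsL : s ∈ L := by
    rw [hL, mem_filter]
    exact ⟨mem_univ _, hstn⟩
  have e5 : (fun ω : Fin p → (Fin p × Fin N → (Fin p → V)) => (1 : ℝ) *
      ∏ u ∈ L, f' u (zz lt ch x0 ω u)) =
      fun ω => P ω * wf lt ch mu N (B (zz lt ch x0 ω s)) := by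
    funext ω
    rw [one_mul]
    simp only [hP]
    rw [← mul_prod_erase L _ hsL, ← mul_prod_erase L (fun u => f u (zz lt ch x0 ω u)) hsL]
    have : ∏ u ∈ L.erase s, f' u (zz lt ch x0 ω u) = ∏ u ∈ L.erase s, f u (zz lt ch x0 ω u) := by
      refine prod_congr rfl fun u hu => ?_
      simp only [hf', if_neg (ne_of_mem_erase hu)]
    rw [this]
    simp only [hf', if_true]
    ring
  have e6 : ∏ u ∈ L, wf lt ch mu N (f' u) =
      wf lt ch mu N (fun a => f s a * wf lt ch mu N (B a)) *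
        ∏ u ∈ L.erase s, wf lt ch mu N (f u) := by
    rw [← mul_prod_erase L _ hsL]
    congr 1
    · simp only [hf', if_true]
    · refine prod_congr rfl fun u hu => ?_
      simp only [hf', if_neg (ne_of_mem_erase hu)]
  rw [e5, e6, mul_one] at s4
  -- assembly
  have hset : (univ.erase s).erase t = L.erase s ∪ U := by
    ext u
    simp only [mem_erase, mem_univ, and_true, mem_union, hL, hU, mem_filter, true_and, ne_eq,
      Fin.ext_iff]
    have := u.2
    omega
  have hdis' : Disjoint (L.erase s) U := by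
    rw [disjoint_left]
    intro u hu hu'
    simp only [mem_filter, mem_univ, true_and, hU, hL, mem_erase] at hu hu'
    omega
  rw [hset, prod_union hdis']
  simp_rw [hprodall]
  set X := EE (ι := Fin p) (qq (N := N) mu) (fun ω => Q ω * ∏ u ∈ U, f u (zz lt ch x0 ω u))
  set Y := EE (ι := Fin p) (qq (N := N) mu) Q
  set Z := EE (ι := Fin p) (qq (N := N) mu)
    (fun ω => P ω * wf lt ch mu N (B (zz lt ch x0 ω s)))
  set DU := ∏ u ∈ U, wf lt ch mu N (f u) with hDU
  set DL := ∏ u ∈ L.erase s, wf lt ch mu N (f u) with hDL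
  set ρ := wf lt ch mu N (fun a => f s a * wf lt ch mu N (B a)) with hρ
  have hDU0 : 0 ≤ DU := prod_nonneg fun u _ => (wf_mem lt ch h _ (h0 u) (h1 u)).1
  have hDU1 : DU ≤ 1 := prod_le_one (fun u _ => (wf_mem lt ch h _ (h0 u) (h1 u)).1)
    fun u _ => (wf_mem lt ch h _ (h0 u) (h1 u)).2
  have k1 := (abs_le.1 s1).2
  have k2 := (abs_le.1 s4).2
  have hcast : ((p - ((t : ℕ) + 1) : ℕ) : ℝ) = (p : ℝ) - (t + 1) := by
    rw [Nat.cast_sub (by omega)]
    push_cast
    ring
  rw [hcast] at k1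
  have k3 : Y ≤ ρ * DL + t * η + η := by linarith
  have k4 : DU * Y ≤ DU * (ρ * DL) + (t * η + η) := by
    have : 0 ≤ (t : ℝ) * η + η := by positivity
    nlinarith
  nlinarith [k1, k4]

end Stat

/-- weights of the reference law -/
noncomputable def wlaw (mu : (Fin p → V) → ℝ) (N : ℕ) [NeZero N] (v : V) : ℝ :=
  open Classical in wf lt ch mu N (fun v' => if v' = v then 1 else 0)

theorem wf_eq_sum (f : V → ℝ) : wf lt ch mu N f = ∑ v, wlaw lt ch mu N v * f v := by
  classical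
  have h1 : wf lt ch mu N f = EE (ι := Fin p × Fin N) mu
      (fun w => ∑ v, f v * (if GG lt ch w = v then 1 else 0)) := by
    unfold wf
    congr 1
    funext w
    simp
  rw [h1, EE_sum]
  refine sum_congr rfl fun v _ => ?_
  rw [EE_mul, mul_comm]
  rfl

theorem wlaw_nonneg (h : IsLaw mu) (v : V) : 0 ≤ wlaw lt ch mu N v := by
  classical
  unfold wlaw
  refine (wf_mem lt ch h _ ?_ ?_).1
  · intro v'; split_ifs <;> norm_num
  · intro v'; split_ifs <;> norm_num

theorem wlaw_sum (h : IsLaw mu) : ∑ v, wlaw lt ch mu N v = 1 := by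
  have h1 := wf_eq_sum (N := N) (mu := mu) lt ch (fun _ => 1)
  simp only [mul_one] at h1
  rw [← h1]
  unfold wf
  exact EE_const h 1

end Core

/-- Realisation of a finite poset (given on `Fin p`, compatible with the order of `Fin p`). -/
theorem exists_realisation {p L : ℕ} (lt : Fin p → Fin p → Prop)
    (hlt : ∀ s t, lt s t → s < t) (htr : ∀ s t u, lt s t → lt t u → lt s u)
    (hne : ∃ s t, lt s t) (lev : Fin p → Fin L) {m : ℕ} (S : Fin m → Fin m → Prop)
    (hS : IsTour S) :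
    ∃ K : ℕ, ∀ (V : Type) [Fintype V] (adj : V → V → Prop), IsTour adj → ¬ Copy S adj →
      (∀ X : Finset V, X.card ≤ K → ∃ v, ∀ x ∈ X, adj v x) →
      ∃ z : Fin p → V, (∀ s t, lt s t → adj (z t) (z s)) ∧
        ∀ s t, (∀ u, ¬ ((u = s ∨ lt u s) ∧ (u = t ∨ lt u t))) → lev s < lev t →
          adj (z s) (z t) := by
  classical
  obtain ⟨s0, t0, hst0⟩ := hne
  have hp : 0 < p := by have := t0.2; omega
  have hpR : (0 : ℝ) < p := by exact_mod_cast hp
  set ε : ℝ := 1 / (4 * (p : ℝ) ^ 2) with hε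
  have hε0 : 0 < ε := by positivity
  obtain ⟨δ, hδ, α, hα, hlev⟩ := exists_levels S hS L ε hε0
  set η : ℝ := min (α ^ 2 / 2) (min 1 (δ ^ p / (4 * ((p : ℝ) + 1) ^ 3))) with hη_def
  have hη0 : 0 < η := by
    refine lt_min (by positivity) (lt_min one_pos (by positivity))
  have hη1 : η ≤ α ^ 2 / 2 := min_le_left _ _
  have hη2 : η ≤ 1 := (min_le_right _ _).trans (min_le_left _ _)
  have hη3 : η ≤ δ ^ p / (4 * ((p : ℝ) + 1) ^ 3) := (min_le_right _ _).trans (min_le_right _ _)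
  obtain ⟨N, hN⟩ := exists_nat_gt (1 / η ^ 2)
  have hη2pos : 0 < η ^ 2 := by positivity
  have hNη : 1 ≤ (N : ℝ) * η ^ 2 := by
    rw [div_lt_iff₀ hη2pos] at hN
    exact hN.le
  have hNpos : 0 < N := by
    rcases Nat.eq_zero_or_pos N with h | h
    · rw [h] at hNη
      norm_num at hNη
    · exact h
  haveI : NeZero N := ⟨hNpos.ne'⟩
  refine ⟨p * N * p, fun V _ adj hT hC hX => ?_⟩
  have hch' : ∀ X : Finset V, ∃ v, X.card ≤ p * N * p → ∀ x ∈ X, adj v x := by
    intro X
    by_cases h : X.card ≤ p * N * p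
    · obtain ⟨v, hv⟩ := hX X h
      exact ⟨v, fun _ => hv⟩
    · obtain ⟨v, _⟩ := hX ∅ (by simp)
      exact ⟨v, fun h' => absurd h' h⟩
  choose ch hch using hch'
  set x0 : Fin p → V := fun _ => ch ∅ with hx0
  haveI : Nonempty (Fin p → V) := ⟨x0⟩
  obtain ⟨mu, hmu, hfix⟩ := exists_stationary' (ι := Fin p × (Fin p × Fin N)) (T := Fin p → V)
    (fun σ => zz lt ch x0 (fun t i => σ (t, i)))
  have hst : ∀ φ : (Fin p → V) → ℝ,
      EE (ι := Fin p) (qq (N := N) mu) (fun ω => φ (zz lt ch x0 ω)) = ∑ x, mu x * φ x := by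
    intro φ
    rw [← hfix φ]
    unfold EE qq
    symm
    refine Fintype.sum_equiv (Equiv.curry (Fin p) (Fin p × Fin N) (Fin p → V)) _ _ fun σ => ?_
    rw [Fintype.prod_prod_type]
    rfl
  have hq := qq_law (N := N) hmu
  -- atoms
  have hatom : ∀ v, wlaw lt ch mu N v ≤ α := by
    intro v
    set g : V → ℝ := fun v' => if v' = v then 1 else 0 with hg
    have hg0 : ∀ v', 0 ≤ g v' := fun v' => by simp only [hg]; split_ifs <;> norm_num
    have hg1 : ∀ v', g v' ≤ 1 := fun v' => by simp only [hg]; split_ifs <;> norm_num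
    have ha : wlaw lt ch mu N v = wf lt ch mu N g := rfl
    set a := wlaw lt ch mu N v with ha'
    have ha0 : 0 ≤ a := wlaw_nonneg lt ch hmu v
    have ha1 : a ≤ 1 := by rw [ha]; exact (wf_mem lt ch hmu g hg0 hg1).2
    have r1 := remove lt ch x0 hlt htr hmu hst η hη0.le hNη s0 g hg0 hg1 (fun _ => 1)
      (fun _ _ => rfl) (fun _ => zero_le_one) (fun _ => le_rfl)
    rw [EE_const hq, mul_one, ← ha] at r1
    simp only [one_mul] at r1
    have r2 := remove lt ch x0 hlt htr hmu hst η hη0.le hNη t0 g hg0 hg1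
      (fun ω => g (zz lt ch x0 ω s0))
      (fun ω w => by simp only [zz_update lt ch hlt htr x0 ω t0 s0 w (hlt _ _ hst0)])
      (fun _ => hg0 _) (fun _ => hg1 _)
    have r3 : EE (ι := Fin p) (qq (N := N) mu)
        (fun ω => g (zz lt ch x0 ω s0) * g (zz lt ch x0 ω t0)) = 0 := by
      rw [← EE_const (ι := Fin p) hq 0]
      congr 1
      funext ω
      have harc := zz_arc lt ch hlt adj hch x0 ω s0 t0 hst0
      simp only [hg]
      by_cases h1 : zz lt ch x0 ω s0 = v
      · by_cases h2 : zz lt ch x0 ω t0 = v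
        · rw [h1, h2] at harc
          exact absurd harc (hT.1 v)
        · simp [h2]
      · simp [h1]
    rw [r3, ← ha] at r2
    set E1 := EE (ι := Fin p) (qq (N := N) mu) (fun ω => g (zz lt ch x0 ω s0))
    have b1 := (abs_le.1 r1).1
    have b2 := (abs_le.1 r2).1
    have b3 : a * (a - η) ≤ a * E1 := mul_le_mul_of_nonneg_left (by linarith) ha0
    have b4 : a ^ 2 ≤ α ^ 2 := by nlinarith
    exact (abs_le_of_sq_le_sq' b4 hα.le).2
  obtain ⟨A, hA1, hA2⟩ := hlev V adj hT hC (wlaw lt ch mu N) (wlaw_nonneg lt ch hmu)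
    (wlaw_sum lt ch hmu) hatom
  -- indicator functions
  set f : Fin p → V → ℝ := fun u v => if v ∈ A (lev u) then 1 else 0 with hf
  have hf0 : ∀ u v, 0 ≤ f u v := fun u v => by simp only [hf]; split_ifs <;> norm_num
  have hf1 : ∀ u v, f u v ≤ 1 := fun u v => by simp only [hf]; split_ifs <;> norm_num
  have hwf : ∀ u, wf lt ch mu N (f u) = ∑ v ∈ A (lev u), wlaw lt ch mu N v := by
    intro u
    rw [wf_eq_sum]
    simp [hf, sum_ite_mem]
  have hwδ : ∀ u, δ ≤ wf lt ch mu N (f u) := fun u => by rw [hwf]; exact hA1 _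
  set D := ∏ u, wf lt ch mu N (f u) with hD
  have hDδ : δ ^ p ≤ D := by
    have : ∏ _u : Fin p, δ ≤ D := prod_le_prod (fun _ _ => hδ.le) fun u _ => hwδ u
    simpa using this
  have hD0 : 0 < D := lt_of_lt_of_le (by positivity) hDδ
  have hall := prodlemma lt ch x0 hlt htr hmu hst η hη0.le hNη f hf0 hf1 0 (fun _ => 1)
    (fun _ _ _ _ => rfl) (fun _ => zero_le_one) (fun _ => le_rfl) p (by omega)
  have hfil : univ.filter (fun u : Fin p => 0 ≤ (u : ℕ) ∧ (u : ℕ) < 0 + p) = univ := by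
    ext u
    simp
  rw [hfil, EE_const hq, mul_one] at hall
  simp only [one_mul] at hall
  -- bad pairs
  set R : Fin p → Fin p → V → V → ℝ := fun s t a b =>
    if lev s < lev t then (if adj a b then 0 else 1) else (if adj b a then 0 else 1) with hR
  have hR0 : ∀ s t a b, 0 ≤ R s t a b := fun s t a b => by
    simp only [hR]; split_ifs <;> norm_num
  have hR1 : ∀ s t a b, R s t a b ≤ 1 := fun s t a b => by
    simp only [hR]; split_ifs <;> norm_num
  set PP : Finset (Fin p × Fin p) := univ.filter (fun st =>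
    st.1 < st.2 ∧ (∀ u, ¬ ((u = st.1 ∨ lt u st.1) ∧ lt u st.2)) ∧ lev st.1 ≠ lev st.2) with hPP
  have hbad : ∀ st ∈ PP, EE (ι := Fin p) (qq (N := N) mu)
      (fun ω => (∏ u, f u (zz lt ch x0 ω u)) *
        R st.1 st.2 (zz lt ch x0 ω st.1) (zz lt ch x0 ω st.2)) ≤ ε * D + (p + 1) * η := by
    rintro ⟨s, t⟩ hst'
    simp only [hPP, mem_filter, mem_univ, true_and] at hst'
    obtain ⟨hslt, hcl, hlne⟩ := hst'
    have hb := badpair lt ch x0 hlt htr hmu hst η hη0.le hNη s t hslt hcl f hf0 hf1 (R s t)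
      (hR0 s t) (hR1 s t)
    refine hb.trans ?_
    have hρ : wf lt ch mu N (fun a => f s a * wf lt ch mu N (fun b => f t b * R s t a b)) ≤
        ε * wf lt ch mu N (f s) * wf lt ch mu N (f t) := by
      have e1 : wf lt ch mu N (fun a => f s a * wf lt ch mu N (fun b => f t b * R s t a b)) =
          ∑ a ∈ A (lev s), ∑ b ∈ A (lev t),
            R s t a b * (wlaw lt ch mu N a * wlaw lt ch mu N b) := by
        rw [wf_eq_sum]
        have e2 : ∀ a, wf lt ch mu N (fun b => f t b * R s t a b) =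
            ∑ b ∈ A (lev t), wlaw lt ch mu N b * R s t a b := by
          intro a
          rw [wf_eq_sum]
          simp only [hf, ite_mul, one_mul, zero_mul, mul_ite, mul_zero]
          rw [sum_ite_mem, univ_inter]
        simp_rw [e2]
        simp only [hf, ite_mul, one_mul, zero_mul, mul_ite, mul_zero]
        rw [sum_ite_mem, univ_inter]
        refine sum_congr rfl fun a _ => ?_
        rw [mul_sum]
        refine sum_congr rfl fun b _ => ?_
        ring
      rw [e1, hwf s, hwf t]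
      rcases lt_or_gt_of_ne hlne with hl | hl
      · refine le_trans (le_of_eq ?_) (hA2 _ _ hl)
        unfold nonarc
        refine sum_congr rfl fun a _ => sum_congr rfl fun b _ => ?_
        simp only [hR, if_pos hl]
        split_ifs <;> ring
      · have h2 := hA2 _ _ hl
        have e3 : ε * (∑ v ∈ A (lev s), wlaw lt ch mu N v) * ∑ v ∈ A (lev t), wlaw lt ch mu N v =
          ε * (∑ v ∈ A (lev t), wlaw lt ch mu N v) * ∑ v ∈ A (lev s), wlaw lt ch mu N v := by
          ring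
        rw [e3]
        refine le_trans (le_of_eq ?_) h2
        unfold nonarc
        rw [sum_comm]
        refine sum_congr rfl fun a _ => sum_congr rfl fun b _ => ?_
        simp only [hR, if_neg hl.not_gt]
        split_ifs <;> ring
    have hrest0 : 0 ≤ ∏ u ∈ (univ.erase s).erase t, wf lt ch mu N (f u) :=
      prod_nonneg fun u _ => (wf_mem lt ch hmu _ (hf0 u) (hf1 u)).1
    have hDsplit : D = wf lt ch mu N (f s) * (wf lt ch mu N (f t) *
        ∏ u ∈ (univ.erase s).erase t, wf lt ch mu N (f u)) := by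
      rw [hD, ← mul_prod_erase univ _ (mem_univ s), ← mul_prod_erase (univ.erase s) _
        (mem_erase.2 ⟨hslt.ne', mem_univ t⟩)]
    rw [hDsplit]
    have := mul_le_mul_of_nonneg_right hρ hrest0
    linarith
  -- there is a good point
  have hgood : ∃ ω : Fin p → (Fin p × Fin N → (Fin p → V)),
      0 < (∏ u, f u (zz lt ch x0 ω u)) *
      (1 - ∑ st ∈ PP, R st.1 st.2 (zz lt ch x0 ω st.1) (zz lt ch x0 ω st.2)) := by
    by_contra hcon
    push Not at hcon
    have h1 : EE (ι := Fin p) (qq (N := N) mu) (fun ω => (∏ u, f u (zz lt ch x0 ω u)) *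
      (1 - ∑ st ∈ PP, R st.1 st.2 (zz lt ch x0 ω st.1) (zz lt ch x0 ω st.2))) ≤ 0 := by
      rw [← EE_const (ι := Fin p) hq 0]
      exact EE_mono hq hcon
    have h2 : (fun ω : Fin p → (Fin p × Fin N → (Fin p → V)) =>
      (∏ u, f u (zz lt ch x0 ω u)) *
      (1 - ∑ st ∈ PP, R st.1 st.2 (zz lt ch x0 ω st.1) (zz lt ch x0 ω st.2))) =
      fun ω => (∏ u, f u (zz lt ch x0 ω u)) - ∑ st ∈ PP, (∏ u, f u (zz lt ch x0 ω u)) *
        R st.1 st.2 (zz lt ch x0 ω st.1) (zz lt ch x0 ω st.2) := by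
      funext ω
      rw [mul_sub, mul_one, mul_sum]
    rw [h2, EE_sub, EE_sum] at h1
    have h3 : ∑ st ∈ PP, EE (ι := Fin p) (qq (N := N) mu)
      (fun ω => (∏ u, f u (zz lt ch x0 ω u)) *
        R st.1 st.2 (zz lt ch x0 ω st.1) (zz lt ch x0 ω st.2)) ≤
        (p : ℝ) ^ 2 * (ε * D + (p + 1) * η) := by
      refine (sum_le_sum hbad).trans ?_
      rw [sum_const, nsmul_eq_mul]
      have hc : (PP.card : ℝ) ≤ (p : ℝ) ^ 2 := by
        have : PP.card ≤ p ^ 2 := by
          refine (card_filter_le _ _).trans ?_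
          simp [sq]
        exact_mod_cast this
      exact mul_le_mul_of_nonneg_right hc (by positivity)
    have h4 := (abs_le.1 hall).1
    have h5 : (p : ℝ) ^ 2 * ε = 1 / 4 := by
      rw [hε]
      field_simp
    have h6 : ((p : ℝ) + 1) ^ 3 * η ≤ D / 4 := by
      have h7 : ((p : ℝ) + 1) ^ 3 * η ≤ ((p : ℝ) + 1) ^ 3 * (δ ^ p / (4 * ((p : ℝ) + 1) ^ 3)) :=
        mul_le_mul_of_nonneg_left hη3 (by positivity)
      have h8 : ((p : ℝ) + 1) ^ 3 * (δ ^ p / (4 * ((p : ℝ) + 1) ^ 3)) = δ ^ p / 4 := by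
        field_simp
      rw [h8] at h7
      linarith
    have h9 : (p : ℝ) ^ 2 * (ε * D + (p + 1) * η) = D / 4 + (p : ℝ) ^ 2 * ((p + 1) * η) := by
      have : (p : ℝ) ^ 2 * (ε * D + (p + 1) * η) = ((p : ℝ) ^ 2 * ε) * D +
        (p : ℝ) ^ 2 * ((p + 1) * η) := by ring
      rw [this, h5]
      ring
    have h10 : (p : ℝ) * η + (p : ℝ) ^ 2 * ((p + 1) * η) ≤ ((p : ℝ) + 1) ^ 3 * η := by
      have : (p : ℝ) + (p : ℝ) ^ 2 * (p + 1) ≤ ((p : ℝ) + 1) ^ 3 := by nlinarith [sq_nonneg (p : ℝ)]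
      nlinarith
    rw [h9] at h3
    linarith
  obtain ⟨ω, hω⟩ := hgood
  have hprod0 : 0 ≤ ∏ u, f u (zz lt ch x0 ω u) := prod_nonneg fun u _ => hf0 _ _
  have hRlt : ∑ st ∈ PP, R st.1 st.2 (zz lt ch x0 ω st.1) (zz lt ch x0 ω st.2) < 1 := by
    by_contra hge
    push Not at hge
    have : (∏ u, f u (zz lt ch x0 ω u)) *
      (1 - ∑ st ∈ PP, R st.1 st.2 (zz lt ch x0 ω st.1) (zz lt ch x0 ω st.2)) ≤ 0 :=
      mul_nonpos_of_nonneg_of_nonpos hprod0 (by linarith)
    linarith
  have hRz : ∀ st ∈ PP, R st.1 st.2 (zz lt ch x0 ω st.1) (zz lt ch x0 ω st.2) < 1 := by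
    intro st hst'
    exact lt_of_le_of_lt (single_le_sum (f := fun st : Fin p × Fin p =>
      R st.1 st.2 (zz lt ch x0 ω st.1) (zz lt ch x0 ω st.2))
      (fun st _ => hR0 _ _ _ _) hst') hRlt
  refine ⟨zz lt ch x0 ω, fun s t hst' => zz_arc lt ch hlt adj hch x0 ω s t hst', ?_⟩
  intro s t hcl hl
  have hne : s ≠ t := by
    rintro rfl
    exact hcl s ⟨Or.inl rfl, Or.inl rfl⟩
  rcases lt_or_gt_of_ne hne with hlt' | hlt'
  · have hmem : (s, t) ∈ PP := by
      simp only [hPP, mem_filter, mem_univ, true_and]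
      exact ⟨hlt', fun u hu => hcl u ⟨hu.1, Or.inr hu.2⟩, hl.ne⟩
    have := hRz (s, t) hmem
    simp only [hR, if_pos hl] at this
    by_contra hadj
    rw [if_neg hadj] at this
    exact lt_irrefl _ this
  · have hmem : (t, s) ∈ PP := by
      simp only [hPP, mem_filter, mem_univ, true_and]
      exact ⟨hlt', fun u hu => hcl u ⟨Or.inr hu.2, hu.1⟩, hl.ne'⟩
    have := hRz (t, s) hmem
    simp only [hR, if_neg hl.not_gt] at this
    by_contra hadj
    rw [if_neg hadj] at this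
    exact lt_irrefl _ this

end Pool.Agent.Rebel
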