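import Pool.Agent.Rebel.Defs

/-! # Stages: construction of the sequence of states -/

set_option autoImplicit false

open Finset

namespace Pool.Agent.Rebel

theorem Far.union {n : ℕ} {X Y : Finset ℕ} (hX : Far n X) (hY : Far n Y) : Far n (X ∪ Y) := by
  intro x hx
  rcases Finset.mem_union.mp hx with h | h
  · exact hX x h
  · exact hY x h

theorem Near.union {n : ℕ} {X Y : Finset ℕ} (hX : Near n X) (hY : Near n Y) : Near n (X ∪ Y) := by
  intro x hx
  rcases Finset.mem_union.mp hx with h | h
  · exact hX x h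
  · exact hY x h

theorem Far.mono {n n' : ℕ} {X : Finset ℕ} (hX : Far n' X) (h : n ≤ n') : Far n X :=
  fun x hx => h.trans (hX x hx)

theorem Near.mono {n n' : ℕ} {X : Finset ℕ} (hX : Near n X) (h : n ≤ n') : Near n' X :=
  fun x hx => (hX x hx).trans_le h

theorem near_far_disjoint {n : ℕ} {X Y : Finset ℕ} (hX : Near n X) (hY : Far n Y) :
    Disjoint X Y := by
  rw [Finset.disjoint_left]
  intro x hx hy
  exact absurd (hX x hx) (not_lt.mpr (hY x hy))

theorem far_empty (n : ℕ) : Far n ∅ := fun x hx => absurd hx (Finset.notMem_empty x)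

/-- `gs` is inherited by extensions -/
theorem gs_ext {a : Finset ℕ → Finset ℕ → Prop} {I J X Y : Finset ℕ} {n n' : ℕ}
    (h : gs a I J n) (hX : Far n X) (hY : Far n Y) (hXY : Disjoint X Y) (hn : n ≤ n')
    (hX' : Near n' X) (hY' : Near n' Y) : gs a (I ∪ X) (J ∪ Y) n' := by
  intro X' Y' hfX hfY hd
  rw [Finset.union_assoc, Finset.union_assoc]
  refine h (X ∪ X') (Y ∪ Y') (hX.union (hfX.mono hn)) (hY.union (hfY.mono hn)) ?_
  rw [Finset.disjoint_union_left, Finset.disjoint_union_right, Finset.disjoint_union_right]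
  exact ⟨⟨hXY, near_far_disjoint hX' hfY⟩, (near_far_disjoint hY' hfX).symm, hd⟩

/-- `ad` is inherited by extensions -/
theorem ad_ext {a : Finset ℕ → Finset ℕ → Prop} {I J X Y : Finset ℕ} {n n' : ℕ}
    (h : ad a I J n) (hX : Far n X) (hY : Far n Y) (hXY : Disjoint X Y) (hn : n ≤ n')
    (hX' : Near n' X) (hY' : Near n' Y) : ad a (I ∪ X) (J ∪ Y) n' := by
  intro X' Y' n'' hfX hfY hd hn' hnX hnY
  rw [Finset.union_assoc, Finset.union_assoc]
  refine h (X ∪ X') (Y ∪ Y') n'' (hX.union (hfX.mono hn)) (hY.union (hfY.mono hn)) ?_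
    (hn.trans hn') ((hX'.mono hn').union hnX) ((hY'.mono hn').union hnY)
  rw [Finset.disjoint_union_left, Finset.disjoint_union_right, Finset.disjoint_union_right]
  exact ⟨⟨hXY, near_far_disjoint hX' hfY⟩, (near_far_disjoint hY' hfX).symm, hd⟩

theorem St.Ext.refl (s : St) : s.Ext s :=
  ⟨le_refl _, fun _ => ⟨∅, far_empty _, (Finset.union_empty _).symm⟩⟩

theorem St.Ext.trans {s t u : St} (h : s.Ext t) (h' : t.Ext u) : s.Ext u := by
  refine ⟨h.1.trans h'.1, fun i => ?_⟩
  obtain ⟨X, hX, hX'⟩ := h.2 i
  obtain ⟨Y, hY, hY'⟩ := h'.2 i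
  exact ⟨X ∪ Y, hX.union (hY.mono h.1), by rw [hY', hX', Finset.union_assoc]⟩

/-- how an extension looks for a pair `(C j, B K)` -/
theorem ext_pair {t t' : St} {j : ℕ} (ht' : t'.Valid (j + 1)) (he : t.Ext t') {K : Finset ℕ}
    (hK : K ⊆ range j) : ∃ X Y : Finset ℕ, Far t.n X ∧ Far t.n Y ∧ Disjoint X Y ∧
      Near t'.n X ∧ Near t'.n Y ∧ t'.C j = t.C j ∪ X ∧ t'.B K = t.B K ∪ Y := by
  choose Z hZ hZ' using he.2
  have hsub : ∀ i, Z i ⊆ t'.C i := fun i => by rw [hZ' i]; exact Finset.subset_union_right
  refine ⟨Z j, K.biUnion Z, hZ j, ?_, ?_, ?_, ?_, hZ' j, ?_⟩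
  · intro x hx
    obtain ⟨k, _, hk⟩ := Finset.mem_biUnion.mp hx
    exact hZ k x hk
  · rw [Finset.disjoint_biUnion_right]
    intro k hk
    have hkj : j ≠ k := by
      have := Finset.mem_range.mp (hK hk)
      omega
    exact Finset.disjoint_of_subset_left (hsub j)
      (Finset.disjoint_of_subset_right (hsub k) (ht'.disj j k hkj))
  · exact fun x hx => ht'.near j x (hsub j hx)
  · intro x hx
    obtain ⟨k, _, hk⟩ := Finset.mem_biUnion.mp hx
    exact ht'.near k x (hsub k hk)
  · unfold St.B
    ext y
    simp only [Finset.mem_biUnion, Finset.mem_union]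
    constructor
    · rintro ⟨k, hk, hy⟩
      rw [hZ' k, Finset.mem_union] at hy
      rcases hy with hy | hy
      · exact Or.inl ⟨k, hk, hy⟩
      · exact Or.inr ⟨k, hk, hy⟩
    · rintro (⟨k, hk, hy⟩ | ⟨k, hk, hy⟩)
      · exact ⟨k, hk, by rw [hZ' k]; exact Finset.mem_union_left _ hy⟩
      · exact ⟨k, hk, by rw [hZ' k]; exact Finset.mem_union_right _ hy⟩

/-- decided pairs stay decided -/
theorem decided_ext {a : Finset ℕ → Finset ℕ → Prop} {t t' : St} {j : ℕ}
    (ht' : t'.Valid (j + 1)) (he : t.Ext t') {K : Finset ℕ} (hK : K ⊆ range j)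
    (h : gs a (t.C j) (t.B K) t.n ∨ ad a (t.C j) (t.B K) t.n) :
    gs a (t'.C j) (t'.B K) t'.n ∨ ad a (t'.C j) (t'.B K) t'.n := by
  obtain ⟨X, Y, hX, hY, hXY, hX', hY', h1, h2⟩ := ext_pair ht' he hK
  rw [h1, h2]
  rcases h with h | h
  · exact Or.inl (gs_ext h hX hY hXY he.1 hX' hY')
  · exact Or.inr (ad_ext h hX hY hXY he.1 hX' hY')

/-- decide one pair -/
theorem decide_one (a : Finset ℕ → Finset ℕ → Prop) {t : St} {j : ℕ} (ht : t.Valid (j + 1))
    {K : Finset ℕ} (hK : K ⊆ range j) (hne : K.Nonempty) :
    ∃ t' : St, t'.Valid (j + 1) ∧ t.Ext t' ∧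
      (gs a (t'.C j) (t'.B K) t'.n ∨ ad a (t'.C j) (t'.B K) t'.n) := by
  by_cases had : ad a (t.C j) (t.B K) t.n
  · exact ⟨t, ht, St.Ext.refl t, Or.inr had⟩
  · unfold ad at had
    push Not at had
    obtain ⟨X, Y, n', hX, hY, hXY, hn, hX', hY', hgs⟩ := had
    obtain ⟨k, hk⟩ := hne
    have hkj : k < j := Finset.mem_range.mp (hK hk)
    let Z : ℕ → Finset ℕ := fun i => if i = j then X else if i = k then Y else ∅
    have hZj : Z j = X := if_pos rfl
    have hZk : Z k = Y := by
      change (if k = j then X else if k = k then Y else ∅) = Y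
      rw [if_neg (by omega), if_pos rfl]
    have hZo : ∀ i, i ≠ j → i ≠ k → Z i = ∅ := by
      intro i h1 h2
      simp only [Z]
      rw [if_neg h1, if_neg h2]
    have hZfar : ∀ i, Far t.n (Z i) := by
      intro i
      by_cases h1 : i = j
      · rw [h1, hZj]; exact hX
      · by_cases h2 : i = k
        · rw [h2, hZk]; exact hY
        · rw [hZo i h1 h2]; exact far_empty _
    have hZnear : ∀ i, Near n' (Z i) := by
      intro i
      by_cases h1 : i = j
      · rw [h1, hZj]; exact hX'
      · by_cases h2 : i = k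
        · rw [h2, hZk]; exact hY'
        · rw [hZo i h1 h2]; exact fun x hx => absurd hx (Finset.notMem_empty x)
    have hZdisj : ∀ i i', i ≠ i' → Disjoint (Z i) (Z i') := by
      intro i i' hii
      by_cases h1 : i = j
      · by_cases h2 : i' = k
        · rw [h1, h2, hZj, hZk]; exact hXY
        · rw [hZo i' (fun h => hii (h1.trans h.symm)) h2]
          exact Finset.disjoint_empty_right _
      · by_cases h2 : i = k
        · by_cases h3 : i' = j
          · rw [h2, h3, hZj, hZk]; exact hXY.symm
          · rw [hZo i' h3 (fun h => hii (h2.trans h.symm))]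
            exact Finset.disjoint_empty_right _
        · rw [hZo i h1 h2]
          exact Finset.disjoint_empty_left _
    refine ⟨⟨fun i => t.C i ∪ Z i, n'⟩, ⟨?_, ?_, ?_, ?_, ?_⟩, ⟨hn, fun i => ⟨Z i, hZfar i, rfl⟩⟩, ?_⟩
    · exact fun i => ((ht.near i).mono hn).union (hZnear i)
    · intro i i' hii
      simp only
      rw [Finset.disjoint_union_left, Finset.disjoint_union_right, Finset.disjoint_union_right]
      exact ⟨⟨ht.disj i i' hii, near_far_disjoint (ht.near i) (hZfar i')⟩,
        (near_far_disjoint (ht.near i') (hZfar i)).symm, hZdisj i i' hii⟩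
    · intro i hi
      simp only
      rw [ht.empty i hi, hZo i (by omega) (by omega), Finset.union_empty]
    · intro i hi
      exact (ht.ne i hi).mono Finset.subset_union_left
    · intro i i' hii hi'
      obtain ⟨x0, hx0, hmin⟩ := ht.mins i i' hii hi'
      refine ⟨x0, Finset.mem_union_left _ hx0, fun y hy => ?_⟩
      rcases Finset.mem_union.mp hy with hy | hy
      · exact hmin y hy
      · exact (ht.near i x0 hx0).trans_le (hZfar i' y hy)
    · left
      have hB : St.B ⟨fun i => t.C i ∪ Z i, n'⟩ K = t.B K ∪ Y := by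
        unfold St.B
        ext y
        simp only [Finset.mem_biUnion, Finset.mem_union]
        constructor
        · rintro ⟨i, hi, hy | hy⟩
          · exact Or.inl ⟨i, hi, hy⟩
          · right
            have h1 : i ≠ j := by
              have := Finset.mem_range.mp (hK hi)
              omega
            by_cases h2 : i = k
            · rwa [h2, hZk] at hy
            · rw [hZo i h1 h2] at hy
              exact absurd hy (Finset.notMem_empty y)
        · rintro (⟨i, hi, hy⟩ | hy)
          · exact ⟨i, hi, Or.inl hy⟩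
          · exact ⟨k, hk, Or.inr (by rw [hZk]; exact hy)⟩
      rw [hB]
      simp only
      rw [hZj]
      exact hgs

/-- decide finitely many pairs -/
theorem decide_all (a : Finset ℕ → Finset ℕ → Prop) {s₁ : St} {j : ℕ} (hs : s₁.Valid (j + 1))
    (F : Finset (Finset ℕ)) (hF : ∀ K ∈ F, K ⊆ range j ∧ K.Nonempty) :
    ∃ t : St, t.Valid (j + 1) ∧ s₁.Ext t ∧
      ∀ K ∈ F, gs a (t.C j) (t.B K) t.n ∨ ad a (t.C j) (t.B K) t.n := by
  induction F using Finset.induction_on with
  | empty => exact ⟨s₁, hs, St.Ext.refl _, fun K hK => absurd hK (Finset.notMem_empty K)⟩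
  | insert K F _ ih =>
    obtain ⟨t, ht, het, hdec⟩ := ih (fun K' hK' => hF K' (Finset.mem_insert_of_mem hK'))
    obtain ⟨hK1, hK2⟩ := hF K (Finset.mem_insert_self K F)
    obtain ⟨t', ht', he', hd'⟩ := decide_one a ht hK1 hK2
    refine ⟨t', ht', het.trans he', fun K' hK' => ?_⟩
    rcases Finset.mem_insert.mp hK' with rfl | hK'
    · exact hd'
    · exact decided_ext ht' he' (hF K' (Finset.mem_insert_of_mem hK')).1 (hdec K' hK')

/-- one stage -/
theorem stage (a : Finset ℕ → Finset ℕ → Prop) (j : ℕ) (s : St) (hs : s.Valid j) :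
    ∃ (s' : St) (x : ℕ), s'.Valid (j + 1) ∧ s.Ext s' ∧ x ∈ s'.C j ∧ s.n ≤ x ∧
      (∀ i, ∀ y ∈ s'.C i, s.n ≤ y → (y = x ∧ i = j) ∨ x < y) ∧
      (∀ K L : Finset ℕ, K ⊆ range j → L ⊆ range j → Disjoint K L →
        tau a (s.B K) (s.B L) → a (insert x (s.B K)) (insert x (s.B L))) ∧
      (∀ K : Finset ℕ, K ⊆ range j → K.Nonempty →
        gs a (s'.C j) (s'.B K) s'.n ∨ ad a (s'.C j) (s'.B K) s'.n) := by
  classical
  -- choice of a good `x`
  have hx : ∃ x, s.n ≤ x ∧ ∀ K ∈ (range j).powerset, ∀ L ∈ (range j).powerset,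
      tau a (s.B K) (s.B L) → a (insert x (s.B K)) (insert x (s.B L)) := by
    have h1 : ∀ᶠ x in (Filter.hyperfilter ℕ : Filter ℕ), s.n ≤ x := by
      have h2 : ∀ᶠ x in (Filter.cofinite : Filter ℕ), s.n ≤ x := by
        rw [Nat.cofinite_eq_atTop]
        exact Filter.eventually_ge_atTop _
      exact h2.filter_mono Filter.hyperfilter_le_cofinite
    have h3 : ∀ᶠ x in (Filter.hyperfilter ℕ : Filter ℕ), ∀ K ∈ (range j).powerset,
        ∀ L ∈ (range j).powerset,
        tau a (s.B K) (s.B L) → a (insert x (s.B K)) (insert x (s.B L)) := by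
      rw [Filter.eventually_all_finset]
      intro K _
      rw [Filter.eventually_all_finset]
      intro L _
      by_cases ht : tau a (s.B K) (s.B L)
      · have ht' : ∀ᶠ x in (Filter.hyperfilter ℕ : Filter ℕ),
            a (insert x (s.B K)) (insert x (s.B L)) := ht
        exact ht'.mono fun x hx _ => hx
      · exact Filter.Eventually.of_forall fun x h => absurd h ht
    exact (h1.and h3).exists
  obtain ⟨x, hxn, hgood⟩ := hx
  -- the new state before the decisions
  have hC : ∀ i, i ≠ j → Function.update s.C j {x} i = s.C i := fun i hi =>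
    Function.update_of_ne hi _ _
  have hCj : Function.update s.C j {x} j = {x} := Function.update_self _ _ _
  have hnear1 : ∀ i, i ≠ j → Near x (s.C i) := fun i _ => (hs.near i).mono hxn
  have hs₁ : St.Valid ⟨Function.update s.C j {x}, x + 1⟩ (j + 1) := by
    refine ⟨?_, ?_, ?_, ?_, ?_⟩
    · intro i
      by_cases hi : i = j
      · simp only
        rw [hi, hCj]
        intro y hy
        rw [Finset.mem_singleton] at hy
        omega
      · simp only
        rw [hC i hi]
        exact (hs.near i).mono (by omega)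
    · intro i i' hii
      simp only
      by_cases hi : i = j
      · have hi' : i' ≠ j := fun h => hii (hi.trans h.symm)
        rw [hi, hCj, hC i' hi', Finset.disjoint_singleton_left]
        intro h
        have := hs.near i' x h
        omega
      · by_cases hi' : i' = j
        · rw [hi', hCj, hC i hi, Finset.disjoint_singleton_right]
          intro h
          have := hs.near i x h
          omega
        · rw [hC i hi, hC i' hi']
          exact hs.disj i i' hii
    · intro i hi
      simp only
      rw [hC i (by omega)]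
      exact hs.empty i (by omega)
    · intro i hi
      simp only
      by_cases hij : i = j
      · rw [hij, hCj]
        exact Finset.singleton_nonempty x
      · rw [hC i hij]
        exact hs.ne i (by omega)
    · intro i i' hii hi'
      simp only
      by_cases hij : i' = j
      · rw [hij, hCj, hC i (by omega)]
        obtain ⟨x0, hx0⟩ := hs.ne i (by omega)
        refine ⟨x0, hx0, fun y hy => ?_⟩
        rw [Finset.mem_singleton] at hy
        have := hs.near i x0 hx0
        omega
      · rw [hC i (by omega), hC i' hij]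
        exact hs.mins i i' hii (by omega)
  have hext₁ : s.Ext ⟨Function.update s.C j {x}, x + 1⟩ := by
    refine ⟨by simp only; omega, fun i => ?_⟩
    by_cases hij : i = j
    · refine ⟨{x}, fun y hy => ?_, ?_⟩
      · rw [Finset.mem_singleton] at hy
        omega
      · simp only
        rw [hij, hCj, hs.empty j (le_refl j), Finset.empty_union]
    · refine ⟨∅, far_empty _, ?_⟩
      simp only
      rw [hC i hij, Finset.union_empty]
  obtain ⟨t, ht, het, hdec⟩ := decide_all a hs₁ ((range j).powerset.filter fun K => K.Nonempty)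
    (fun K hK => by
      rw [Finset.mem_filter, Finset.mem_powerset] at hK
      exact hK)
  refine ⟨t, x, ht, hext₁.trans het, ?_, hxn, ?_, ?_, ?_⟩
  · obtain ⟨X, _, hX⟩ := het.2 j
    rw [hX]
    apply Finset.mem_union_left
    simp only
    rw [hCj]
    exact Finset.mem_singleton_self x
  · intro i y hy hny
    obtain ⟨X, hXf, hX⟩ := het.2 i
    rw [hX, Finset.mem_union] at hy
    rcases hy with hy | hy
    · simp only at hy
      by_cases hij : i = j
      · rw [hij, hCj, Finset.mem_singleton] at hy
        exact Or.inl ⟨hy, hij⟩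
      · rw [hC i hij] at hy
        have := hs.near i y hy
        omega
    · right
      have := hXf y hy
      simp only at this
      omega
  · intro K L hK hL _ htau
    exact hgood K (Finset.mem_powerset.mpr hK) L (Finset.mem_powerset.mpr hL) htau
  · intro K hK hne
    refine hdec K ?_
    rw [Finset.mem_filter, Finset.mem_powerset]
    exact ⟨hK, hne⟩

/-- Stage construction.  Stage `j`: choose `x ≥ n_j` which is good for all pairs of unions (finitely
many conditions, each for most `x`), start `C j = {x}`, then for all nonempty `K ⊆ range j`, one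
after the other, extend `C j` by `X` and one of the `C k`, `k ∈ K`, by `Y` so that the pair
`(C j, B K)` becomes `gs`; if this is impossible it is already `ad`.  `gs` and `ad` are inherited by
extensions. -/
theorem exists_seq (a : Finset ℕ → Finset ℕ → Prop) : Nonempty (Seq a) := by
  classical
  choose next x h1 h2 h3 h4 h5 h6 h7 using stage a
  have h0 : St.Valid ⟨fun _ => ∅, 0⟩ 0 := by
    refine ⟨?_, ?_, ?_, ?_, ?_⟩
    · exact fun i y hy => absurd hy (Finset.notMem_empty y)
    · exact fun i i' _ => Finset.disjoint_empty_left _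
    · exact fun i _ => rfl
    · exact fun i hi => absurd hi (Nat.not_lt_zero i)
    · exact fun i i' _ hi' => absurd hi' (Nat.not_lt_zero i')
  let F : (j : ℕ) → {s : St // s.Valid j} := fun j =>
    Nat.rec ⟨⟨fun _ => ∅, 0⟩, h0⟩ (fun j s => ⟨next j s.1 s.2, h1 j s.1 s.2⟩) j
  have hF : ∀ j, (F (j + 1)).1 = next j (F j).1 (F j).2 := fun j => rfl
  refine ⟨{
    s := fun j => (F j).1
    valid := fun j => (F j).2
    ext := fun j => by rw [hF]; exact h2 j _ _
    x := fun j => x j (F j).1 (F j).2
    x_mem := fun j => by rw [hF]; exact h3 j _ _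
    x_far := fun j => h4 j _ _
    x_first := fun j => by rw [hF]; exact h5 j _ _
    good := fun j => h6 j _ _
    dec := fun j => by rw [hF]; exact h7 j _ _ }⟩

end Pool.Agent.Rebel
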